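import Pool.Agent.Lib.MP_2a1ef3_lc.Sem2

/-!
A solution of the gates gives a stratified description.
-/

set_option autoImplicit false
set_option linter.unusedSimpArgs false

namespace Pool.Agent.MP2a1ef3

variable {Bl : Type} [LinearOrder Bl] {s v k : ℕ} (π : Place Bl s v)

lemma Place.var_inj {π : Place Bl s v} {i j : ℕ} (hi : i < v) (hj : j < v)
    (h : π.var i = π.var j) : i = j := by
  rcases lt_trichotomy i j with h1 | h1 | h1
  · exact absurd h (π.var_lt i j h1 hj).ne
  · exact h1
  · exact absurd h.symm (π.var_lt j i h1 hi).ne

lemma cond_of_slopes {r : ℕ → ℚ} {ρ : Bl → ℚ} (hρ : ∀ i < v, ρ (π.var i) = r i)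
    {x : Pos Bl → ℕ} (hx : ∀ b, (be x b : ℚ) = ρ b * al x b) {g : Gate ℕ} (hg : g.WF v)
    (hs : Gate.Sat r g) : cond π x g := by
  cases g with
  | one i =>
    simp only [Gate.WF] at hg
    simp only [Gate.Sat] at hs
    simp only [cond]
    have h := hx (π.var i)
    rw [hρ i hg, hs, one_mul] at h
    exact_mod_cast h
  | lin c i l =>
    simp only [Gate.WF] at hg
    simp only [Gate.Sat] at hs
    simp only [cond]
    by_cases h0 : al x (π.var i) = al x (π.var l)
    · right
      have h1 := hx (π.var i)
      have h2 := hx (π.var l)
      rw [hρ i (by omega)] at h1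
      rw [hρ l (by omega), hs, ← h0, mul_assoc, ← h1] at h2
      exact_mod_cast h2
    · exact Or.inl h0
  | add i j l =>
    simp only [Gate.WF] at hg
    simp only [Gate.Sat] at hs
    simp only [cond]
    by_cases h0 : al x (π.var i) = al x (π.var j)
    · right
      by_cases h0' : al x (π.var j) = al x (π.var l)
      · right
        have h1 := hx (π.var i)
        have h2 := hx (π.var j)
        have h3 := hx (π.var l)
        rw [hρ i (by omega)] at h1
        rw [hρ j (by omega)] at h2
        rw [hρ l (by omega), ← hs, add_mul, ← h0', ← h2, ← h0, ← h1] at h3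
        exact_mod_cast h3.symm
      · exact Or.inl h0'
    · exact Or.inl h0
  | mul i j l =>
    simp only [Gate.WF] at hg
    simp only [Gate.Sat] at hs
    simp only [cond]
    by_cases h0 : al x (π.var i) = al x (π.var l)
    · right
      by_cases h0' : be x (π.var i) = al x (π.var j)
      · right
        have h1 := hx (π.var i)
        have h2 := hx (π.var j)
        have h3 := hx (π.var l)
        rw [hρ i (by omega)] at h1
        rw [hρ j (by omega), ← h0', h1] at h2
        rw [hρ l (by omega), ← hs, ← h0] at h3
        have h4 : (be x (π.var j) : ℚ) = be x (π.var l) := by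
          rw [h2, h3]; ring
        exact_mod_cast h4
      · exact Or.inl h0'
    · exact Or.inl h0

variable [Fintype Bl] {G : Fin s → Gate (ℕ ⊕ Fin k)} (hG : ∀ g, (G g).WF v)

lemma wf_map {K K' : Type} (f : K → K') {g : Gate K} (h : g.WF v) : (g.map f).WF v := by
  cases g <;> exact h

include hG in
/-- A solution gives a stratified description. -/
theorem strat_of_solution (θ : Fin k → ℕ) (r : ℕ → ℚ)
    (hr : ∀ g, Gate.Sat r ((G g).map (ev θ))) :
    StratUnion (MM π (fun g => (G g).map (ev θ))) := by
  classical
  let ρ : Bl → ℚ := fun b => if h : ∃ i, i < v ∧ π.var i = b then r h.choose else 1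
  have hρ : ∀ i < v, ρ (π.var i) = r i := by
    intro i hi
    have h : ∃ j, j < v ∧ π.var j = π.var i := ⟨i, hi, rfl⟩
    simp only [ρ, dif_pos h]
    rw [Place.var_inj h.choose_spec.1 hi h.choose_spec.2]
  have hp : ∀ (b : Bl) (i : Pos Bl), blk i = b ↔ i = at' b 0 ∨ i = at' b 1 ∨ i = at' b 2 ∨
      i = at' b 3 := by
    intro b i
    rw [← at_blk i]
    generalize blk i = b1
    generalize lt4 i = t
    simp only [blk_at, at_inj]
    fin_cases t <;> simp
  have hlt : ∀ (b : Bl) (t u : Fin 4), t < u → at' b t < at' b u := fun b t u h =>
    at_lt.2 (Or.inr ⟨rfl, h⟩)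
  choose X hX1 hX2 hX3 using fun b : Bl => loc_cover (k := k) (part := blk) (a := b)
    (hlt b 0 1 (by decide)) (hlt b 1 2 (by decide)) (hlt b 2 3 (by decide)) (hp b) (ρ b)
  have hcov : TU (fun θ => {x : Pos Bl → ℕ | ∀ b, restr blk b x ∈ X b θ}) := by
    refine TU.prod ?_ hX1
    intro a b hab i j l m hij hjl hlm hi hl hj hm
    apply hab
    rw [← hj]
    exact le_antisymm (hi ▸ blk_le hij) (hl ▸ blk_le hjl)
  refine (((tu_V0 π hG).union hcov).congr (Y := fun θ' => if θ' = θ then
    MM π (fun g => (G g).map (ev θ)) else {x | V0 π (fun g => (G g).map (ev θ')) x} ∪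
      {x : Pos Bl → ℕ | ∀ b, restr blk b x ∈ X b θ'}) ?_).stratUnion θ |> fun h => by
        simpa using h
  intro θ' x
  by_cases hθ : θ' = θ
  · subst hθ
    simp only [if_true]
    constructor
    · rintro (h | h)
      · right
        intro b
        have h0 : restr blk b x (at' b 0) = x (at' b 0) := by simp [restr_apply]
        have h1 : restr blk b x (at' b 1) = x (at' b 1) := by simp [restr_apply]
        have h2 : restr blk b x (at' b 2) = x (at' b 2) := by simp [restr_apply]
        have h3 : restr blk b x (at' b 3) = x (at' b 3) := by simp [restr_apply]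
        obtain ⟨h4, h5⟩ := h b
        unfold al at h4
        unfold be at h5
        refine hX3 b θ' _ ?_ ?_ ?_
        · intro i hi
          by_contra h0
          exact hi (by simp [restr_apply, h0])
        · rw [h0, h2]; omega
        · rw [h1, h3]; omega
      · exact Or.inl h
    · rintro (h | h)
      · exact Or.inr h
      · have hx : ∀ b, (be x b : ℚ) = ρ b * al x b := by
          intro b
          have h4 := hX2 b θ' _ (h b)
          have h0 : restr blk b x (at' b 0) = x (at' b 0) := by simp [restr_apply]
          have h1 : restr blk b x (at' b 1) = x (at' b 1) := by simp [restr_apply]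
          have h2 : restr blk b x (at' b 2) = x (at' b 2) := by simp [restr_apply]
          have h3 : restr blk b x (at' b 3) = x (at' b 3) := by simp [restr_apply]
          rw [h0, h1, h2, h3] at h4
          simp only [al, be]
          push_cast
          exact h4
        by_cases hz : ∀ b, al x b = 0
        · left
          intro b
          refine ⟨hz b, ?_⟩
          have := hx b
          rw [hz b] at this
          simpa using this
        · right
          push Not at hz
          exact ⟨hz, fun g _ => cond_of_slopes π hρ hx (wf_map _ (hG g)) (hr g)⟩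
  · simp [hθ]

end Pool.Agent.MP2a1ef3
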