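import Pool.Agent.Lib.MP_2a1ef3_lc.Defs

/-!
Compilation of integer polynomials into gates (piece COMPILE for MP_2a1ef3_lc).
-/

set_option autoImplicit false

namespace Pool.Agent.MP2a1ef3

namespace Gate

theorem WF.mono {K : Type} {v w : ℕ} (hvw : v ≤ w) {g : Gate K} (h : g.WF v) : g.WF w := by
  cases g <;> simp only [WF] at h ⊢ <;> omega

/-- Satisfaction only depends on the values below the bound. -/
theorem sat_congr {K : Type} (f : K → ℕ) {v : ℕ} {g : Gate K} (h : g.WF v) {r r' : ℕ → ℚ}
    (hr : ∀ t < v, r' t = r t) : Sat r' (g.map f) ↔ Sat r (g.map f) := by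
  cases g with
  | one i =>
      simp only [WF] at h
      simp only [Gate.map, Sat, hr i h]
  | lin c i l =>
      simp only [WF] at h
      simp only [Gate.map, Sat, hr i (by omega), hr l (by omega)]
  | add i j l =>
      simp only [WF] at h
      simp only [Gate.map, Sat, hr i (by omega), hr j (by omega), hr l (by omega)]
  | mul i j l =>
      simp only [WF] at h
      simp only [Gate.map, Sat, hr i (by omega), hr j (by omega), hr l (by omega)]

end Gate

/-- The value of a polynomial at the parameters `a` and the variables `r 1, ..., r m`. -/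
noncomputable def pval {k m : ℕ} (a : Fin k → ℕ) (r : ℕ → ℚ)
    (p : MvPolynomial (Fin k ⊕ Fin m) ℤ) : ℚ :=
  MvPolynomial.aeval (Sum.elim (fun i => (a i : ℚ)) (fun i : Fin m => r (i.val + 1))) p

theorem pval_congr {k m : ℕ} (a : Fin k → ℕ) {r r' : ℕ → ℚ}
    (p : MvPolynomial (Fin k ⊕ Fin m) ℤ) {s : ℕ} (hs : m + 1 ≤ s)
    (h : ∀ t < s, r' t = r t) : pval a r' p = pval a r p := by
  unfold pval
  have : (fun i : Fin m => r' (i.val + 1)) = (fun i : Fin m => r (i.val + 1)) := by
    funext i
    exact h _ (by omega)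
  rw [this]

/-- A polynomial can be compiled at every position. -/
def Comp {k m : ℕ} (p : MvPolynomial (Fin k ⊕ Fin m) ℤ) : Prop :=
  ∀ s, m + 1 ≤ s → ∃ (s' : ℕ) (gs : List (Gate (ℕ ⊕ Fin k))) (U : ℕ),
    s ≤ U ∧ U < s' ∧ (∀ g ∈ gs, g.WF s') ∧
    (∀ (a : Fin k → ℕ) (r : ℕ → ℚ), r 0 = 1 →
      (∀ g ∈ gs, Gate.Sat r (g.map (Sum.elim id a))) → r U = pval a r p) ∧
    (∀ (a : Fin k → ℕ) (r : ℕ → ℚ), r 0 = 1 → ∃ r' : ℕ → ℚ, (∀ t < s, r' t = r t) ∧
      (∀ g ∈ gs, Gate.Sat r' (g.map (Sum.elim id a))))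

theorem comp_lin {k m : ℕ} (p : MvPolynomial (Fin k ⊕ Fin m) ℤ) (c : ℕ ⊕ Fin k) (i : ℕ)
    (hi : i < m + 1)
    (hp : ∀ (a : Fin k → ℕ) (r : ℕ → ℚ), r 0 = 1 →
      pval a r p = ((Sum.elim id a c : ℕ) : ℚ) * r i) : Comp p := by
  intro s hs
  refine ⟨s + 1, [Gate.lin c i s], s, le_refl _, by omega, ?_, ?_, ?_⟩
  · intro g hg
    simp only [List.mem_singleton] at hg
    subst hg
    simp only [Gate.WF]
    omega
  · intro a r h0 h
    have := h _ (List.mem_singleton.2 rfl)
    simp only [Gate.map, Gate.Sat] at this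
    rw [this, hp a r h0]
  · intro a r h0
    refine ⟨Function.update r s (((Sum.elim id a c : ℕ) : ℚ) * r i), ?_, ?_⟩
    · intro t ht
      rw [Function.update_of_ne (by omega)]
    · intro g hg
      simp only [List.mem_singleton] at hg
      subst hg
      simp only [Gate.map, Gate.Sat]
      rw [Function.update_self, Function.update_of_ne (by omega)]

theorem comp_C {k m : ℕ} (c : ℤ) :
    Comp (MvPolynomial.C c : MvPolynomial (Fin k ⊕ Fin m) ℤ) := by
  rcases le_or_gt 0 c with hc | hc
  · obtain ⟨n, rfl⟩ := Int.eq_ofNat_of_zero_le hc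
    refine comp_lin _ (Sum.inl n) 0 (by omega) ?_
    intro a r h0
    simp [pval, h0]
  · obtain ⟨n, hn⟩ := Int.eq_ofNat_of_zero_le (a := -c) (by omega)
    have hc' : c = -(n : ℤ) := by omega
    subst hc'
    intro s hs
    refine ⟨s + 3, [Gate.lin (Sum.inl n) 0 (s + 1), Gate.lin (Sum.inl 0) 0 (s + 2),
      Gate.add s (s + 1) (s + 2)], s, le_refl _, by omega, ?_, ?_, ?_⟩
    · intro g hg
      simp only [List.mem_cons, List.not_mem_nil, or_false] at hg
      rcases hg with rfl | rfl | rfl <;> simp only [Gate.WF] <;> omega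
    · intro a r h0 h
      have h1 := h (Gate.lin (Sum.inl n) 0 (s + 1)) (by simp)
      have h2 := h (Gate.lin (Sum.inl 0) 0 (s + 2)) (by simp)
      have h3 := h (Gate.add s (s + 1) (s + 2)) (by simp)
      simp only [Gate.map, Gate.Sat, Sum.elim_inl, id] at h1 h2 h3
      rw [h1, h2, h0] at h3
      have : pval a r (MvPolynomial.C (-(n : ℤ)) : MvPolynomial (Fin k ⊕ Fin m) ℤ) = -(n : ℚ) := by
        simp [pval]
      rw [this]
      push_cast at h3
      linarith
    · intro a r h0
      refine ⟨fun t => if t < s then r t else if t = s then -(n : ℚ) else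
        if t = s + 1 then (n : ℚ) else 0, ?_, ?_⟩
      · intro t ht
        simp [ht]
      · intro g hg
        have hs0 : 0 < s := by omega
        simp only [List.mem_cons, List.not_mem_nil, or_false] at hg
        rcases hg with rfl | rfl | rfl <;> simp [Gate.map, Gate.Sat, hs0, h0]

theorem comp_X {k m : ℕ} (i : Fin k ⊕ Fin m) :
    Comp (MvPolynomial.X i : MvPolynomial (Fin k ⊕ Fin m) ℤ) := by
  rcases i with t | i
  · refine comp_lin _ (Sum.inr t) 0 (by omega) ?_
    intro a r h0
    simp [pval, h0]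
  · refine comp_lin _ (Sum.inl 1) (i.val + 1) (by omega) ?_
    intro a r h0
    simp [pval]

/-- Two compiled polynomials are combined by one more gate. -/
theorem comp_bin {k m : ℕ} {p q w : MvPolynomial (Fin k ⊕ Fin m) ℤ} (hp : Comp p) (hq : Comp q)
    (G : ℕ → ℕ → ℕ → Gate (ℕ ⊕ Fin k)) (f : ℚ → ℚ → ℚ)
    (hWF : ∀ i j l, i < j → j < l → (G i j l).WF (l + 1))
    (hG : ∀ (a : Fin k → ℕ) (r : ℕ → ℚ) (i j l : ℕ),
      Gate.Sat r ((G i j l).map (Sum.elim id a)) ↔ f (r i) (r j) = r l)
    (hw : ∀ (a : Fin k → ℕ) (r : ℕ → ℚ), pval a r w = f (pval a r p) (pval a r q)) : Comp w := by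
  intro s hs
  obtain ⟨s1, gs1, U1, hU1, hU1', hwf1, hsd1, hcp1⟩ := hp s hs
  obtain ⟨s2, gs2, U2, hU2, hU2', hwf2, hsd2, hcp2⟩ := hq s1 (by omega)
  refine ⟨s2 + 1, gs1 ++ (gs2 ++ [G U1 U2 s2]), s2, by omega, by omega, ?_, ?_, ?_⟩
  · intro g hg
    simp only [List.mem_append, List.mem_singleton] at hg
    rcases hg with hg | hg | rfl
    · exact (hwf1 g hg).mono (by omega)
    · exact (hwf2 g hg).mono (by omega)
    · exact hWF _ _ _ (by omega) (by omega)
  · intro a r h0 h
    have h1 := hsd1 a r h0 (fun g hg => h g (by simp [hg]))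
    have h2 := hsd2 a r h0 (fun g hg => h g (by simp [hg]))
    have h3 := (hG a r U1 U2 s2).1 (h _ (by simp))
    rw [hw, ← h1, ← h2, h3]
  · intro a r h0
    obtain ⟨r1, hr1, hg1⟩ := hcp1 a r h0
    obtain ⟨r2, hr2, hg2⟩ := hcp2 a r1 (by rw [hr1 0 (by omega), h0])
    refine ⟨Function.update r2 s2 (f (r2 U1) (r2 U2)), ?_, ?_⟩
    · intro t ht
      rw [Function.update_of_ne (by omega), hr2 t (by omega), hr1 t ht]
    · intro g hg
      simp only [List.mem_append, List.mem_singleton] at hg
      rcases hg with hg | hg | rfl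
      · rw [Gate.sat_congr _ (hwf1 g hg) (r := r1) (r' := Function.update r2 s2 (f (r2 U1) (r2 U2)))
          (fun t ht => by rw [Function.update_of_ne (by omega), hr2 t ht])]
        exact hg1 g hg
      · rw [Gate.sat_congr _ (hwf2 g hg) (r := r2) (r' := Function.update r2 s2 (f (r2 U1) (r2 U2)))
          (fun t ht => by rw [Function.update_of_ne (by omega)])]
        exact hg2 g hg
      · rw [hG, Function.update_self, Function.update_of_ne (by omega),
          Function.update_of_ne (by omega)]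

theorem comp_all {k m : ℕ} (p : MvPolynomial (Fin k ⊕ Fin m) ℤ) : Comp p := by
  induction p using MvPolynomial.induction_on with
  | C c => exact comp_C c
  | add p q hp hq =>
      refine comp_bin hp hq (fun i j l => Gate.add i j l) (fun x y => x + y) ?_ ?_ ?_
      · intro i j l h1 h2
        simp only [Gate.WF]
        omega
      · intro a r i j l
        simp only [Gate.map, Gate.Sat]
      · intro a r
        simp [pval]
  | mul_X p i hp =>
      refine comp_bin hp (comp_X i) (fun i j l => Gate.mul i j l) (fun x y => x * y) ?_ ?_ ?_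
      · intro i j l h1 h2
        simp only [Gate.WF]
        omega
      · intro a r i j l
        simp only [Gate.map, Gate.Sat]
      · intro a r
        simp [pval]

/-- Every Diophantine set over the rational numbers is given by a list of gates. -/
theorem compile (k m : ℕ) (P : MvPolynomial (Fin k ⊕ Fin m) ℤ) :
    ∃ (v : ℕ) (G : List (Gate (ℕ ⊕ Fin k))), 1 ≤ v ∧ (∀ g ∈ G, g.WF v) ∧
      ∀ a : Fin k → ℕ,
        ((∃ y : Fin m → ℚ, MvPolynomial.aeval (Sum.elim (fun i => (a i : ℚ)) y) P = 0) ↔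
          ∃ r : ℕ → ℚ, ∀ g ∈ G, Gate.Sat r (g.map (Sum.elim id a))) := by
  obtain ⟨s', gs, U, hU, hU', hwf, hsd, hcp⟩ := comp_all P (m + 1) (le_refl _)
  refine ⟨s', Gate.one 0 :: Gate.lin (Sum.inl 0) 0 U :: gs, by omega, ?_, ?_⟩
  · intro g hg
    simp only [List.mem_cons] at hg
    rcases hg with rfl | rfl | hg
    · simp only [Gate.WF]; omega
    · simp only [Gate.WF]; omega
    · exact hwf g hg
  · intro a
    constructor
    · rintro ⟨y, hy⟩
      obtain ⟨r', hr', hg⟩ := hcp a (fun t => if h : t - 1 < m ∧ t ≠ 0 then y ⟨t - 1, h.1⟩ else 1)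
        (by simp)
      have h0 : r' 0 = 1 := by
        rw [hr' 0 (by omega)]
        simp
      have hy' : (fun i : Fin m => r' (i.val + 1)) = y := by
        funext i
        rw [hr' _ (by omega)]
        simp
      have hval := hsd a r' h0 hg
      refine ⟨r', ?_⟩
      intro g hg'
      simp only [List.mem_cons] at hg'
      rcases hg' with rfl | rfl | hg'
      · simpa [Gate.map, Gate.Sat] using h0
      · simp only [Gate.map, Gate.Sat, Sum.elim_inl, id]
        rw [hval, pval, hy', hy]
        simp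
      · exact hg g hg'
    · rintro ⟨r, hr⟩
      have h0 := hr (Gate.one 0) (by simp)
      have h1 := hr (Gate.lin (Sum.inl 0) 0 U) (by simp)
      simp only [Gate.map, Gate.Sat, Sum.elim_inl, id] at h0 h1
      have hval := hsd a r h0 (fun g hg => hr g (by simp [hg]))
      refine ⟨fun i => r (i.val + 1), ?_⟩
      have h2 : pval a r P = 0 := by
        rw [← hval, h1]
        simp
      exact h2

end Pool.Agent.MP2a1ef3
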