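import Pool.Agent.Lib.MP_2a1ef3_lc.Pieces3

/-!
Covering the balanced vectors of one block by stratified linear sets of a given slope.
-/

set_option autoImplicit false
set_option linter.unusedSimpArgs false

namespace Pool.Agent.MP2a1ef3

variable {ι κ : Type} {k : ℕ} [LinearOrder ι] {part : ι → κ} {a : κ} {s t v w : ι}

/-- Two unit vectors. -/
def base2 (ρ : ℕ) (u u' : ι) : ι → ℕ := fun i => ρ * (un u i + un u' i)

lemma base2_supp {ρ : ℕ} {u u' i : ι} (h : base2 ρ u u' i ≠ 0) : i = u ∨ i = u' := by
  by_contra h0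
  push Not at h0
  exact h (by simp [base2, un, h0.1, h0.2])

/-- A linear set given by chords. -/
def LC (θ : Fin k → ℕ) (c : ι → ℕ) (L : List (Ch ι k)) : Set (ι → ℕ) :=
  LS c (pers θ (L.map Ch.per))

lemma loc_LC (c : ι → ℕ) (L : List (Ch ι k)) (hc : ∀ i, c i ≠ 0 → part i = a)
    (hL : ∀ h ∈ L, part h.i = a ∧ part h.j = a) (hle : ∀ h ∈ L, h.i ≤ h.j)
    (hnc : ∀ h ∈ L, ∀ h' ∈ L, ¬ (h.i < h'.i ∧ h'.i < h.j ∧ h.j < h'.j)) :
    Loc part a Stratified (fun θ : Fin k → ℕ => LC θ c L) :=
  Loc.single c L hc hL hle hnc (fun _ _ _ => Iff.rfl)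

theorem loc_cover (h0 : s < t) (h1 : t < v) (h2 : v < w)
    (hp : ∀ i, part i = a ↔ i = s ∨ i = t ∨ i = v ∨ i = w) (r : ℚ) :
    ∃ X : (Fin k → ℕ) → Set (ι → ℕ), Loc part a Stratified X ∧
      (∀ θ, ∀ x ∈ X θ, ((x t : ℚ) - x w) = r * ((x s : ℚ) - x v)) ∧
      (∀ θ x, (∀ i, x i ≠ 0 → part i = a) → x s = x v → x t = x w → x ∈ X θ) := by
  have e01 := h0.ne
  have e12 := h1.ne
  have e23 := h2.ne
  have e02 := (h0.trans h1).ne
  have e13 := (h1.trans h2).ne
  have e03 := ((h0.trans h1).trans h2).ne
  rcases lt_trichotomy r 0 with hr | hr | hr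
  · -- negative slope
    obtain ⟨A, B, hA, hB, hrAB⟩ : ∃ A B : ℕ, 0 < A ∧ 0 < B ∧ r = -(A / B : ℚ) := by
      refine ⟨r.num.natAbs, r.den, ?_, r.den_pos, ?_⟩
      · exact Int.natAbs_pos.2 (Rat.num_ne_zero.2 hr.ne)
      · have h4 : ((r.num.natAbs : ℕ) : ℚ) = -(r.num : ℚ) := by
          rw [Nat.cast_natAbs, abs_of_neg (Rat.num_neg.2 hr)]
          push_cast; ring
        rw [h4, neg_div, neg_neg, Rat.num_div_den]
    let L1 : List (Ch ι k) := [⟨s, w, Sum.inl B, Sum.inl A⟩, ⟨t, v, Sum.inl A, Sum.inl B⟩, ch1 t w]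
    let L2 : List (Ch ι k) := [⟨s, w, Sum.inl B, Sum.inl A⟩, ⟨t, v, Sum.inl A, Sum.inl B⟩, ch1 s v]
    refine ⟨fun θ => (⋃ ρ : Fin B, LC θ (base2 ρ s v) L1) ∪ (⋃ σ : Fin A, LC θ (base2 σ t w) L2),
      ?_, ?_, ?_⟩
    · refine Loc.union (Loc.iUnion fun ρ => loc_LC _ _ ?_ ?_ ?_ ?_)
        (Loc.iUnion fun ρ => loc_LC _ _ ?_ ?_ ?_ ?_)
      · intro i hi
        rcases base2_supp hi with rfl | rfl <;> simp [hp]
      · simp [L1, hp]
      · simp [L1, ((h0.trans h1).trans h2).le, h1.le, (h1.trans h2).le]
      · simp [L1, h0.not_gt, h1.not_gt, h2.not_gt, (h0.trans h1).not_gt, (h1.trans h2).not_gt,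
          ((h0.trans h1).trans h2).not_gt, h0.le, h1.le, h2.le]
      · intro i hi
        rcases base2_supp hi with rfl | rfl <;> simp [hp]
      · simp [L2, hp]
      · simp [L2, ((h0.trans h1).trans h2).le, h1.le, (h0.trans h1).le]
      · simp [L2, h0.not_gt, h1.not_gt, h2.not_gt, (h0.trans h1).not_gt, (h1.trans h2).not_gt,
          ((h0.trans h1).trans h2).not_gt, h0.le, h1.le, h2.le]
    · rintro θ x (hx | hx)
      · obtain ⟨ρ, hx⟩ := Set.mem_iUnion.1 hx
        simp only [LC, L1, mem_LS_cons, mem_LS_nil] at hx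
        obtain ⟨n0, n1, n2, rfl⟩ := hx
        simp [Ch.vec, base2, un, e01, e01.symm, e02, e02.symm, e03, e03.symm, e12, e12.symm, e13,
          e13.symm, e23, e23.symm]
        rw [hrAB]
        have hB' : (B : ℚ) ≠ 0 := by exact_mod_cast hB.ne'
        field_simp
        ring
      · obtain ⟨ρ, hx⟩ := Set.mem_iUnion.1 hx
        simp only [LC, L2, mem_LS_cons, mem_LS_nil] at hx
        obtain ⟨n0, n1, n2, rfl⟩ := hx
        simp [Ch.vec, base2, un, e01, e01.symm, e02, e02.symm, e03, e03.symm, e12, e12.symm, e13,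
          e13.symm, e23, e23.symm]
        rw [hrAB]
        have hB' : (B : ℚ) ≠ 0 := by exact_mod_cast hB.ne'
        field_simp
        ring
    · intro θ x hx hsv htw
      have hN := Nat.mod_add_div (x s) B
      have hH := Nat.mod_add_div (x t) A
      by_cases hc : A * (x s / B) ≤ x t
      · left
        refine Set.mem_iUnion.2 ⟨⟨x s % B, Nat.mod_lt _ hB⟩, ?_⟩
        simp only [LC, L1, mem_LS_cons, mem_LS_nil]
        refine ⟨x s / B, x s / B, x t - A * (x s / B), ?_⟩
        funext i
        by_cases hi : part i = a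
        · rcases (hp i).1 hi with rfl | rfl | rfl | rfl
          · simp [Ch.vec, base2, un, e01, e01.symm, e02, e02.symm, e03, e03.symm, e12, e12.symm,
              e13, e13.symm, e23, e23.symm]
            rw [Nat.mul_comm]; omega
          · simp [Ch.vec, base2, un, e01, e01.symm, e02, e02.symm, e03, e03.symm, e12, e12.symm,
              e13, e13.symm, e23, e23.symm]
            rw [Nat.mul_comm (_ / _) A]; omega
          · simp [Ch.vec, base2, un, e01, e01.symm, e02, e02.symm, e03, e03.symm, e12, e12.symm,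
              e13, e13.symm, e23, e23.symm]
            rw [Nat.mul_comm (_ / _) B]; omega
          · simp [Ch.vec, base2, un, e01, e01.symm, e02, e02.symm, e03, e03.symm, e12, e12.symm,
              e13, e13.symm, e23, e23.symm]
            rw [Nat.mul_comm (_ / _) A]; omega
        · have e : x i = 0 := by
            by_contra h0
            exact hi (hx i h0)
          rw [hp] at hi
          push Not at hi
          simp [Ch.vec, base2, un, e, hi.1, hi.2.1, hi.2.2.1, hi.2.2.2]
      · right
        refine Set.mem_iUnion.2 ⟨⟨x t % A, Nat.mod_lt _ hA⟩, ?_⟩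
        simp only [LC, L2, mem_LS_cons, mem_LS_nil]
        have h5 : x t / A ≤ x s / B := by
          rw [not_le] at hc
          exact (Nat.div_lt_of_lt_mul hc).le
        have h6 := Nat.mul_le_mul_left B h5
        refine ⟨x t / A, x t / A, x s - B * (x t / A), ?_⟩
        funext i
        by_cases hi : part i = a
        · rcases (hp i).1 hi with rfl | rfl | rfl | rfl
          · simp [Ch.vec, base2, un, e01, e01.symm, e02, e02.symm, e03, e03.symm, e12, e12.symm,
              e13, e13.symm, e23, e23.symm]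
            rw [Nat.mul_comm (_ / _) B]; omega
          · simp [Ch.vec, base2, un, e01, e01.symm, e02, e02.symm, e03, e03.symm, e12, e12.symm,
              e13, e13.symm, e23, e23.symm]
            rw [Nat.mul_comm (_ / _) A]; omega
          · simp [Ch.vec, base2, un, e01, e01.symm, e02, e02.symm, e03, e03.symm, e12, e12.symm,
              e13, e13.symm, e23, e23.symm]
            rw [Nat.mul_comm (_ / _) B]; omega
          · simp [Ch.vec, base2, un, e01, e01.symm, e02, e02.symm, e03, e03.symm, e12, e12.symm,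
              e13, e13.symm, e23, e23.symm]
            rw [Nat.mul_comm (_ / _) A]; omega
        · have e : x i = 0 := by
            by_contra h0
            exact hi (hx i h0)
          rw [hp] at hi
          push Not at hi
          simp [Ch.vec, base2, un, e, hi.1, hi.2.1, hi.2.2.1, hi.2.2.2]
  · -- zero slope
    let L : List (Ch ι k) := [ch1 s s, ch1 v v, ch1 t w]
    refine ⟨fun θ => LC θ 0 L, loc_LC _ _ (by simp) ?_ ?_ ?_, ?_, ?_⟩
    · simp [L, hp]
    · simp [L, (h1.trans h2).le]
    · simp [L, h0.not_gt, h1.not_gt, h2.not_gt, (h0.trans h1).not_gt, (h1.trans h2).not_gt,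
          ((h0.trans h1).trans h2).not_gt, h0.le, h1.le, h2.le]
    · intro θ x hx
      simp only [LC, L, mem_LS_cons, mem_LS_nil] at hx
      obtain ⟨n0, n1, n2, rfl⟩ := hx
      simp [Ch.vec, e01, e01.symm, e02, e02.symm, e03, e03.symm, e12, e12.symm, e13,
        e13.symm, e23, e23.symm, hr]
    · intro θ x hx hsv htw
      simp only [LC, L, mem_LS_cons, mem_LS_nil]
      refine ⟨x s, x v, x t, ?_⟩
      funext i
      by_cases hi : part i = a
      · rcases (hp i).1 hi with rfl | rfl | rfl | rfl
        · simp [Ch.vec, e01, e01.symm, e02, e02.symm, e03, e03.symm, e12, e12.symm,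
            e13, e13.symm, e23, e23.symm]
        · simp [Ch.vec, e01, e01.symm, e02, e02.symm, e03, e03.symm, e12, e12.symm,
            e13, e13.symm, e23, e23.symm]
        · simp [Ch.vec, e01, e01.symm, e02, e02.symm, e03, e03.symm, e12, e12.symm,
            e13, e13.symm, e23, e23.symm]
        · simp [Ch.vec, e01, e01.symm, e02, e02.symm, e03, e03.symm, e12, e12.symm,
            e13, e13.symm, e23, e23.symm, htw]
      · have e : x i = 0 := by
          by_contra h0
          exact hi (hx i h0)
        rw [hp] at hi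
        push Not at hi
        simp [Ch.vec, e, hi.1, hi.2.1, hi.2.2.1, hi.2.2.2]
  · -- positive slope
    obtain ⟨A, B, hA, hB, hrAB⟩ : ∃ A B : ℕ, 0 < A ∧ 0 < B ∧ r = (A / B : ℚ) := by
      refine ⟨r.num.natAbs, r.den, ?_, r.den_pos, ?_⟩
      · exact Int.natAbs_pos.2 (Rat.num_ne_zero.2 hr.ne')
      · have h4 : ((r.num.natAbs : ℕ) : ℚ) = (r.num : ℚ) := by
          rw [Nat.cast_natAbs, abs_of_pos (Rat.num_pos.2 hr)]
        rw [h4, Rat.num_div_den]
    let L1 : List (Ch ι k) := [⟨s, t, Sum.inl B, Sum.inl A⟩, ⟨v, w, Sum.inl B, Sum.inl A⟩, ch1 t w]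
    let L2 : List (Ch ι k) := [⟨s, t, Sum.inl B, Sum.inl A⟩, ⟨v, w, Sum.inl B, Sum.inl A⟩, ch1 s v]
    refine ⟨fun θ => (⋃ ρ : Fin B, LC θ (base2 ρ s v) L1) ∪ (⋃ σ : Fin A, LC θ (base2 σ t w) L2),
      ?_, ?_, ?_⟩
    · refine Loc.union (Loc.iUnion fun ρ => loc_LC _ _ ?_ ?_ ?_ ?_)
        (Loc.iUnion fun ρ => loc_LC _ _ ?_ ?_ ?_ ?_)
      · intro i hi
        rcases base2_supp hi with rfl | rfl <;> simp [hp]
      · simp [L1, hp]
      · simp [L1, h0.le, h2.le, (h1.trans h2).le]
      · simp [L1, h0.not_gt, h1.not_gt, h2.not_gt, (h0.trans h1).not_gt, (h1.trans h2).not_gt,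
          ((h0.trans h1).trans h2).not_gt, h0.le, h1.le, h2.le]
      · intro i hi
        rcases base2_supp hi with rfl | rfl <;> simp [hp]
      · simp [L2, hp]
      · simp [L2, h0.le, h2.le, (h0.trans h1).le]
      · simp [L2, h0.not_gt, h1.not_gt, h2.not_gt, (h0.trans h1).not_gt, (h1.trans h2).not_gt,
          ((h0.trans h1).trans h2).not_gt, h0.le, h1.le, h2.le]
    · rintro θ x (hx | hx)
      · obtain ⟨ρ, hx⟩ := Set.mem_iUnion.1 hx
        simp only [LC, L1, mem_LS_cons, mem_LS_nil] at hx
        obtain ⟨n0, n1, n2, rfl⟩ := hx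
        simp [Ch.vec, base2, un, e01, e01.symm, e02, e02.symm, e03, e03.symm, e12, e12.symm, e13,
          e13.symm, e23, e23.symm]
        rw [hrAB]
        have hB' : (B : ℚ) ≠ 0 := by exact_mod_cast hB.ne'
        field_simp
      · obtain ⟨ρ, hx⟩ := Set.mem_iUnion.1 hx
        simp only [LC, L2, mem_LS_cons, mem_LS_nil] at hx
        obtain ⟨n0, n1, n2, rfl⟩ := hx
        simp [Ch.vec, base2, un, e01, e01.symm, e02, e02.symm, e03, e03.symm, e12, e12.symm, e13,
          e13.symm, e23, e23.symm]
        rw [hrAB]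
        have hB' : (B : ℚ) ≠ 0 := by exact_mod_cast hB.ne'
        field_simp
    · intro θ x hx hsv htw
      have hN := Nat.mod_add_div (x s) B
      have hH := Nat.mod_add_div (x t) A
      by_cases hc : A * (x s / B) ≤ x t
      · left
        refine Set.mem_iUnion.2 ⟨⟨x s % B, Nat.mod_lt _ hB⟩, ?_⟩
        simp only [LC, L1, mem_LS_cons, mem_LS_nil]
        refine ⟨x s / B, x s / B, x t - A * (x s / B), ?_⟩
        funext i
        by_cases hi : part i = a
        · rcases (hp i).1 hi with rfl | rfl | rfl | rfl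
          · simp [Ch.vec, base2, un, e01, e01.symm, e02, e02.symm, e03, e03.symm, e12, e12.symm,
              e13, e13.symm, e23, e23.symm]
            rw [Nat.mul_comm (_ / _) B]; omega
          · simp [Ch.vec, base2, un, e01, e01.symm, e02, e02.symm, e03, e03.symm, e12, e12.symm,
              e13, e13.symm, e23, e23.symm]
            rw [Nat.mul_comm (_ / _) A]; omega
          · simp [Ch.vec, base2, un, e01, e01.symm, e02, e02.symm, e03, e03.symm, e12, e12.symm,
              e13, e13.symm, e23, e23.symm]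
            rw [Nat.mul_comm (_ / _) B]; omega
          · simp [Ch.vec, base2, un, e01, e01.symm, e02, e02.symm, e03, e03.symm, e12, e12.symm,
              e13, e13.symm, e23, e23.symm]
            rw [Nat.mul_comm (_ / _) A]; omega
        · have e : x i = 0 := by
            by_contra h0
            exact hi (hx i h0)
          rw [hp] at hi
          push Not at hi
          simp [Ch.vec, base2, un, e, hi.1, hi.2.1, hi.2.2.1, hi.2.2.2]
      · right
        refine Set.mem_iUnion.2 ⟨⟨x t % A, Nat.mod_lt _ hA⟩, ?_⟩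
        simp only [LC, L2, mem_LS_cons, mem_LS_nil]
        have h5 : x t / A ≤ x s / B := by
          rw [not_le] at hc
          exact (Nat.div_lt_of_lt_mul hc).le
        have h6 := Nat.mul_le_mul_left B h5
        refine ⟨x t / A, x t / A, x s - B * (x t / A), ?_⟩
        funext i
        by_cases hi : part i = a
        · rcases (hp i).1 hi with rfl | rfl | rfl | rfl
          · simp [Ch.vec, base2, un, e01, e01.symm, e02, e02.symm, e03, e03.symm, e12, e12.symm,
              e13, e13.symm, e23, e23.symm]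
            rw [Nat.mul_comm (_ / _) B]; omega
          · simp [Ch.vec, base2, un, e01, e01.symm, e02, e02.symm, e03, e03.symm, e12, e12.symm,
              e13, e13.symm, e23, e23.symm]
            rw [Nat.mul_comm (_ / _) A]; omega
          · simp [Ch.vec, base2, un, e01, e01.symm, e02, e02.symm, e03, e03.symm, e12, e12.symm,
              e13, e13.symm, e23, e23.symm]
            rw [Nat.mul_comm (_ / _) B]; omega
          · simp [Ch.vec, base2, un, e01, e01.symm, e02, e02.symm, e03, e03.symm, e12, e12.symm,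
              e13, e13.symm, e23, e23.symm]
            rw [Nat.mul_comm (_ / _) A]; omega
        · have e : x i = 0 := by
            by_contra h0
            exact hi (hx i h0)
          rw [hp] at hi
          push Not at hi
          simp [Ch.vec, base2, un, e, hi.1, hi.2.1, hi.2.2.1, hi.2.2.2]

end Pool.Agent.MP2a1ef3
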