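import Mathlib

/-!
Bounded languages, stratified linear sets and gates (definitions for MP_2a1ef3_lc).
-/

set_option autoImplicit false

namespace Pool.Agent.MP2a1ef3

/-- The word `a₁^k₁ ... aₙ^kₙ`. -/
def wordOf {n : ℕ} (k : Fin n → ℕ) : List (Fin n) :=
  (List.ofFn (fun i : Fin n => List.replicate (k i) i)).flatten

/-- The bounded language of a set of exponent vectors. -/
def langOf {n : ℕ} (X : Set (Fin n → ℕ)) : Language (Fin n) :=
  {w | ∃ k ∈ X, w = wordOf k}

/-- The linear set with base `c` and periods `P`. -/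
def LS {ι : Type} (c : ι → ℕ) (P : Set (ι → ℕ)) : Set (ι → ℕ) :=
  {x | ∃ y ∈ AddSubmonoid.closure P, x = c + y}

/-- Every period has at most two nonzero coordinates and no two periods interleave. -/
structure Stratified {ι : Type} [LinearOrder ι] (P : Set (ι → ℕ)) : Prop where
  two : ∀ p ∈ P, ∀ i j k : ι, i < j → j < k → p i ≠ 0 → p j ≠ 0 → p k ≠ 0 → False
  noncross : ∀ p ∈ P, ∀ q ∈ P, ∀ i j k l : ι, i < j → j < k → k < l →
    p i ≠ 0 → p k ≠ 0 → q j ≠ 0 → q l ≠ 0 → False

/-- Finite unions of stratified linear sets. -/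
def StratUnion {ι : Type} [LinearOrder ι] (X : Set (ι → ℕ)) : Prop :=
  ∃ F : Set ((ι → ℕ) × Set (ι → ℕ)), F.Finite ∧ (∀ p ∈ F, p.2.Finite ∧ Stratified p.2) ∧
    ∀ x, x ∈ X ↔ ∃ p ∈ F, x ∈ LS p.1 p.2

/-- Gates over variables indexed by natural numbers, coefficients in `K`. -/
inductive Gate (K : Type) : Type
  | one (i : ℕ) : Gate K
  | lin (c : K) (i l : ℕ) : Gate K
  | add (i j l : ℕ) : Gate K
  | mul (i j l : ℕ) : Gate K

namespace Gate

/-- Change of coefficients. -/
def map {K K' : Type} (f : K → K') : Gate K → Gate K'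
  | one i => one i
  | lin c i l => lin (f c) i l
  | add i j l => add i j l
  | mul i j l => mul i j l

/-- All indices are below `v` and increasing. -/
def WF {K : Type} (v : ℕ) : Gate K → Prop
  | one i => i < v
  | lin _ i l => i < l ∧ l < v
  | add i j l => i < j ∧ j < l ∧ l < v
  | mul i j l => i < j ∧ j < l ∧ l < v

/-- The equation expressed by a gate over the rational numbers. -/
def Sat (r : ℕ → ℚ) : Gate ℕ → Prop
  | one i => r i = 1
  | lin c i l => r l = (c : ℚ) * r i
  | add i j l => r i + r j = r l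
  | mul i j l => r i * r j = r l

end Gate

end Pool.Agent.MP2a1ef3
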