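import Pool.Agent.Lib.MP_2a1ef3_lc.Back

/-!
A stratified description gives a solution of the gates.
-/

set_option autoImplicit false
set_option linter.unusedSimpArgs false

namespace Pool.Agent.MP2a1ef3

lemma mem_closure_finset' {ι : Type} (P : Finset (ι → ℕ)) {y : ι → ℕ}
    (hy : y ∈ AddSubmonoid.closure (P : Set (ι → ℕ))) :
    ∃ t : (ι → ℕ) → ℕ, y = ∑ p ∈ P, t p • p := by
  classical
  induction hy using AddSubmonoid.closure_induction with
  | mem p hp =>
    refine ⟨fun q => if q = p then 1 else 0, ?_⟩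
    rw [Finset.sum_eq_single p]
    · simp
    · intro q _ hq
      simp [hq]
    · intro h
      exact absurd hp h
  | zero => exact ⟨fun _ => 0, by simp⟩
  | add y z _ _ h1 h2 =>
    obtain ⟨t, rfl⟩ := h1
    obtain ⟨t', rfl⟩ := h2
    exact ⟨fun p => t p + t' p, by rw [← Finset.sum_add_distrib]; simp only [add_smul]⟩

variable {Bl : Type} [LinearOrder Bl]

lemma al_add (x y : Pos Bl → ℕ) (b : Bl) : al (x + y) b = al x b + al y b := by
  simp only [al, Pi.add_apply]; push_cast; ring

lemma be_add (x y : Pos Bl → ℕ) (b : Bl) : be (x + y) b = be x b + be y b := by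
  simp only [be, Pi.add_apply]; push_cast; ring

lemma al_sum (P : Finset (Pos Bl → ℕ)) (t : (Pos Bl → ℕ) → ℕ) (b : Bl) :
    al (∑ p ∈ P, t p • p) b = ∑ p ∈ P, (t p : ℤ) * al p b := by
  simp only [al, Finset.sum_apply, Pi.smul_apply, smul_eq_mul]
  push_cast
  rw [← Finset.sum_sub_distrib]
  exact Finset.sum_congr rfl fun p _ => by ring

lemma be_sum (P : Finset (Pos Bl → ℕ)) (t : (Pos Bl → ℕ) → ℕ) (b : Bl) :
    be (∑ p ∈ P, t p • p) b = ∑ p ∈ P, (t p : ℤ) * be p b := by
  simp only [be, Finset.sum_apply, Pi.smul_apply, smul_eq_mul]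
  push_cast
  rw [← Finset.sum_sub_distrib]
  exact Finset.sum_congr rfl fun p _ => by ring

/-- A common bound. -/
lemma exists_bound {ι : Type} [Finite ι] {F : Set ((ι → ℕ) × Set (ι → ℕ))} (hF : F.Finite)
    (hP : ∀ q ∈ F, q.2.Finite) :
    ∃ K : ℕ, 1 ≤ K ∧ ∀ q ∈ F, (∀ i, q.1 i ≤ K) ∧ (∀ p ∈ q.2, ∀ i, p i ≤ K) ∧
      q.2.ncard ≤ K := by
  have h1 : ∀ q : (ι → ℕ) × Set (ι → ℕ), ∃ K : ℕ, q ∈ F → (∀ i, q.1 i ≤ K) ∧
      (∀ p ∈ q.2, ∀ i, p i ≤ K) ∧ q.2.ncard ≤ K := by
    intro q
    by_cases hq : q ∈ F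
    · obtain ⟨K1, hK1⟩ := (Set.finite_range q.1).bddAbove
      have h2 : (⋃ p ∈ q.2, Set.range p).Finite :=
        (hP q hq).biUnion fun p _ => Set.finite_range p
      obtain ⟨K2, hK2⟩ := h2.bddAbove
      refine ⟨max K1 (max K2 q.2.ncard), fun _ => ⟨fun i => ?_, fun p hp i => ?_, ?_⟩⟩
      · exact le_max_of_le_left (hK1 ⟨i, rfl⟩)
      · exact le_max_of_le_right (le_max_of_le_left
          (hK2 (Set.mem_biUnion hp ⟨i, rfl⟩)))
      · exact le_max_of_le_right (le_max_right _ _)
    · exact ⟨0, fun h => absurd h hq⟩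
  choose Kf hKf using h1
  obtain ⟨K, hK⟩ := (hF.image Kf).bddAbove
  refine ⟨K + 1, by omega, fun q hq => ?_⟩
  have h3 : Kf q ≤ K := hK ⟨q, hq, rfl⟩
  obtain ⟨h4, h5, h6⟩ := hKf q hq
  exact ⟨fun i => (h4 i).trans (by omega), fun p hp i => (h5 p hp i).trans (by omega),
    h6.trans (by omega)⟩

variable [Fintype Bl] {s v : ℕ} (π : Place Bl s v) {G : Fin s → Gate ℕ}

/-- The structure of the periods: every block has a period with many repetitions. -/
theorem exists_periods (B : ℕ → ℕ) (h : StratUnion (MM π G)) :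
    ∃ (K : ℕ) (u : Bl → ℕ) (w : Bl → ℤ), 1 ≤ K ∧ (∀ b, 1 ≤ u b ∧ u b ≤ K) ∧
      (∀ b, |w b| ≤ K) ∧ ∀ S : Bl → ℤ, (∀ b, |S b| ≤ B K) →
        ∃ z ∈ MM π G, (∀ b, al z b = S b * u b) ∧ ∀ b, be z b = -(S b * w b) := by
  classical
  obtain ⟨F, hF, hFP, hX⟩ := h
  obtain ⟨K, hK1, hK⟩ := exists_bound hF (fun q hq => (hFP q hq).1)
  set b0 := B K with hb0
  set N := K + K * (b0 * K) + 1 with hN
  set H := K + K * (N * K) + 1 with hH
  let x0 : Pos Bl → ℕ := fun i => if lt4 i = 0 ∨ lt4 i = 2 then N else H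
  have hx00 : ∀ b, x0 (at' b 0) = N := fun b => by simp [x0]
  have hx02 : ∀ b, x0 (at' b 2) = N := fun b => by simp [x0]
  have hx01 : ∀ b, x0 (at' b 1) = H := fun b => by simp [x0]
  have hx03 : ∀ b, x0 (at' b 3) = H := fun b => by simp [x0]
  have hal0 : ∀ b, al x0 b = 0 := fun b => by simp [al, hx00, hx02]
  have hbe0 : ∀ b, be x0 b = 0 := fun b => by simp [be, hx01, hx03]
  have hx0 : x0 ∈ MM π G := Or.inl fun b => ⟨hal0 b, hbe0 b⟩
  obtain ⟨q, hq, y, hy, hxy⟩ := (hX x0).1 hx0
  obtain ⟨hc, hp, hcard⟩ := hK q hq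
  have hPf : (((hFP q hq).1.toFinset : Finset (Pos Bl → ℕ)) : Set (Pos Bl → ℕ)) = q.2 :=
    Set.Finite.coe_toFinset _
  set P : Finset (Pos Bl → ℕ) := (hFP q hq).1.toFinset with hPdef
  have hmemP : ∀ p, p ∈ P ↔ p ∈ q.2 := fun p => by rw [← hPf]; rfl
  have hcardP : P.card ≤ K := by
    rw [← Set.ncard_coe_finset, hPf]; exact hcard
  rw [← hPf] at hy
  obtain ⟨t, rfl⟩ := mem_closure_finset' P hy
  -- adding periods
  have hmem : ∀ t' : (Pos Bl → ℕ) → ℕ, q.1 + ∑ p ∈ P, t' p • p ∈ MM π G := by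
    intro t'
    refine (hX _).2 ⟨q, hq, _, ?_, rfl⟩
    refine sum_mem fun p hp => nsmul_mem (AddSubmonoid.subset_closure ((hmemP p).1 hp)) _
  have hval : ∀ i, x0 i = q.1 i + ∑ p ∈ P, t p * p i := by
    intro i
    have := congrFun hxy i
    rw [Pi.add_apply, Finset.sum_apply] at this
    simpa using this
  -- F0
  have F0 : ∀ p ∈ P, (∃ b, al p b ≠ 0) ∨ ∀ b, be p b = 0 := by
    intro p hp
    have h1 : x0 + p ∈ MM π G := (hX _).2 ⟨q, hq, by
      rw [hxy]
      exact LS_add_period ⟨_, by rw [← hPf]; exact hy, rfl⟩ ((hmemP p).1 hp)⟩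
    rcases h1 with h1 | ⟨⟨b, hb⟩, -⟩
    · right
      intro b
      have := (h1 b).2
      rwa [be_add, hbe0, zero_add] at this
    · left
      refine ⟨b, ?_⟩
      rwa [al_add, hal0, zero_add] at hb
  have hterm : ∀ p ∈ P, ∀ i, t p * p i ≤ x0 i := by
    intro p hp i
    rw [hval i]
    have : t p * p i ≤ ∑ p ∈ P, t p * p i :=
      Finset.single_le_sum (f := fun p => t p * p i) (fun _ _ => Nat.zero_le _) hp
    omega
  -- F2
  have F2 : ∀ b, ∃ p ∈ P, p (at' b 1) ≠ 0 ∧ p (at' b 3) ≠ 0 := by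
    intro b
    by_contra hcon
    push Not at hcon
    have h1 : ∀ p ∈ P, t p * p (at' b 1) ≤ N * K := by
      intro p hp1
      by_cases h0 : p (at' b 1) = 0
      · rw [h0, mul_zero]; exact Nat.zero_le _
      · have h2 := hcon p hp1 h0
        have h3 : be p b ≠ 0 := by
          simp only [be, h2]
          push_cast
          omega
        rcases F0 p hp1 with ⟨b', hb'⟩ | h4
        · have h5 : t p ≤ N := by
            have h6 : p (at' b' 0) ≠ 0 ∨ p (at' b' 2) ≠ 0 := by
              by_contra h7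
              push Not at h7
              exact hb' (by simp [al, h7.1, h7.2])
            rcases h6 with h6 | h6
            · have := hterm p hp1 (at' b' 0)
              rw [hx00] at this
              exact (Nat.le_mul_of_pos_right _ (Nat.pos_of_ne_zero h6)).trans this
            · have := hterm p hp1 (at' b' 2)
              rw [hx02] at this
              exact (Nat.le_mul_of_pos_right _ (Nat.pos_of_ne_zero h6)).trans this
          exact Nat.mul_le_mul h5 (hp p ((hmemP p).1 hp1) _)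
        · exact absurd (h4 b) h3
    have h2 : ∑ p ∈ P, t p * p (at' b 1) ≤ K * (N * K) := by
      refine (Finset.sum_le_card_nsmul P _ _ h1).trans ?_
      rw [smul_eq_mul]
      exact Nat.mul_le_mul_right _ hcardP
    have h3 := hval (at' b 1)
    rw [hx01] at h3
    have h4 := hc (at' b 1)
    omega
  -- F3
  have F3 : ∀ b, ∃ p ∈ P, b0 ≤ t p ∧ p (at' b 2) ≠ 0 := by
    intro b
    by_contra hcon
    push Not at hcon
    have h1 : ∀ p ∈ P, t p * p (at' b 2) ≤ b0 * K := by
      intro p hp1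
      by_cases h0 : b0 ≤ t p
      · rw [hcon p hp1 h0, mul_zero]; exact Nat.zero_le _
      · exact Nat.mul_le_mul (by omega) (hp p ((hmemP p).1 hp1) _)
    have h2 : ∑ p ∈ P, t p * p (at' b 2) ≤ K * (b0 * K) := by
      refine (Finset.sum_le_card_nsmul P _ _ h1).trans ?_
      rw [smul_eq_mul]
      exact Nat.mul_le_mul_right _ hcardP
    have h3 := hval (at' b 2)
    rw [hx02] at h3
    have h4 := hc (at' b 2)
    omega
  choose Q hQP hQ1 hQ3 using F2
  choose R hRP hRt hR2 using F3
  have hstr := (hFP q hq).2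
  have hlt : ∀ (b : Bl) (t u : Fin 4), t < u → at' b t < at' b u := fun b t u h =>
    at_lt.2 (Or.inr ⟨rfl, h⟩)
  -- supports
  have hsupp : ∀ b i, R b i ≠ 0 → blk i = b ∧ lt4 i ≠ 0 := by
    intro b i hi
    have h1 : ¬ i < at' b 1 := by
      intro h2
      exact hstr.noncross (R b) ((hmemP _).1 (hRP b)) (Q b) ((hmemP _).1 (hQP b)) i (at' b 1)
        (at' b 2) (at' b 3) h2 (hlt b 1 2 (by decide)) (hlt b 2 3 (by decide)) hi (hR2 b)
        (hQ1 b) (hQ3 b)
    have h2 : ¬ at' b 3 < i := by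
      intro h2
      exact hstr.noncross (Q b) ((hmemP _).1 (hQP b)) (R b) ((hmemP _).1 (hRP b)) (at' b 1)
        (at' b 2) (at' b 3) i (hlt b 1 2 (by decide)) (hlt b 2 3 (by decide)) h2 (hQ1 b)
        (hQ3 b) (hR2 b) hi
    rw [not_lt] at h1 h2
    have h3 : blk i = b := by
      refine le_antisymm ?_ ?_
      · rcases h2.eq_or_lt with h | h
        · rw [h]; simp
        · have := blk_le h; simpa using this
      · rcases h1.eq_or_lt with h | h
        · rw [← h]; simp
        · have := blk_le h; simpa using this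
    refine ⟨h3, ?_⟩
    intro h4
    have h5 : i = at' b 0 := by rw [← at_blk i, h3, h4]
    rw [h5] at h1
    exact absurd (hlt b 0 1 (by decide)) (not_lt.2 h1)
  have hRinj : Function.Injective R := by
    intro b b' hbb
    have h1 := hR2 b
    rw [hbb] at h1
    have := (hsupp b' _ h1).1
    simpa using this
  have hR0 : ∀ b, R b (at' b 0) = 0 := by
    intro b
    by_contra h0
    exact (hsupp b _ h0).2 (by simp)
  have hRoff : ∀ b c, c ≠ b → ∀ t, R b (at' c t) = 0 := by
    intro b c hcb t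
    by_contra h0
    exact hcb (by simpa using (hsupp b _ h0).1)
  have halR : ∀ b c, al (R b) c = if c = b then -(R b (at' b 2) : ℤ) else 0 := by
    intro b c
    split_ifs with h
    · subst h
      simp [al, hR0]
    · simp [al, hRoff b c h]
  have hbeR : ∀ b c, be (R b) c = if c = b then
      (R b (at' b 1) : ℤ) - R b (at' b 3) else 0 := by
    intro b c
    split_ifs with h
    · subst h
      simp [be]
    · simp [be, hRoff b c h]
  refine ⟨K, fun b => R b (at' b 2), fun b => (R b (at' b 1) : ℤ) - R b (at' b 3), hK1,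
    fun b => ⟨Nat.pos_of_ne_zero (hR2 b), hp _ ((hmemP _).1 (hRP b)) _⟩, fun b => ?_, ?_⟩
  · have h1 := hp _ ((hmemP _).1 (hRP b)) (at' b 1)
    have h2 := hp _ ((hmemP _).1 (hRP b)) (at' b 3)
    rw [abs_le]
    constructor <;> push_cast <;> omega
  · intro S hS
    let δ : (Pos Bl → ℕ) → ℤ := fun p => ∑ b, if R b = p then S b else 0
    have hδ : ∀ p ∈ P, 0 ≤ (t p : ℤ) - δ p := by
      intro p _
      by_cases h0 : ∃ b, R b = p
      · obtain ⟨b, rfl⟩ := h0
        have h1 : δ (R b) = S b := by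
          simp only [δ]
          rw [Finset.sum_eq_single b]
          · simp
          · intro c _ hcb
            rw [if_neg]
            exact fun h => hcb (hRinj h)
          · simp
        rw [h1]
        have h2 := (abs_le.1 (hS b)).2
        have h3 : (b0 : ℤ) ≤ t (R b) := by exact_mod_cast hRt b
        omega
      · push Not at h0
        have h1 : δ p = 0 := Finset.sum_eq_zero fun b _ => if_neg (h0 b)
        rw [h1]
        omega
    have hsum : ∀ f : (Pos Bl → ℕ) → ℤ, ∑ p ∈ P, δ p * f p = ∑ b, S b * f (R b) := by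
      intro f
      simp only [δ, Finset.sum_mul]
      rw [Finset.sum_comm]
      refine Finset.sum_congr rfl fun b _ => ?_
      rw [Finset.sum_eq_single (R b)]
      · simp
      · intro p _ hpb
        rw [if_neg (Ne.symm hpb), zero_mul]
      · intro h0
        exact absurd (hRP b) h0
    refine ⟨_, hmem (fun p => ((t p : ℤ) - δ p).toNat), fun b => ?_, fun b => ?_⟩
    · have h1 : al x0 b = al q.1 b + ∑ p ∈ P, (t p : ℤ) * al p b := by
        rw [hxy, al_add, al_sum]
      have h2 := hsum (fun p => al p b)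
      have h3 : ∑ p ∈ P, ((((t p : ℤ) - δ p).toNat : ℕ) : ℤ) * al p b =
          ∑ p ∈ P, (t p : ℤ) * al p b - ∑ p ∈ P, δ p * al p b := by
        rw [← Finset.sum_sub_distrib]
        refine Finset.sum_congr rfl fun p hp => ?_
        rw [Int.toNat_of_nonneg (hδ p hp)]
        ring
      rw [al_add, al_sum, h3, h2]
      have h4 : ∑ c, S c * al (R c) b = -(S b * (R b (at' b 2) : ℤ)) := by
        rw [Finset.sum_eq_single b]
        · rw [halR, if_pos rfl]; ring
        · intro c _ hcb
          rw [halR, if_neg (Ne.symm hcb), mul_zero]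
        · simp
      rw [h4]
      rw [hal0] at h1
      linarith
    · have h1 : be x0 b = be q.1 b + ∑ p ∈ P, (t p : ℤ) * be p b := by
        rw [hxy, be_add, be_sum]
      have h2 := hsum (fun p => be p b)
      have h3 : ∑ p ∈ P, ((((t p : ℤ) - δ p).toNat : ℕ) : ℤ) * be p b =
          ∑ p ∈ P, (t p : ℤ) * be p b - ∑ p ∈ P, δ p * be p b := by
        rw [← Finset.sum_sub_distrib]
        refine Finset.sum_congr rfl fun p hp => ?_
        rw [Int.toNat_of_nonneg (hδ p hp)]
        ring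
      rw [be_add, be_sum, h3, h2]
      have h4 : ∑ c, S c * be (R c) b = S b * ((R b (at' b 1) : ℤ) - R b (at' b 3)) := by
        rw [Finset.sum_eq_single b]
        · rw [hbeR, if_pos rfl]
        · intro c _ hcb
          rw [hbeR, if_neg (Ne.symm hcb), mul_zero]
        · simp
      rw [h4]
      rw [hbe0] at h1
      linarith

end Pool.Agent.MP2a1ef3
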