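import Pool.Agent.Lib.MP_2a1ef3_lc.Fwd
import Pool.Agent.Lib.MP_2a1ef3_lc.Back

/-!
A stratified description gives a rational solution of the gates.
-/

set_option autoImplicit false
set_option linter.unusedSimpArgs false
set_option linter.unusedSectionVars false

namespace Pool.Agent.MP2a1ef3

variable {Bl : Type} [LinearOrder Bl] [Fintype Bl] {s v : ℕ} (π : Place Bl s v)
  {G : Fin s → Gate ℕ}

/-- A stratified description gives a solution. -/
theorem solution_of_strat (hG : ∀ g, (G g).WF v) (h : StratUnion (MM π G)) :
    ∃ r : ℕ → ℚ, ∀ g, Gate.Sat r (G g) := by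
  classical
  obtain ⟨K, u, w, hK, hu, hw, hS⟩ := exists_periods π (fun K => K * K) h
  -- the general step
  have step : ∀ (g : Fin s) (S : Bl → ℤ), S (π.wit g) = 1 →
      (∀ b, b ≠ π.wit g → b ∉ gblk π (G g) → S b = 0) → (∀ b, |S b| ≤ ((K * K : ℕ) : ℤ)) →
      ∃ z : Pos Bl → ℕ, cond π z (G g) ∧ (∀ b, al z b = S b * u b) ∧
        ∀ b, be z b = -(S b * w b) := by
    intro g S h1 h2 h3
    obtain ⟨z, hz, hal, hbe⟩ := hS S h3
    refine ⟨z, ?_, hal, hbe⟩
    have hne : al z (π.wit g) ≠ 0 := by
      rw [hal, h1, one_mul]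
      have := (hu (π.wit g)).1
      omega
    rcases hz with hz | hz
    · exact absurd (hz _).1 hne
    · refine hz.2 g ⟨hne, fun b hb1 hb2 => ?_⟩
      rw [hal, h2 b hb1 hb2, zero_mul]
  have hKK : (1 : ℤ) ≤ ((K * K : ℕ) : ℤ) := by
    have : 1 ≤ K * K := Nat.mul_pos hK hK
    exact_mod_cast this
  have huQ : ∀ b, (u b : ℚ) ≠ 0 := fun b => by
    have := (hu b).1
    positivity
  have hub : ∀ b, |(u b : ℤ)| ≤ K := fun b => by
    rw [Nat.abs_cast]
    exact_mod_cast (hu b).2
  have hprod : ∀ a b : ℤ, |a| ≤ K → |b| ≤ K → |a * b| ≤ ((K * K : ℕ) : ℤ) := by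
    intro a b ha hb
    rw [abs_mul]
    push_cast
    exact mul_le_mul ha hb (abs_nonneg _) (by positivity)
  have hone : ∀ a : ℤ, |a| ≤ K → |a| ≤ ((K * K : ℕ) : ℤ) := by
    intro a ha
    have := hprod a 1 ha (by rw [abs_one]; exact_mod_cast hK)
    rwa [mul_one] at this
  refine ⟨fun i => -(w (π.var i) : ℚ) / u (π.var i), fun g => ?_⟩
  have hW := hG g
  cases hg : G g with
  | one i =>
    rw [hg] at hW
    simp only [Gate.WF] at hW
    have n0 := π.wit_ne g i hW
    obtain ⟨z, hc, hal, hbe⟩ : ∃ z : Pos Bl → ℕ, cond π z (G g) ∧ (∀ b, al z b = ((fun b => if b = π.wit g then 1 else if b = π.var i then 1 else 0) : Bl → ℤ) b * u b) ∧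
        ∀ b, be z b = -(((fun b => if b = π.wit g then 1 else if b = π.var i then 1 else 0) : Bl → ℤ) b * w b) := by
      refine step g _ (by simp) ?_ ?_
      · intro b h1 h2
        rw [hg] at h2
        simp only [gblk, Finset.mem_singleton] at h2
        rw [if_neg h1, if_neg h2]
      · intro b
        split_ifs
        · rw [abs_one]; exact hKK
        · rw [abs_one]; exact hKK
        · rw [abs_zero]; positivity
    rw [hg] at hc
    simp only [cond, hal, hbe] at hc
    simp only [n0.symm, if_true, if_false] at hc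
    simp only [Gate.Sat]
    have hc' : -(1 * (w (π.var i) : ℚ)) = 1 * (u (π.var i) : ℚ) := by exact_mod_cast hc
    have := huQ (π.var i)
    field_simp
    linarith
  | lin c i l =>
    rw [hg] at hW
    simp only [Gate.WF] at hW
    have n0 := π.wit_ne g i (by omega)
    have n1 := π.wit_ne g l (by omega)
    have n2 := (π.var_lt i l hW.1 hW.2).ne
    obtain ⟨z, hc, hal, hbe⟩ : ∃ z : Pos Bl → ℕ, cond π z (G g) ∧ (∀ b, al z b = ((fun b => if b = π.wit g then 1 else if b = π.var i then (u (π.var l) : ℤ) else
        if b = π.var l then (u (π.var i) : ℤ) else 0) : Bl → ℤ) b * u b) ∧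
        ∀ b, be z b = -(((fun b => if b = π.wit g then 1 else if b = π.var i then (u (π.var l) : ℤ) else
        if b = π.var l then (u (π.var i) : ℤ) else 0) : Bl → ℤ) b * w b) := by
      refine step g _ (by simp) ?_ ?_
      · intro b h1 h2
        rw [hg] at h2
        simp only [gblk, Finset.mem_singleton, Finset.mem_insert, not_or] at h2
        rw [if_neg h1, if_neg h2.1, if_neg h2.2]
      · intro b
        split_ifs
        · rw [abs_one]; exact hKK
        · exact hone _ (hub _)
        · exact hone _ (hub _)
        · rw [abs_zero]; positivity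
    rw [hg] at hc
    simp only [cond, hal, hbe] at hc
    simp only [n0.symm, n1.symm, n2.symm, if_true, if_false] at hc
    simp only [Gate.Sat]
    rcases hc with hc | hc
    · exact absurd (mul_comm _ _) hc
    · have hc' : -((u (π.var i) : ℚ) * (w (π.var l) : ℚ)) =
          (c : ℚ) * -((u (π.var l) : ℚ) * (w (π.var i) : ℚ)) := by exact_mod_cast hc
      have h1 := huQ (π.var i)
      have h2 := huQ (π.var l)
      field_simp
      linarith
  | add i j l =>
    rw [hg] at hW
    simp only [Gate.WF] at hW
    have n0 := π.wit_ne g i (by omega)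
    have n1 := π.wit_ne g j (by omega)
    have n2 := π.wit_ne g l (by omega)
    have m0 := (π.var_lt i j hW.1 (by omega)).ne
    have m1 := (π.var_lt j l hW.2.1 hW.2.2).ne
    have m2 := (π.var_lt i l (by omega) hW.2.2).ne
    obtain ⟨z, hc, hal, hbe⟩ : ∃ z : Pos Bl → ℕ, cond π z (G g) ∧ (∀ b, al z b = ((fun b => if b = π.wit g then 1 else
        if b = π.var i then (u (π.var j) : ℤ) * u (π.var l) else
        if b = π.var j then (u (π.var i) : ℤ) * u (π.var l) else
        if b = π.var l then (u (π.var i) : ℤ) * u (π.var j) else 0) : Bl → ℤ) b * u b) ∧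
        ∀ b, be z b = -(((fun b => if b = π.wit g then 1 else
        if b = π.var i then (u (π.var j) : ℤ) * u (π.var l) else
        if b = π.var j then (u (π.var i) : ℤ) * u (π.var l) else
        if b = π.var l then (u (π.var i) : ℤ) * u (π.var j) else 0) : Bl → ℤ) b * w b) := by
      refine step g _ (by simp) ?_ ?_
      · intro b h1 h2
        rw [hg] at h2
        simp only [gblk, Finset.mem_singleton, Finset.mem_insert, not_or] at h2
        rw [if_neg h1, if_neg h2.1, if_neg h2.2.1, if_neg h2.2.2]
      · intro b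
        split_ifs
        · rw [abs_one]; exact hKK
        · exact hprod _ _ (hub _) (hub _)
        · exact hprod _ _ (hub _) (hub _)
        · exact hprod _ _ (hub _) (hub _)
        · rw [abs_zero]; positivity
    rw [hg] at hc
    simp only [cond, hal, hbe] at hc
    simp only [n0.symm, n1.symm, n2.symm, m0.symm, m1.symm, m2.symm, if_true, if_false] at hc
    simp only [Gate.Sat]
    rcases hc with hc | hc | hc
    · exact absurd (by ring) hc
    · exact absurd (by ring) hc
    · have hc' : -((u (π.var j) : ℚ) * (u (π.var l) : ℚ) * (w (π.var i) : ℚ)) +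
          -((u (π.var i) : ℚ) * (u (π.var l) : ℚ) * (w (π.var j) : ℚ)) =
          -((u (π.var i) : ℚ) * (u (π.var j) : ℚ) * (w (π.var l) : ℚ)) := by
        exact_mod_cast hc
      have h1 := huQ (π.var i)
      have h2 := huQ (π.var j)
      have h3 := huQ (π.var l)
      field_simp
      linarith
  | mul i j l =>
    rw [hg] at hW
    simp only [Gate.WF] at hW
    have n0 := π.wit_ne g i (by omega)
    have n1 := π.wit_ne g j (by omega)
    have n2 := π.wit_ne g l (by omega)
    have m0 := (π.var_lt i j hW.1 (by omega)).ne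
    have m1 := (π.var_lt j l hW.2.1 hW.2.2).ne
    have m2 := (π.var_lt i l (by omega) hW.2.2).ne
    obtain ⟨z, hc, hal, hbe⟩ : ∃ z : Pos Bl → ℕ, cond π z (G g) ∧ (∀ b, al z b = ((fun b => if b = π.wit g then 1 else
        if b = π.var i then (u (π.var j) : ℤ) * u (π.var l) else
        if b = π.var j then -w (π.var i) * u (π.var l) else
        if b = π.var l then (u (π.var i) : ℤ) * u (π.var j) else 0) : Bl → ℤ) b * u b) ∧
        ∀ b, be z b = -(((fun b => if b = π.wit g then 1 else
        if b = π.var i then (u (π.var j) : ℤ) * u (π.var l) else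
        if b = π.var j then -w (π.var i) * u (π.var l) else
        if b = π.var l then (u (π.var i) : ℤ) * u (π.var j) else 0) : Bl → ℤ) b * w b) := by
      refine step g _ (by simp) ?_ ?_
      · intro b h1 h2
        rw [hg] at h2
        simp only [gblk, Finset.mem_singleton, Finset.mem_insert, not_or] at h2
        rw [if_neg h1, if_neg h2.1, if_neg h2.2.1, if_neg h2.2.2]
      · intro b
        split_ifs
        · rw [abs_one]; exact hKK
        · exact hprod _ _ (hub _) (hub _)
        · refine hprod _ _ ?_ (hub _)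
          rw [abs_neg]
          exact hw _
        · exact hprod _ _ (hub _) (hub _)
        · rw [abs_zero]; positivity
    rw [hg] at hc
    simp only [cond, hal, hbe] at hc
    simp only [n0.symm, n1.symm, n2.symm, m0.symm, m1.symm, m2.symm, if_true, if_false] at hc
    simp only [Gate.Sat]
    rcases hc with hc | hc | hc
    · exact absurd (by ring) hc
    · exact absurd (by ring) hc
    · have hc' : -(-(w (π.var i) : ℚ) * (u (π.var l) : ℚ) * (w (π.var j) : ℚ)) =
          -((u (π.var i) : ℚ) * (u (π.var j) : ℚ) * (w (π.var l) : ℚ)) := by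
        exact_mod_cast hc
      have h1 := huQ (π.var i)
      have h2 := huQ (π.var j)
      have h3 := huQ (π.var l)
      field_simp
      linarith

end Pool.Agent.MP2a1ef3
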