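import Pool.Agent.Lib.MP_2a1ef3_lc.Defs

/-!
Ginsburg-Spanier, easy direction: finite unions of stratified linear sets give context-free
bounded languages (for MP_2a1ef3_lc).
-/

set_option autoImplicit false

namespace Pool.Agent.MP2a1ef3

namespace GS1

/-! ### Soundness of a grammar -/

section generic

variable {T N : Type}

/-- Interpretation of a symbol by languages of the nonterminals. -/
def symSem (L : N → Language T) : Symbol T N → Language T
  | Symbol.terminal a => {[a]}
  | Symbol.nonterminal A => L A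

/-- Interpretation of a sentential form. -/
def sem (L : N → Language T) (s : List (Symbol T N)) : Language T := (s.map (symSem L)).prod

lemma sem_append (L : N → Language T) (s t : List (Symbol T N)) :
    sem L (s ++ t) = sem L s * sem L t := by
  simp [sem]

lemma sem_nonterminal (L : N → Language T) (A : N) :
    sem L [Symbol.nonterminal A] = L A := by
  simp [sem, symSem]

lemma sem_nil (L : N → Language T) : sem L [] = 1 := rfl

lemma sem_terminals (L : N → Language T) (w : List T) :
    sem L (w.map Symbol.terminal) = {w} := by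
  induction w with
  | nil => rfl
  | cons a w ih =>
    have h : sem L ((a :: w).map Symbol.terminal) = {[a]} * sem L (w.map Symbol.terminal) := by
      simp [sem, symSem]
    rw [h, ih]
    ext v
    simp only [Language.mem_mul]
    constructor
    · rintro ⟨x, hx, y, hy, rfl⟩
      rw [Set.mem_singleton_iff.mp hx, Set.mem_singleton_iff.mp hy]
      rfl
    · intro hv
      exact ⟨[a], rfl, w, rfl, (Set.mem_singleton_iff.mp hv).symm⟩

lemma sem_derives {g : ContextFreeGrammar T} {L : g.NT → Language T}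
    (h : ∀ ρ ∈ g.rules, sem L ρ.output ≤ L ρ.input) {s t : List (Symbol T g.NT)}
    (hst : g.Derives s t) : sem L t ≤ sem L s := by
  induction hst with
  | refl => exact le_rfl
  | tail _ hp ih =>
    refine le_trans ?_ ih
    obtain ⟨ρ, hρ, hr⟩ := hp
    obtain ⟨p, q, rfl, rfl⟩ := hr.exists_parts
    rw [sem_append, sem_append, sem_append, sem_append, sem_nonterminal]
    exact mul_le_mul' (mul_le_mul' le_rfl (h ρ hρ)) le_rfl

lemma language_le {g : ContextFreeGrammar T} {L : g.NT → Language T}
    (h : ∀ ρ ∈ g.rules, sem L ρ.output ≤ L ρ.input) : g.language ≤ L g.initial := by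
  intro w hw
  have h1 := sem_derives h hw
  rw [sem_nonterminal, sem_terminals] at h1
  exact h1 rfl

end generic

/-! ### Sorted words -/

section words

variable {n : ℕ}

/-- The word `w` is sorted and has the letter counts `x`. -/
def Rep (x : Fin n → ℕ) (w : List (Fin n)) : Prop :=
  w.Pairwise (· ≤ ·) ∧ ∀ i, w.count i = x i

lemma rep_nil : Rep (0 : Fin n → ℕ) [] := ⟨List.Pairwise.nil, fun _ => rfl⟩

lemma rep_replicate (i : Fin n) (m : ℕ) : Rep (Pi.single i m) (List.replicate m i) := by
  refine ⟨?_, fun j => ?_⟩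
  · exact List.pairwise_replicate.mpr (Or.inr le_rfl)
  · rw [List.count_replicate]
    by_cases h : i = j
    · subst h; simp
    · simp [h, Ne.symm h]

lemma Rep.append {x y : Fin n → ℕ} {u v : List (Fin n)} (hu : Rep x u) (hv : Rep y v)
    (h : ∀ i j, x i ≠ 0 → y j ≠ 0 → i ≤ j) : Rep (x + y) (u ++ v) := by
  refine ⟨List.pairwise_append.mpr ⟨hu.1, hv.1, ?_⟩, fun i => ?_⟩
  · intro a ha b hb
    refine h a b ?_ ?_
    · rw [← hu.2]; exact (List.count_pos_iff.mpr ha).ne'
    · rw [← hv.2]; exact (List.count_pos_iff.mpr hb).ne'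
  · rw [List.count_append, hu.2, hv.2]; rfl

lemma rep_wordOf (x : Fin n → ℕ) : Rep x (wordOf x) := by
  refine ⟨?_, fun i => ?_⟩
  · unfold wordOf
    rw [List.pairwise_flatten]
    constructor
    · intro l hl
      rw [List.mem_ofFn] at hl
      obtain ⟨i, rfl⟩ := hl
      exact (rep_replicate i _).1
    · rw [List.pairwise_ofFn]
      intro i j hij a ha b hb
      rw [List.eq_of_mem_replicate ha, List.eq_of_mem_replicate hb]
      exact hij.le
  · unfold wordOf
    rw [List.count_flatten, List.map_ofFn, List.sum_ofFn]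
    rw [Finset.sum_eq_single i]
    · simp
    · intro b _ hb
      simp [List.count_replicate, hb]
    · simp

lemma Rep.eq {x : Fin n → ℕ} {w : List (Fin n)} (h : Rep x w) : w = wordOf x := by
  have h' := rep_wordOf x
  refine List.Perm.eq_of_pairwise (le := (· ≤ ·)) (fun a b _ _ h1 h2 => le_antisymm h1 h2)
    h.1 h'.1 ?_
  rw [List.perm_iff_count]
  intro a
  rw [h.2, h'.2]

lemma rep_iff {x : Fin n → ℕ} {w : List (Fin n)} : Rep x w ↔ w = wordOf x :=
  ⟨Rep.eq, fun h => h ▸ rep_wordOf x⟩

end words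

/-! ### The grammar -/

section grammar

variable {n : ℕ}

/-- Index type of the linear sets. -/
abbrev Ind (n : ℕ) : Type := (Fin n → ℕ) × Set (Fin n → ℕ)

/-- Nonterminals. -/
abbrev NT (n : ℕ) : Type := Option (Ind n × Fin n × Fin n)

/-- The base restricted to `(i, j]`. -/
def cr (c : Fin n → ℕ) (i j : Fin n) : Fin n → ℕ := fun l => if i < l ∧ l ≤ j then c l else 0

/-- The periods supported in `[i, j]`. -/
def per (P : Set (Fin n → ℕ)) (i j : Fin n) : Set (Fin n → ℕ) :=
  {p | p ∈ P ∧ ∀ l, p l ≠ 0 → i ≤ l ∧ l ≤ j}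

/-- A block of equal terminals. -/
def blk (i : Fin n) (m : ℕ) : List (Symbol (Fin n) (NT n)) :=
  (List.replicate m i).map Symbol.terminal

/-- A nonterminal as a sentential form. -/
def nt (q : Ind n) (i j : Fin n) : List (Symbol (Fin n) (NT n)) :=
  [Symbol.nonterminal (some (q, i, j))]

/-- The rules of the grammar. -/
inductive IsRule (F : Set (Ind n)) : ContextFreeRule (Fin n) (NT n) → Prop
  | start0 (q : Ind n) (hq : q ∈ F) (h : n = 0) : IsRule F ⟨none, []⟩
  | start (q : Ind n) (hq : q ∈ F) (i j : Fin n) (hi : ∀ l, i ≤ l) (hj : ∀ l, l ≤ j) :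
      IsRule F ⟨none, blk i (q.1 i) ++ nt q i j⟩
  | pump (q : Ind n) (hq : q ∈ F) (p : Fin n → ℕ) (hp : p ∈ q.2) (i j : Fin n) (hij : i ≤ j)
      (h : ∀ l, p l ≠ 0 → l = i ∨ l = j) :
      IsRule F ⟨some (q, i, j), blk i (p i) ++ nt q i j ++ blk j (if i = j then 0 else p j)⟩
  | split (q : Ind n) (hq : q ∈ F) (i j k : Fin n) (hik : i < k) (hkj : k < j) :
      IsRule F ⟨some (q, i, j), nt q i k ++ nt q k j⟩
  | succ (q : Ind n) (hq : q ∈ F) (i j : Fin n) (h : i.val + 1 = j.val) :
      IsRule F ⟨some (q, i, j), nt q i i ++ blk j (q.1 j) ++ nt q j j⟩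
  | stop (q : Ind n) (hq : q ∈ F) (i : Fin n) : IsRule F ⟨some (q, i, i), []⟩

lemma finite_rules {F : Set (Ind n)} (hF : F.Finite) (hP : ∀ q ∈ F, q.2.Finite) :
    {ρ | IsRule F ρ}.Finite := by
  have h1 : ({⟨none, []⟩} : Set (ContextFreeRule (Fin n) (NT n))).Finite :=
    Set.finite_singleton _
  have h2 : (⋃ q ∈ F, ⋃ i : Fin n, ⋃ j : Fin n,
      ({⟨none, blk i (q.1 i) ++ nt q i j⟩} : Set (ContextFreeRule (Fin n) (NT n)))).Finite :=
    hF.biUnion fun q _ => Set.finite_iUnion fun i => Set.finite_iUnion fun j =>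
      Set.finite_singleton _
  have h3 : (⋃ q ∈ F, ⋃ p ∈ q.2, ⋃ i : Fin n, ⋃ j : Fin n,
      ({⟨some (q, i, j), blk i (p i) ++ nt q i j ++ blk j (if i = j then 0 else p j)⟩} :
        Set (ContextFreeRule (Fin n) (NT n)))).Finite :=
    hF.biUnion fun q hq => (hP q hq).biUnion fun p _ => Set.finite_iUnion fun i =>
      Set.finite_iUnion fun j => Set.finite_singleton _
  have h4 : (⋃ q ∈ F, ⋃ i : Fin n, ⋃ j : Fin n, ⋃ k : Fin n,
      ({⟨some (q, i, j), nt q i k ++ nt q k j⟩} :
        Set (ContextFreeRule (Fin n) (NT n)))).Finite :=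
    hF.biUnion fun q _ => Set.finite_iUnion fun i => Set.finite_iUnion fun j =>
      Set.finite_iUnion fun k => Set.finite_singleton _
  have h5 : (⋃ q ∈ F, ⋃ i : Fin n, ⋃ j : Fin n,
      ({⟨some (q, i, j), nt q i i ++ blk j (q.1 j) ++ nt q j j⟩} :
        Set (ContextFreeRule (Fin n) (NT n)))).Finite :=
    hF.biUnion fun q _ => Set.finite_iUnion fun i => Set.finite_iUnion fun j =>
      Set.finite_singleton _
  have h6 : (⋃ q ∈ F, ⋃ i : Fin n,
      ({⟨some (q, i, i), []⟩} : Set (ContextFreeRule (Fin n) (NT n)))).Finite :=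
    hF.biUnion fun q _ => Set.finite_iUnion fun i => Set.finite_singleton _
  refine (((((h1.union h2).union h3).union h4).union h5).union h6).subset ?_
  rintro ρ hρ
  simp only [Set.mem_union, Set.mem_iUnion, Set.mem_singleton_iff, exists_prop]
  cases hρ with
  | start0 q hq h => exact Or.inl (Or.inl (Or.inl (Or.inl (Or.inl rfl))))
  | start q hq i j hi hj =>
    exact Or.inl (Or.inl (Or.inl (Or.inl (Or.inr ⟨q, hq, i, j, rfl⟩))))
  | pump q hq p hp i j hij h => exact Or.inl (Or.inl (Or.inl (Or.inr ⟨q, hq, p, hp, i, j, rfl⟩)))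
  | split q hq i j k hik hkj => exact Or.inl (Or.inl (Or.inr ⟨q, hq, i, j, k, rfl⟩))
  | succ q hq i j h => exact Or.inl (Or.inr ⟨q, hq, i, j, rfl⟩)
  | stop q hq i => exact Or.inr ⟨q, hq, i, rfl⟩

/-- The grammar. -/
noncomputable def gram (F : Set (Ind n)) (hF : F.Finite) (hP : ∀ q ∈ F, q.2.Finite) :
    ContextFreeGrammar (Fin n) where
  NT := NT n
  initial := none
  rules := (finite_rules hF hP).toFinset

/-- Semantics of the nonterminals. -/
def L (F : Set (Ind n)) : NT n → Language (Fin n)
  | none => {w | ∃ q ∈ F, ∃ x ∈ LS q.1 q.2, Rep x w}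
  | some (q, i, j) => {w | i ≤ j ∧ ∃ y ∈ AddSubmonoid.closure (per q.2 i j), Rep (cr q.1 i j + y) w}

lemma supp_closure {P : Set (Fin n → ℕ)} {i j : Fin n} {y : Fin n → ℕ}
    (hy : y ∈ AddSubmonoid.closure (per P i j)) (l : Fin n) (hl : y l ≠ 0) : i ≤ l ∧ l ≤ j := by
  induction hy using AddSubmonoid.closure_induction with
  | mem p hp => exact hp.2 l hl
  | zero => exact absurd rfl hl
  | add a b _ _ ha hb =>
    by_cases h : a l = 0
    · refine hb ?_
      intro h'
      exact hl (by simp [h, h'])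
    · exact ha h

lemma supp_cr {c : Fin n → ℕ} {i j l : Fin n} (h : cr c i j l ≠ 0) : i < l ∧ l ≤ j := by
  unfold cr at h
  by_contra h'
  simp [h'] at h

lemma supp_tot {P : Set (Fin n → ℕ)} {c : Fin n → ℕ} {i j : Fin n} {y : Fin n → ℕ}
    (hy : y ∈ AddSubmonoid.closure (per P i j)) (l : Fin n) (hl : (cr c i j + y) l ≠ 0) :
    i ≤ l ∧ l ≤ j := by
  by_cases h : y l = 0
  · have h2 : cr c i j l ≠ 0 := by
      intro h'
      exact hl (by simp [h, h'])
    exact ⟨(supp_cr h2).1.le, (supp_cr h2).2⟩
  · exact supp_closure hy l h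

lemma cr_split (c : Fin n → ℕ) {i j k : Fin n} (hik : i ≤ k) (hkj : k ≤ j) :
    cr c i j = cr c i k + cr c k j := by
  ext l
  simp only [cr, Pi.add_apply]
  by_cases h1 : i < l
  · by_cases h2 : l ≤ j
    · by_cases h3 : l ≤ k
      · simp [h1, h2, h3]
      · simp [h1, h2, h3, not_le.mp h3]
    · have h3 : ¬ l ≤ k := fun h => h2 (h.trans hkj)
      simp [h2, h3]
  · have h3 : ¬ k < l := fun h => h1 (lt_of_le_of_lt hik h)
    simp [h1, h3]

lemma cr_self (c : Fin n → ℕ) (i : Fin n) : cr c i i = 0 := by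
  ext l
  simp only [cr, Pi.zero_apply]
  rw [if_neg]
  rintro ⟨h1, h2⟩
  exact absurd h1 (not_lt.mpr h2)

lemma cr_succ (c : Fin n → ℕ) {i j : Fin n} (h : i.val + 1 = j.val) :
    cr c i j = Pi.single j (c j) := by
  ext l
  simp only [cr, Pi.single_apply]
  by_cases hl : l = j
  · subst hl
    have : i < l := by rw [Fin.lt_def]; omega
    simp [this]
  · rw [if_neg hl, if_neg]
    rintro ⟨h1, h2⟩
    rw [Fin.lt_def] at h1
    rw [Fin.le_def] at h2
    exact hl (Fin.ext (by omega))

lemma per_mono {P : Set (Fin n → ℕ)} {i j i' j' : Fin n} (hi : i' ≤ i) (hj : j ≤ j') :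
    per P i j ⊆ per P i' j' := fun _ hp =>
  ⟨hp.1, fun l hl => ⟨hi.trans (hp.2 l hl).1, (hp.2 l hl).2.trans hj⟩⟩

lemma two_supp {p : Fin n → ℕ} {i j : Fin n} (h : ∀ l, p l ≠ 0 → l = i ∨ l = j) :
    p = Pi.single i (p i) + Pi.single j (if i = j then 0 else p j) := by
  ext l
  simp only [Pi.add_apply, Pi.single_apply]
  by_cases hij : i = j
  · subst hij
    by_cases hl : l = i
    · simp [hl]
    · have : p l = 0 := by
        by_contra h'
        rcases h l h' with h | h <;> exact hl h
      simp [hl, this]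
  · by_cases hli : l = i
    · subst hli
      simp [hij]
    · by_cases hlj : l = j
      · subst hlj
        simp [hij, hli]
      · have : p l = 0 := by
          by_contra h'
          rcases h l h' with h | h
          · exact hli h
          · exact hlj h
        simp [hli, hlj, this]

lemma single_ne {i l : Fin n} {m : ℕ} (h : (Pi.single i m : Fin n → ℕ) l ≠ 0) : l = i := by
  by_contra h'
  exact h (by simp [h'])

lemma sound_rule {F : Set (Ind n)} {ρ : ContextFreeRule (Fin n) (NT n)} (hρ : IsRule F ρ) :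
    sem (L F) ρ.output ≤ L F ρ.input := by
  cases hρ with
  | start0 q hq h =>
    subst h
    intro w hw
    refine ⟨q, hq, q.1, ⟨0, zero_mem _, (add_zero _).symm⟩, ?_⟩
    have : w = [] := by
      cases w with
      | nil => rfl
      | cons a _ => exact a.elim0
    subst this
    exact ⟨List.Pairwise.nil, fun i => i.elim0⟩
  | start q hq i j hi hj =>
    intro w hw
    simp only [sem_append, blk, nt, sem_terminals, sem_nonterminal] at hw
    obtain ⟨u, hu, v, ⟨hij, y, hy, hv⟩, rfl⟩ := hw
    rw [Set.mem_singleton_iff.mp hu]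
    refine ⟨q, hq, q.1 + y, ⟨y, ?_, rfl⟩, ?_⟩
    · exact AddSubmonoid.closure_mono (fun p hp => hp.1) hy
    · have h := (rep_replicate i (q.1 i)).append hv (fun a b ha hb => by
        rw [single_ne ha]; exact (supp_tot hy b hb).1)
      have e : q.1 + y = Pi.single i (q.1 i) + (cr q.1 i j + y) := by
        ext l
        simp only [Pi.add_apply, cr, Pi.single_apply]
        by_cases hl : l = i
        · subst hl; simp
        · have h1 : i < l := lt_of_le_of_ne (hi l) (Ne.symm hl)
          simp [hl, h1, hj l]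
      rw [e]
      exact h
  | pump q hq p hp i j hij h =>
    intro w hw
    simp only [sem_append, blk, nt, sem_terminals, sem_nonterminal] at hw
    obtain ⟨u, ⟨u1, hu1, v, ⟨_, y, hy, hv⟩, rfl⟩, u2, hu2, rfl⟩ := hw
    rw [Set.mem_singleton_iff.mp hu1, Set.mem_singleton_iff.mp hu2]
    refine ⟨hij, p + y, ?_, ?_⟩
    · refine add_mem (AddSubmonoid.subset_closure ⟨hp, fun l hl => ?_⟩) hy
      rcases h l hl with rfl | rfl
      · exact ⟨le_rfl, hij⟩
      · exact ⟨hij, le_rfl⟩
    · have h1 := (rep_replicate i (p i)).append hv (fun a b ha hb => by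
        rw [single_ne ha]; exact (supp_tot hy b hb).1)
      have h2 := h1.append (rep_replicate j (if i = j then 0 else p j)) (fun a b ha hb => by
        rw [single_ne hb]
        by_cases h3 : (Pi.single i (p i) : Fin n → ℕ) a = 0
        · have h4 : (cr q.1 i j + y) a ≠ 0 := by
            intro h5
            exact ha (by rw [Pi.add_apply, h3, h5])
          exact (supp_tot hy a h4).2
        · rw [single_ne h3]; exact hij)
      have e : cr q.1 i j + (p + y) =
          Pi.single i (p i) + (cr q.1 i j + y) + Pi.single j (if i = j then 0 else p j) := by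
        conv_lhs => rw [two_supp h]
        abel
      rw [e]
      exact h2
  | split q hq i j k hik hkj =>
    intro w hw
    simp only [sem_append, nt, sem_nonterminal] at hw
    obtain ⟨u, ⟨_, y, hy, hu⟩, v, ⟨_, z, hz, hv⟩, rfl⟩ := hw
    refine ⟨(hik.trans hkj).le, y + z, ?_, ?_⟩
    · exact add_mem (AddSubmonoid.closure_mono (per_mono le_rfl hkj.le) hy)
        (AddSubmonoid.closure_mono (per_mono hik.le le_rfl) hz)
    · have h := hu.append hv (fun a b ha hb =>
        ((supp_tot hy a ha).2).trans (supp_tot hz b hb).1)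
      rw [cr_split q.1 hik.le hkj.le]
      have e : cr q.1 i k + cr q.1 k j + (y + z) = cr q.1 i k + y + (cr q.1 k j + z) := by abel
      rw [e]
      exact h
  | succ q hq i j h =>
    intro w hw
    simp only [sem_append, blk, nt, sem_terminals, sem_nonterminal] at hw
    obtain ⟨u, ⟨u1, ⟨_, y, hy, hu1⟩, v, hv, rfl⟩, u2, ⟨_, z, hz, hu2⟩, rfl⟩ := hw
    rw [Set.mem_singleton_iff.mp hv]
    have hij : i ≤ j := by rw [Fin.le_def]; omega
    refine ⟨hij, y + z, ?_, ?_⟩
    · exact add_mem (AddSubmonoid.closure_mono (per_mono le_rfl hij) hy)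
        (AddSubmonoid.closure_mono (per_mono hij le_rfl) hz)
    · have h1 := hu1.append (rep_replicate j (q.1 j)) (fun a b ha hb => by
        rw [single_ne hb]; exact ((supp_tot hy a ha).2).trans hij)
      have h2 := h1.append hu2 (fun a b ha hb => by
        refine le_trans ?_ (supp_tot hz b hb).1
        by_cases h3 : (Pi.single j (q.1 j) : Fin n → ℕ) a = 0
        · have h4 : (cr q.1 i i + y) a ≠ 0 := by
            intro h5
            exact ha (by rw [Pi.add_apply, h3, h5])
          exact ((supp_tot hy a h4).2).trans hij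
        · rw [single_ne h3])
      rw [cr_succ q.1 h]
      rw [cr_self, cr_self] at h2
      have e : Pi.single j (q.1 j) + (y + z) =
          (0 + y + Pi.single j (q.1 j) + (0 + z) : Fin n → ℕ) := by
        rw [zero_add, zero_add]; abel
      rw [e]
      exact h2
  | stop q hq i =>
    intro w hw
    rw [sem_nil] at hw
    have hw' : w = [] := hw
    subst hw'
    refine ⟨le_rfl, 0, zero_mem _, ?_⟩
    rw [cr_self, add_zero]
    exact rep_nil

/-! ### Completeness -/

section complete

variable {F : Set (Ind n)} (hF : F.Finite) (hP : ∀ q ∈ F, q.2.Finite)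

lemma step {ρ : ContextFreeRule (Fin n) (NT n)} (hρ : IsRule F ρ) :
    (gram F hF hP).Derives [Symbol.nonterminal ρ.input] ρ.output :=
  Relation.ReflTransGen.single
    ⟨ρ, (finite_rules hF hP).mem_toFinset.mpr hρ, ContextFreeRule.Rewrites.input_output⟩

/-- The nonterminal `(q, i, j)` derives the word of `x`. -/
def Der (q : Ind n) (i j : Fin n) (x : Fin n → ℕ) : Prop :=
  (gram F hF hP).Derives [Symbol.nonterminal (some (q, i, j))]
    ((wordOf x).map Symbol.terminal)

variable {hF hP}

lemma Der.pump {q : Ind n} (hq : q ∈ F) {i j : Fin n} (hij : i ≤ j) {x : Fin n → ℕ}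
    (hx : ∀ l, x l ≠ 0 → i ≤ l ∧ l ≤ j) (h : Der hF hP q i j x) {p : Fin n → ℕ} (hp : p ∈ q.2)
    (hs : ∀ l, p l ≠ 0 → l = i ∨ l = j) : Der hF hP q i j (p + x) := by
  have h1 := step hF hP (IsRule.pump q hq p hp i j hij hs)
  have h2 := (h.append_left (blk i (p i))).append_right (blk j (if i = j then 0 else p j))
  have h3 := (rep_replicate i (p i)).append (rep_wordOf x) (fun a b ha hb => by
    rw [single_ne ha]; exact (hx b hb).1)
  have h4 := h3.append (rep_replicate j (if i = j then 0 else p j)) (fun a b ha hb => by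
    rw [single_ne hb]
    by_cases h3 : (Pi.single i (p i) : Fin n → ℕ) a = 0
    · have h4 : x a ≠ 0 := by
        intro h5
        exact ha (by rw [Pi.add_apply, h3, h5])
      exact (hx a h4).2
    · rw [single_ne h3]; exact hij)
  have e : p + x = Pi.single i (p i) + x + Pi.single j (if i = j then 0 else p j) := by
    conv_lhs => rw [two_supp hs]
    abel
  unfold Der
  rw [e, ← h4.eq, List.map_append, List.map_append]
  exact h1.trans h2

lemma Der.pumps {q : Ind n} (hq : q ∈ F) {i j : Fin n} (hij : i ≤ j) {z : Fin n → ℕ}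
    (hz : z ∈ AddSubmonoid.closure {p | p ∈ q.2 ∧ ∀ l, p l ≠ 0 → l = i ∨ l = j}) :
    ∀ {x : Fin n → ℕ}, (∀ l, x l ≠ 0 → i ≤ l ∧ l ≤ j) → Der hF hP q i j x →
      (∀ l, (z + x) l ≠ 0 → i ≤ l ∧ l ≤ j) ∧ Der hF hP q i j (z + x) := by
  induction hz using AddSubmonoid.closure_induction with
  | mem p hp =>
    intro x hx h
    refine ⟨fun l hl => ?_, h.pump hq hij hx hp.1 hp.2⟩
    by_cases h1 : p l = 0
    · exact hx l (fun h2 => hl (by rw [Pi.add_apply, h1, h2]))
    · rcases hp.2 l h1 with rfl | rfl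
      · exact ⟨le_rfl, hij⟩
      · exact ⟨hij, le_rfl⟩
  | zero =>
    intro x hx h
    rw [zero_add]
    exact ⟨hx, h⟩
  | add a b _ _ ha hb =>
    intro x hx h
    obtain ⟨h1, h2⟩ := hb hx h
    rw [add_assoc]
    exact ha h1 h2

lemma Der.split {q : Ind n} (hq : q ∈ F) {i j k : Fin n} (hik : i < k) (hkj : k < j)
    {x y : Fin n → ℕ} (hx : ∀ l, x l ≠ 0 → l ≤ k) (hy : ∀ l, y l ≠ 0 → k ≤ l)
    (h1 : Der hF hP q i k x) (h2 : Der hF hP q k j y) : Der hF hP q i j (x + y) := by
  have h3 := step hF hP (IsRule.split q hq i j k hik hkj)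
  have h4 := h1.append_right (nt q k j)
  have h5 := h2.append_left ((wordOf x).map Symbol.terminal)
  have h6 := (rep_wordOf x).append (rep_wordOf y) (fun a b ha hb => (hx a ha).trans (hy b hb))
  unfold Der
  rw [← h6.eq, List.map_append]
  exact (h3.trans h4).trans h5

lemma Der.stop {q : Ind n} (hq : q ∈ F) (i : Fin n) : Der hF hP q i i 0 := by
  have h := step hF hP (IsRule.stop q hq i)
  unfold Der
  rw [← rep_nil.eq]
  exact h

lemma Der.succ {q : Ind n} (hq : q ∈ F) {i j : Fin n} (hij : i.val + 1 = j.val) :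
    Der hF hP q i j (cr q.1 i j) := by
  have h3 := step hF hP (IsRule.succ q hq i j hij)
  have h1 : Der hF hP q i i 0 := Der.stop hq i
  have h2 : Der hF hP q j j 0 := Der.stop hq j
  unfold Der at h1 h2
  rw [← rep_nil.eq] at h1 h2
  have h4 := (h1.append_right (blk j (q.1 j))).append_right (nt q j j)
  have h5 : (gram F hF hP).Derives (blk j (q.1 j) ++ nt q j j) (blk j (q.1 j)) := by
    have h6 := h2.append_left (blk j (q.1 j))
    have h7 : blk j (q.1 j) ++ (List.map Symbol.terminal ([] : List (Fin n))) =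
        blk j (q.1 j) := List.append_nil _
    exact Eq.mp (congrArg (fun t => (gram F hF hP).Derives (blk j (q.1 j) ++ nt q j j) t) h7) h6
  unfold Der
  rw [cr_succ q.1 hij, ← (rep_replicate j (q.1 j)).eq]
  exact (h3.trans h4).trans h5

/-- Choice of the splitting point. -/
lemma exists_split {P : Set (Fin n → ℕ)} (hs : Stratified P) {i j : Fin n}
    (hij : i.val + 1 < j.val) :
    ∃ k, i < k ∧ k < j ∧ ∀ p ∈ per P i j, ¬ (∀ l, p l ≠ 0 → l = i ∨ l = j) →
      p ∈ per P i k ∨ p ∈ per P k j := by
  classical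
  let S : Finset (Fin n) := Finset.univ.filter
    (fun l => i < l ∧ l < j ∧ ∃ p ∈ P, p i ≠ 0 ∧ p l ≠ 0)
  let k : Fin n := if h : S.Nonempty then S.max' h else ⟨i.val + 1, by have := j.isLt; omega⟩
  have hk1 : i < k ∧ k < j := by
    by_cases h : S.Nonempty
    · have h1 : S.max' h ∈ S := S.max'_mem h
      simp only [S, Finset.mem_filter, Finset.mem_univ, true_and] at h1
      simp only [k, dif_pos h]
      exact ⟨h1.1, h1.2.1⟩
    · simp only [k, dif_neg h]
      constructor
      · rw [Fin.lt_def]; simp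
      · rw [Fin.lt_def]; exact hij
  refine ⟨k, hk1.1, hk1.2, ?_⟩
  intro p hp hn
  by_cases hpi : p i = 0
  · by_contra hcon
    rw [not_or] at hcon
    obtain ⟨hc1, hc2⟩ := hcon
    have h1 : ∃ b, p b ≠ 0 ∧ k < b := by
      by_contra h'
      push Not at h'
      exact hc1 ⟨hp.1, fun l hl => ⟨(hp.2 l hl).1, h' l hl⟩⟩
    have h2 : ∃ a, p a ≠ 0 ∧ a < k := by
      by_contra h'
      push Not at h'
      exact hc2 ⟨hp.1, fun l hl => ⟨h' l hl, (hp.2 l hl).2⟩⟩
    obtain ⟨b, hb, hkb⟩ := h1
    obtain ⟨a, ha, hak⟩ := h2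
    have hia : i < a := by
      refine lt_of_le_of_ne (hp.2 a ha).1 ?_
      rintro rfl
      exact ha hpi
    by_cases h : S.Nonempty
    · have h1 : S.max' h ∈ S := S.max'_mem h
      have hk : k = S.max' h := by simp only [k, dif_pos h]
      rw [← hk] at h1
      simp only [S, Finset.mem_filter, Finset.mem_univ, true_and] at h1
      obtain ⟨_, _, r, hr, hri, hrk⟩ := h1
      exact hs.noncross r hr p hp.1 i a k b hia hak hkb hri hrk ha hb
    · have hk : k.val = i.val + 1 := by simp only [k, dif_neg h]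
      rw [Fin.lt_def] at hia hak
      omega
  · left
    refine ⟨hp.1, fun l hl => ⟨(hp.2 l hl).1, ?_⟩⟩
    have h3 : ∀ l, p l ≠ 0 → i < l → l < j → l ≤ k := by
      intro l hl hil hlj
      have h4 : l ∈ S := by
        simp only [S, Finset.mem_filter, Finset.mem_univ, true_and]
        exact ⟨hil, hlj, p, hp.1, hpi, hl⟩
      have h5 : S.Nonempty := ⟨l, h4⟩
      simp only [k, dif_pos h5]
      exact S.le_max' l h4
    by_cases hli : l = i
    · rw [hli]; exact hk1.1.le
    have hil : i < l := lt_of_le_of_ne (hp.2 l hl).1 (Ne.symm hli)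
    by_cases hlj : l = j
    · exfalso
      apply hn
      intro m hm
      by_contra hm'
      rw [not_or] at hm'
      have h6 : i < m := lt_of_le_of_ne (hp.2 m hm).1 (Ne.symm hm'.1)
      have h7 : m < j := lt_of_le_of_ne (hp.2 m hm).2 hm'.2
      exact hs.two p hp.1 i m j h6 h7 hpi hm (hlj ▸ hl)
    · exact h3 l hl hil (lt_of_le_of_ne (hp.2 l hl).2 hlj)

lemma Der.complete {q : Ind n} (hq : q ∈ F) (hs : Stratified q.2) :
    ∀ (m : ℕ) (i j : Fin n), i ≤ j → j.val - i.val = m → ∀ y ∈ AddSubmonoid.closure (per q.2 i j),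
      Der hF hP q i j (cr q.1 i j + y) := by
  intro m
  induction m using Nat.strong_induction_on with
  | _ m ih =>
    intro i j hij hm y hy
    let A : Set (Fin n → ℕ) := {p | p ∈ q.2 ∧ ∀ l, p l ≠ 0 → l = i ∨ l = j}
    let B : Set (Fin n → ℕ) := {p | p ∈ per q.2 i j ∧ ¬ (∀ l, p l ≠ 0 → l = i ∨ l = j)}
    have hsub : per q.2 i j ⊆ A ∪ B := by
      intro p hp
      by_cases h : ∀ l, p l ≠ 0 → l = i ∨ l = j
      · exact Or.inl ⟨hp.1, h⟩
      · exact Or.inr ⟨hp, h⟩
    have hy2 : y ∈ AddSubmonoid.closure A ⊔ AddSubmonoid.closure B := by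
      rw [← AddSubmonoid.closure_union]
      exact AddSubmonoid.closure_mono hsub hy
    obtain ⟨z, hz, y', hy', rfl⟩ := AddSubmonoid.mem_sup.mp hy2
    -- the remaining part
    have key : Der hF hP q i j (cr q.1 i j + y') := by
      by_cases hcase : i.val + 1 < j.val
      · obtain ⟨k, hik, hkj, hk⟩ := exists_split hs hcase
        have hsub2 : B ⊆ per q.2 i k ∪ per q.2 k j := by
          intro p hp
          exact hk p hp.1 hp.2
        have hy3 : y' ∈ AddSubmonoid.closure (per q.2 i k) ⊔
            AddSubmonoid.closure (per q.2 k j) := by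
          rw [← AddSubmonoid.closure_union]
          exact AddSubmonoid.closure_mono hsub2 hy'
        obtain ⟨y1, hy1, y2, hy4, rfl⟩ := AddSubmonoid.mem_sup.mp hy3
        have hik' := hik
        have hkj' := hkj
        rw [Fin.lt_def] at hik' hkj'
        have h1 := ih (k.val - i.val) (by omega) i k hik.le rfl y1 hy1
        have h2 := ih (j.val - k.val) (by omega) k j hkj.le rfl y2 hy4
        have h3 := Der.split hq hik hkj (fun l hl => (supp_tot hy1 l hl).2)
          (fun l hl => (supp_tot hy4 l hl).1) h1 h2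
        rw [cr_split q.1 hik.le hkj.le]
        have e : cr q.1 i k + cr q.1 k j + (y1 + y2) =
            cr q.1 i k + y1 + (cr q.1 k j + y2) := by abel
        rw [e]
        exact h3
      · have hB : B = ∅ := by
          rw [Set.eq_empty_iff_forall_notMem]
          rintro p ⟨hp, hn⟩
          apply hn
          intro l hl
          have h1 := hp.2 l hl
          rw [Fin.le_def, Fin.le_def] at h1
          by_cases h2 : l.val = i.val
          · exact Or.inl (Fin.ext h2)
          · exact Or.inr (Fin.ext (by omega))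
        rw [hB, AddSubmonoid.closure_empty, AddSubmonoid.mem_bot] at hy'
        subst hy'
        rw [add_zero]
        by_cases h2 : i = j
        · subst h2
          rw [cr_self]
          exact Der.stop hq i
        · have h3 : i < j := lt_of_le_of_ne hij h2
          rw [Fin.lt_def] at h3
          exact Der.succ hq (by omega)
    have hsupp : ∀ l, (cr q.1 i j + y') l ≠ 0 → i ≤ l ∧ l ≤ j := by
      intro l hl
      refine supp_tot (P := q.2) ?_ l hl
      exact AddSubmonoid.closure_mono (fun p hp => hp.1) hy'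
    have h := (Der.pumps hq hij hz hsupp key).2
    have e : cr q.1 i j + (z + y') = z + (cr q.1 i j + y') := by abel
    rw [e]
    exact h

lemma derives_start {q : Ind n} (hq : q ∈ F) (hs : Stratified q.2) {x : Fin n → ℕ}
    (hx : x ∈ LS q.1 q.2) :
    (gram F hF hP).Derives [Symbol.nonterminal none] ((wordOf x).map Symbol.terminal) := by
  rcases Nat.eq_zero_or_pos n with h0 | h0
  · have h1 := step hF hP (IsRule.start0 q hq h0)
    have h2 : wordOf x = [] := by
      subst h0
      cases hw : wordOf x with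
      | nil => rfl
      | cons a _ => exact a.elim0
    rw [h2]
    exact h1
  · obtain ⟨y, hy, rfl⟩ := hx
    let i : Fin n := ⟨0, h0⟩
    let j : Fin n := ⟨n - 1, by omega⟩
    have hi : ∀ l, i ≤ l := fun l => by rw [Fin.le_def]; exact Nat.zero_le _
    have hj : ∀ l, l ≤ j := fun l => by
      rw [Fin.le_def]
      have := l.isLt
      simp only [j]
      omega
    have h1 := step hF hP (IsRule.start q hq i j hi hj)
    have hsub : q.2 ⊆ per q.2 i j := fun p hp => ⟨hp, fun l _ => ⟨hi l, hj l⟩⟩
    have hy' : y ∈ AddSubmonoid.closure (per q.2 i j) := AddSubmonoid.closure_mono hsub hy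
    have h2 := (Der.complete (hF := hF) (hP := hP) hq hs _ i j (hi j) rfl y hy').append_left
      (blk i (q.1 i))
    have h3 := (rep_replicate i (q.1 i)).append (rep_wordOf (cr q.1 i j + y))
      (fun a b ha hb => by rw [single_ne ha]; exact hi b)
    have e : q.1 + y = Pi.single i (q.1 i) + (cr q.1 i j + y) := by
      ext l
      simp only [Pi.add_apply, cr, Pi.single_apply]
      by_cases hl : l = i
      · subst hl; simp
      · have h1 : i < l := lt_of_le_of_ne (hi l) (Ne.symm hl)
        simp [hl, h1, hj l]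
    rw [e, ← h3.eq, List.map_append]
    exact h1.trans h2

end complete

end grammar

end GS1

/-- Finite unions of stratified linear sets give context-free languages. -/
theorem StratUnion.isContextFree {n : ℕ} {X : Set (Fin n → ℕ)} (h : StratUnion X) :
    (langOf X).IsContextFree := by
  obtain ⟨F, hF, hFP, hX⟩ := h
  have hP : ∀ q ∈ F, q.2.Finite := fun q hq => (hFP q hq).1
  refine ⟨GS1.gram F hF hP, ?_⟩
  apply le_antisymm
  · have h1 : (GS1.gram F hF hP).language ≤ GS1.L F none :=
      GS1.language_le (g := GS1.gram F hF hP) (L := GS1.L F) (fun ρ hρ => by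
        have hρ' : GS1.IsRule F ρ := (GS1.finite_rules hF hP).mem_toFinset.mp hρ
        exact GS1.sound_rule hρ')
    refine h1.trans ?_
    rintro w ⟨q, hq, x, hx, hw⟩
    exact ⟨x, (hX x).mpr ⟨q, hq, hx⟩, hw.eq⟩
  · rintro w ⟨x, hx, rfl⟩
    obtain ⟨q, hq, hx'⟩ := (hX x).mp hx
    exact GS1.derives_start hq (hFP q hq).2 hx'

end Pool.Agent.MP2a1ef3
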