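import Pool.Agent.Lib.MP_2a1ef3_lc.Defs
import Pool.Agent.Lib.MP_5ca50a_lc.BGram

/-!
Ginsburg-Spanier, necessity: if the bounded language of `X` is context-free then `X` is a finite
union of stratified linear sets.
-/

set_option autoImplicit false

namespace Pool.Agent.MP2a1ef3

open Pool.Agent.MP5ca50a

/-- Parse trees. -/
inductive PT (T N : Type) : Type
  | eps (A : N) : PT T N
  | ter (A : N) (a : T) : PT T N
  | bin (A : N) (l r : PT T N) : PT T N

/-- One step of a path in a tree (the hole is the left resp. right child). -/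
inductive PStep (T N : Type) : Type
  | lft (A : N) (sib : PT T N) : PStep T N
  | rgt (A : N) (sib : PT T N) : PStep T N

variable {T N : Type}

namespace PT

/-- Label of the root. -/
def root : PT T N → N
  | eps A => A
  | ter A _ => A
  | bin A _ _ => A

/-- The word. -/
def yield : PT T N → List T
  | eps _ => []
  | ter _ a => [a]
  | bin _ l r => l.yield ++ r.yield

/-- Validity with respect to a grammar. -/
def valid (g : BG T N) : PT T N → Prop
  | eps A => g.e A
  | ter A a => g.t A a
  | bin A l r => g.b A l.root r.root ∧ l.valid g ∧ r.valid g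

/-- The set of labels. -/
def labs : PT T N → Set N
  | eps A => {A}
  | ter A _ => {A}
  | bin A l r => {A} ∪ l.labs ∪ r.labs

/-- Height. -/
def height : PT T N → ℕ
  | eps _ => 0
  | ter _ _ => 0
  | bin _ l r => max l.height r.height + 1

/-- Size. -/
def size : PT T N → ℕ
  | eps _ => 0
  | ter _ _ => 0
  | bin _ l r => l.size + r.size + 1

lemma root_mem (τ : PT T N) : τ.root ∈ τ.labs := by
  cases τ <;> simp [root, labs]

lemma der_of_valid {g : BG T N} : ∀ {τ : PT T N}, τ.valid g → g.Der τ.root τ.yield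
  | eps _, h => BG.Der.eps h
  | ter _ _, h => BG.Der.ter h
  | bin _ _ _, h => BG.Der.bin h.1 (der_of_valid h.2.1) (der_of_valid h.2.2)

lemma exists_of_der {g : BG T N} {A : N} {w : List T} (h : g.Der A w) :
    ∃ τ : PT T N, τ.valid g ∧ τ.root = A ∧ τ.yield = w := by
  induction h with
  | @eps A h => exact ⟨eps A, h, rfl, rfl⟩
  | @ter A a h => exact ⟨ter A a, h, rfl, rfl⟩
  | @bin A B C w w' h _ _ ih1 ih2 =>
    obtain ⟨τ1, v1, r1, y1⟩ := ih1
    obtain ⟨τ2, v2, r2, y2⟩ := ih2
    exact ⟨bin A τ1 τ2, ⟨by rw [r1, r2]; exact h, v1, v2⟩, rfl, by simp [yield, y1, y2]⟩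

lemma yield_length (τ : PT T N) : τ.yield.length ≤ 2 ^ τ.height := by
  induction τ with
  | eps A => simp [yield, height]
  | ter A a => simp [yield, height]
  | bin A l r ihl ihr =>
    simp only [yield, height, List.length_append]
    have h1 : 2 ^ l.height ≤ 2 ^ (max l.height r.height) :=
      Nat.pow_le_pow_right (by norm_num) (le_max_left _ _)
    have h2 : 2 ^ r.height ≤ 2 ^ (max l.height r.height) :=
      Nat.pow_le_pow_right (by norm_num) (le_max_right _ _)
    rw [pow_succ]
    omega

end PT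

namespace PStep

/-- Label of a step. -/
def lab : PStep T N → N
  | lft A _ => A
  | rgt A _ => A

/-- All labels of a step. -/
def labs : PStep T N → Set N
  | lft A s => {A} ∪ s.labs
  | rgt A s => {A} ∪ s.labs

/-- Fill the hole. -/
def plug : PStep T N → PT T N → PT T N
  | lft A s, τ => PT.bin A τ s
  | rgt A s, τ => PT.bin A s τ

/-- Word to the left of the hole. -/
def lw : PStep T N → List T
  | lft _ _ => []
  | rgt _ s => s.yield

/-- Word to the right of the hole. -/
def rw : PStep T N → List T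
  | lft _ s => s.yield
  | rgt _ _ => []

end PStep

/-- Fill the hole of a path. -/
def plug (l : List (PStep T N)) (τ : PT T N) : PT T N := l.foldr PStep.plug τ

/-- Labels of a path. -/
def plabs : List (PStep T N) → Set N
  | [] => ∅
  | a :: l => a.labs ∪ plabs l

/-- Word to the left of a path. -/
def lword : List (PStep T N) → List T
  | [] => []
  | a :: l => a.lw ++ lword l

/-- Word to the right of a path. -/
def rword : List (PStep T N) → List T
  | [] => []
  | a :: l => rword l ++ a.rw

@[simp] lemma plug_nil (τ : PT T N) : plug [] τ = τ := rfl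

@[simp] lemma plug_cons (a : PStep T N) (l : List (PStep T N)) (τ : PT T N) :
    plug (a :: l) τ = a.plug (plug l τ) := rfl

lemma plug_append (l l' : List (PStep T N)) (τ : PT T N) :
    plug (l ++ l') τ = plug l (plug l' τ) := by
  simp [plug, List.foldr_append]

lemma plabs_append (l l' : List (PStep T N)) : plabs (l ++ l') = plabs l ∪ plabs l' := by
  induction l with
  | nil => simp [plabs]
  | cons a l ih => simp [plabs, ih, Set.union_assoc]

lemma root_plug_cons (a : PStep T N) (l : List (PStep T N)) (τ : PT T N) :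
    (plug (a :: l) τ).root = a.lab := by
  cases a <;> rfl

lemma labs_plug (l : List (PStep T N)) (τ : PT T N) : (plug l τ).labs = plabs l ∪ τ.labs := by
  induction l with
  | nil => simp [plabs]
  | cons a l ih =>
    cases a with
    | lft A s =>
      simp only [plug_cons, PStep.plug, PT.labs, plabs, PStep.labs, ih]
      ext x
      simp only [Set.mem_union]
      tauto
    | rgt A s =>
      simp only [plug_cons, PStep.plug, PT.labs, plabs, PStep.labs, ih]
      ext x
      simp only [Set.mem_union]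
      tauto

lemma yield_plug (l : List (PStep T N)) (τ : PT T N) :
    (plug l τ).yield = lword l ++ τ.yield ++ rword l := by
  induction l with
  | nil => simp [lword, rword]
  | cons a l ih =>
    cases a with
    | lft A s => simp [PStep.plug, PT.yield, lword, rword, PStep.lw, PStep.rw, ih]
    | rgt A s => simp [PStep.plug, PT.yield, lword, rword, PStep.lw, PStep.rw, ih]

lemma valid_of_plug {g : BG T N} {l : List (PStep T N)} {τ : PT T N}
    (h : (plug l τ).valid g) : τ.valid g := by
  induction l with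
  | nil => exact h
  | cons a l ih =>
    cases a with
    | lft A s => exact ih h.2.1
    | rgt A s => exact ih h.2.2

lemma root_plug_congr (l : List (PStep T N)) {τ τ' : PT T N} (h : τ.root = τ'.root) :
    (plug l τ).root = (plug l τ').root := by
  cases l with
  | nil => exact h
  | cons a l => rw [root_plug_cons, root_plug_cons]

lemma valid_plug_congr {g : BG T N} {l : List (PStep T N)} {τ τ' : PT T N}
    (h : (plug l τ).valid g) (hr : τ.root = τ'.root) (hv : τ'.valid g) :
    (plug l τ').valid g := by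
  induction l with
  | nil => exact hv
  | cons a l ih =>
    cases a with
    | lft A s =>
      obtain ⟨h1, h2, h3⟩ := h
      refine ⟨?_, ih h2, h3⟩
      show g.b A (plug l τ').root s.root
      rw [← root_plug_congr l hr]
      exact h1
    | rgt A s =>
      obtain ⟨h1, h2, h3⟩ := h
      refine ⟨?_, h2, ih h3⟩
      show g.b A s.root (plug l τ').root
      rw [← root_plug_congr l hr]
      exact h1

lemma size_plug_le (l : List (PStep T N)) {τ τ' : PT T N} (h : τ.size ≤ τ'.size) :
    (plug l τ).size ≤ (plug l τ').size := by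
  induction l with
  | nil => exact h
  | cons a l ih =>
    cases a with
    | lft A s => simp only [plug_cons, PStep.plug, PT.size]; omega
    | rgt A s => simp only [plug_cons, PStep.plug, PT.size]; omega

lemma size_plug_lt (l : List (PStep T N)) {τ τ' : PT T N} (h : τ.size < τ'.size) :
    (plug l τ).size < (plug l τ').size := by
  induction l with
  | nil => exact h
  | cons a l ih =>
    cases a with
    | lft A s => simp only [plug_cons, PStep.plug, PT.size]; omega
    | rgt A s => simp only [plug_cons, PStep.plug, PT.size]; omega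

lemma le_size_plug (l : List (PStep T N)) (τ : PT T N) : τ.size ≤ (plug l τ).size := by
  induction l with
  | nil => exact le_rfl
  | cons a l ih =>
    cases a with
    | lft A s => simp only [plug_cons, PStep.plug, PT.size]; omega
    | rgt A s => simp only [plug_cons, PStep.plug, PT.size]; omega

lemma lt_size_plug (a : PStep T N) (l : List (PStep T N)) (τ : PT T N) :
    τ.size < (plug (a :: l) τ).size := by
  have := le_size_plug l τ
  cases a with
  | lft A s => simp only [plug_cons, PStep.plug, PT.size]; omega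
  | rgt A s => simp only [plug_cons, PStep.plug, PT.size]; omega

/-- The derivation context of a path. -/
lemma dc_of_plug {g : BG T N} {l : List (PStep T N)} {τ : PT T N}
    (h : (plug l τ).valid g) : g.DC (plug l τ).root (lword l) (rword l) τ.root := by
  induction l with
  | nil => exact BG.DC.refl _
  | cons a l ih =>
    cases a with
    | lft A s =>
      obtain ⟨h1, h2, h3⟩ := h
      exact BG.DC.left h1 (PT.der_of_valid h3) (ih h2)
    | rgt A s =>
      obtain ⟨h1, h2, h3⟩ := h
      have := BG.DC.right h1 (PT.der_of_valid h2) (ih h3)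
      show g.DC A (s.yield ++ lword l) (rword l ++ []) τ.root
      rw [List.append_nil]
      exact this

lemma exists_occ {B : N} : ∀ {τ : PT T N}, B ∈ τ.labs →
    ∃ (l : List (PStep T N)) (σ : PT T N), τ = plug l σ ∧ σ.root = B := by
  intro τ
  induction τ with
  | eps A => intro h; exact ⟨[], _, rfl, h.symm⟩
  | ter A a => intro h; exact ⟨[], _, rfl, h.symm⟩
  | bin A l r ihl ihr =>
    rintro ((h | h) | h)
    · exact ⟨[], _, rfl, h.symm⟩
    · obtain ⟨p, σ, h1, h2⟩ := ihl h
      exact ⟨PStep.lft A r :: p, σ, by rw [plug_cons, ← h1]; rfl, h2⟩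
    · obtain ⟨p, σ, h1, h2⟩ := ihr h
      exact ⟨PStep.rgt A l :: p, σ, by rw [plug_cons, ← h1]; rfl, h2⟩

lemma exists_sub (M : ℕ) : ∀ τ : PT T N, M ≤ τ.height →
    ∃ (l : List (PStep T N)) (σ : PT T N), τ = plug l σ ∧ σ.height = M := by
  intro τ
  induction τ with
  | eps A => intro h; exact ⟨[], _, rfl, by simp [PT.height] at h ⊢; omega⟩
  | ter A a => intro h; exact ⟨[], _, rfl, by simp [PT.height] at h ⊢; omega⟩
  | bin A l r ihl ihr =>
    intro h
    by_cases hM : M = max l.height r.height + 1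
    · exact ⟨[], _, rfl, hM.symm⟩
    · simp only [PT.height] at h
      have h2 : M ≤ max l.height r.height := by omega
      rcases le_max_iff.1 h2 with h3 | h3
      · obtain ⟨p, σ, h1, h2⟩ := ihl h3
        exact ⟨PStep.lft A r :: p, σ, by rw [plug_cons, ← h1]; rfl, h2⟩
      · obtain ⟨p, σ, h1, h2⟩ := ihr h3
        exact ⟨PStep.rgt A l :: p, σ, by rw [plug_cons, ← h1]; rfl, h2⟩

lemma exists_path : ∀ τ : PT T N,
    ∃ (l : List (PStep T N)) (σ : PT T N), τ = plug l σ ∧ l.length = τ.height := by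
  intro τ
  induction τ with
  | eps A => exact ⟨[], _, rfl, rfl⟩
  | ter A a => exact ⟨[], _, rfl, rfl⟩
  | bin A l r ihl ihr =>
    rcases le_total r.height l.height with h | h
    · obtain ⟨p, σ, h1, h2⟩ := ihl
      refine ⟨PStep.lft A r :: p, σ, by rw [plug_cons, ← h1]; rfl, ?_⟩
      simp only [PT.height, List.length_cons, h2]
      omega
    · obtain ⟨p, σ, h1, h2⟩ := ihr
      refine ⟨PStep.rgt A l :: p, σ, by rw [plug_cons, ← h1]; rfl, ?_⟩
      simp only [PT.height, List.length_cons, h2]
      omega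

lemma exists_dup (l : List (PStep T N)) (h : ¬ (l.map PStep.lab).Nodup) :
    ∃ (l1 : List (PStep T N)) (a : PStep T N) (l2 : List (PStep T N)) (b : PStep T N)
      (l3 : List (PStep T N)), l = l1 ++ (a :: l2) ++ (b :: l3) ∧ a.lab = b.lab := by
  induction l with
  | nil => simp at h
  | cons a l ih =>
    rw [List.map_cons, List.nodup_cons] at h
    by_cases h1 : a.lab ∈ l.map PStep.lab
    · obtain ⟨b, hb, hab⟩ := List.mem_map.1 h1
      obtain ⟨l2, l3, rfl⟩ := List.append_of_mem hb
      exact ⟨[], a, l2, b, l3, rfl, hab.symm⟩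
    · have h2 : ¬ (l.map PStep.lab).Nodup := fun h2 => h ⟨h1, h2⟩
      obtain ⟨l1, a', l2, b, l3, rfl, hab⟩ := ih h2
      exact ⟨a :: l1, a', l2, b, l3, rfl, hab⟩

lemma exists_dup' [Fintype N] (l : List (PStep T N)) (h : Fintype.card N + 1 ≤ l.length) :
    ∃ (l1 : List (PStep T N)) (a : PStep T N) (l2 : List (PStep T N)) (b : PStep T N)
      (l3 : List (PStep T N)), l = l1 ++ (a :: l2) ++ (b :: l3) ∧ a.lab = b.lab := by
  apply exists_dup
  intro h1
  have := h1.length_le_card
  rw [List.length_map] at this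
  omega

lemma window [Fintype N] : ∀ (k : ℕ) (U : Set N), Uᶜ.ncard ≤ k → ∀ l : List (PStep T N),
    (k + 1) * (Fintype.card N + 1) ≤ l.length →
    ∃ (l1 : List (PStep T N)) (a : PStep T N) (l2 : List (PStep T N)) (b : PStep T N)
      (l3 : List (PStep T N)), l = l1 ++ (a :: l2) ++ (b :: l3) ∧ a.lab = b.lab ∧
      plabs (a :: l2) ⊆ U ∪ plabs l1 := by
  intro k
  induction k with
  | zero =>
    intro U hU l hl
    obtain ⟨l1, a, l2, b, l3, h1, h2⟩ := exists_dup' l (by simpa using hl)
    refine ⟨l1, a, l2, b, l3, h1, h2, ?_⟩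
    have h3 : Uᶜ = ∅ := by
      rw [← Set.ncard_eq_zero (Set.toFinite _)]
      omega
    have h4 : U = Set.univ := by simpa using h3
    rw [h4]
    simp
  | succ k ih =>
    intro U hU l hl
    set m := Fintype.card N + 1 with hm
    have hlen : (k + 1) * m + m ≤ l.length := by
      have : (k + 1 + 1) * m = (k + 1) * m + m := by ring
      omega
    have htake : (l.take m).length = m := by
      rw [List.length_take]
      have := Nat.zero_le ((k + 1) * m)
      omega
    by_cases hsub : plabs (l.take m) ⊆ U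
    · obtain ⟨l1, a, l2, b, l3, h1, h2⟩ := exists_dup' (l.take m) (by omega)
      refine ⟨l1, a, l2, b, l3 ++ l.drop m, ?_, h2, ?_⟩
      · conv_lhs => rw [← List.take_append_drop m l, h1]
        simp
      · intro x hx
        left
        apply hsub
        rw [h1, plabs_append, plabs_append]
        exact Or.inl (Or.inr hx)
    · obtain ⟨l1, a, l2, b, l3, h1, h2, h3⟩ := ih (U ∪ plabs (l.take m)) (by
        have hss : (U ∪ plabs (l.take m))ᶜ ⊂ Uᶜ := by
          refine ⟨Set.compl_subset_compl.2 Set.subset_union_left, fun h => hsub ?_⟩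
          rw [Set.compl_subset_compl] at h
          exact Set.subset_union_right.trans h
        have := Set.ncard_lt_ncard hss (Set.toFinite _)
        omega) (l.drop m) (by rw [List.length_drop]; omega)
      refine ⟨l.take m ++ l1, a, l2, b, l3, ?_, h2, ?_⟩
      · conv_lhs => rw [← List.take_append_drop m l, h1]
        simp
      · rw [plabs_append, ← Set.union_assoc]
        exact h3

/-- The Parikh vector. -/
def vec {n : ℕ} (w : List (Fin n)) : Fin n → ℕ := fun i => w.count i

section pumps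

variable {n : ℕ} (g : BG (Fin n) N)

/-- Pump vectors of the labels in `U`. -/
def pumps (U : Set N) : Set (Fin n → ℕ) :=
  {p | ∃ l : List (PStep (Fin n) N), ∃ B ∈ U, plabs l ⊆ U ∧
    (∀ σ : PT (Fin n) N, σ.root = B → σ.valid g → (plug l σ).valid g ∧ (plug l σ).root = B) ∧
    p = vec (lword l ++ rword l)}

variable {g}

/-- Insertion of a pump. -/
lemma insert_pump {τ : PT (Fin n) N} (hτ : τ.valid g) {p : Fin n → ℕ}
    (hp : p ∈ pumps g τ.labs) :
    ∃ τ' : PT (Fin n) N, τ'.valid g ∧ τ'.root = τ.root ∧ τ'.labs = τ.labs ∧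
      vec τ'.yield = vec τ.yield + p := by
  obtain ⟨l, B, hB, hl, hpl, rfl⟩ := hp
  obtain ⟨l0, σ, h1, h2⟩ := exists_occ hB
  have hσ : σ.valid g := valid_of_plug (l := l0) (h1 ▸ hτ)
  obtain ⟨h3, h4⟩ := hpl σ h2 hσ
  have hroot : σ.root = (plug l σ).root := by rw [h2, h4]
  refine ⟨plug l0 (plug l σ), valid_plug_congr (h1 ▸ hτ) hroot h3, ?_, ?_, ?_⟩
  · conv_rhs => rw [h1]
    exact (root_plug_congr l0 hroot).symm
  · rw [labs_plug, labs_plug]
    have h5 : τ.labs = plabs l0 ∪ σ.labs := by rw [h1, labs_plug]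
    rw [← Set.union_assoc, Set.union_right_comm, ← h5]
    exact Set.union_eq_left.2 hl
  · have h6 : τ.yield = lword l0 ++ σ.yield ++ rword l0 := by rw [h1, yield_plug]
    rw [h6, yield_plug, yield_plug]
    funext i
    simp only [vec, List.count_append, Pi.add_apply]
    omega

lemma insert_closure {τ : PT (Fin n) N} (hτ : τ.valid g) {P : Set (Fin n → ℕ)}
    (hP : P ⊆ pumps g τ.labs) {y : Fin n → ℕ} (hy : y ∈ AddSubmonoid.closure P) :
    ∃ τ' : PT (Fin n) N, τ'.valid g ∧ τ'.root = τ.root ∧ τ'.labs = τ.labs ∧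
      vec τ'.yield = vec τ.yield + y := by
  induction hy using AddSubmonoid.closure_induction_right with
  | zero => exact ⟨τ, hτ, rfl, rfl, by simp⟩
  | add_right x _ p hp ih =>
    obtain ⟨τ1, h1, h2, h3, h4⟩ := ih
    obtain ⟨τ2, k1, k2, k3, k4⟩ := insert_pump h1 (by rw [h3]; exact hP hp)
    exact ⟨τ2, k1, k2.trans h2, k3.trans h3, by rw [k4, h4, add_assoc]⟩

/-- Removal of a pump. -/
lemma descend [Fintype N] {τ : PT (Fin n) N} (hτ : τ.valid g)
    (hh : (Fintype.card N + 1) * (Fintype.card N + 1) ≤ τ.height) :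
    ∃ (τ' : PT (Fin n) N) (p : Fin n → ℕ), τ'.valid g ∧ τ'.root = τ.root ∧ τ'.labs = τ.labs ∧
      τ'.size < τ.size ∧ vec τ.yield = vec τ'.yield + p ∧ p ∈ pumps g τ.labs ∧
      ∀ i, p i ≤ 2 ^ ((Fintype.card N + 1) * (Fintype.card N + 1)) := by
  obtain ⟨l0, σ', h1, h2⟩ := exists_sub _ τ hh
  obtain ⟨l, σ, h3, h4⟩ := exists_path σ'
  obtain ⟨l1, a, l2, b, l3, h5, h6, h7⟩ := window (Fintype.card N) (∅ : Set N) (by
    rw [Set.compl_empty, Set.ncard_univ, Nat.card_eq_fintype_card]) l (by rw [h4, h2])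
  obtain ⟨τ1, hτ1⟩ : ∃ τ1, τ1 = plug (b :: l3) σ := ⟨_, rfl⟩
  have e1 : σ' = plug (l1 ++ (a :: l2)) τ1 := by
    rw [h3, h5, plug_append, hτ1]
  have e2 : τ = plug (l0 ++ l1) (plug (a :: l2) τ1) := by
    rw [h1, e1, plug_append, plug_append]
  have hroot : (plug (a :: l2) τ1).root = τ1.root := by
    rw [root_plug_cons, hτ1, root_plug_cons, h6]
  have v2 : (plug (a :: l2) τ1).valid g := valid_of_plug (l := l0 ++ l1) (e2 ▸ hτ)
  have v1 : τ1.valid g := valid_of_plug v2
  have hlabs : τ.labs = plabs (l0 ++ l1) ∪ (plabs (a :: l2) ∪ τ1.labs) := by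
    rw [e2, labs_plug, labs_plug]
  rw [Set.empty_union] at h7
  refine ⟨plug (l0 ++ l1) τ1, vec (lword (a :: l2) ++ rword (a :: l2)),
    valid_plug_congr (e2 ▸ hτ) hroot v1, ?_, ?_, ?_, ?_, ?_, ?_⟩
  · conv_rhs => rw [e2]
    exact (root_plug_congr _ hroot).symm
  · rw [hlabs, labs_plug]
    ext x
    simp only [Set.mem_union]
    constructor
    · rintro (h | h)
      · exact Or.inl h
      · exact Or.inr (Or.inr h)
    · rintro (h | h | h)
      · exact Or.inl h
      · left
        rw [plabs_append]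
        exact Or.inr (h7 h)
      · exact Or.inr h
  · conv_rhs => rw [e2]
    exact size_plug_lt _ (lt_size_plug _ _ _)
  · have h8 : τ.yield = lword (l0 ++ l1) ++
        (lword (a :: l2) ++ τ1.yield ++ rword (a :: l2)) ++ rword (l0 ++ l1) := by
      rw [e2, yield_plug, yield_plug]
    rw [h8, yield_plug]
    funext i
    simp only [vec, List.count_append, Pi.add_apply]
    omega
  · refine ⟨a :: l2, τ1.root, ?_, ?_, ?_, rfl⟩
    · rw [hlabs]
      exact Or.inr (Or.inr τ1.root_mem)
    · rw [hlabs]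
      exact Set.subset_union_left.trans Set.subset_union_right
    · intro ρ hρ hv
      refine ⟨valid_plug_congr v2 hρ.symm hv, ?_⟩
      rw [root_plug_cons, ← h6.symm, hτ1, root_plug_cons]
  · intro i
    have h9 : σ'.yield = lword l1 ++
        (lword (a :: l2) ++ τ1.yield ++ rword (a :: l2)) ++ rword l1 := by
      rw [e1, plug_append, yield_plug, yield_plug]
    have h10 := PT.yield_length σ'
    rw [h2, h9] at h10
    have h11 : vec (lword (a :: l2) ++ rword (a :: l2)) i ≤
        (lword (a :: l2) ++ rword (a :: l2)).length := List.count_le_length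
    simp only [List.length_append] at h10 h11
    omega

/-- The decomposition of a tree. -/
lemma decomp [Fintype N] : ∀ (m : ℕ) (τ : PT (Fin n) N), τ.size ≤ m → τ.valid g →
    ∃ (τ' : PT (Fin n) N) (y : Fin n → ℕ), τ'.valid g ∧ τ'.root = τ.root ∧ τ'.labs = τ.labs ∧
      vec τ.yield = vec τ'.yield + y ∧
      (∀ i, vec τ'.yield i ≤ 2 ^ ((Fintype.card N + 1) * (Fintype.card N + 1))) ∧
      y ∈ AddSubmonoid.closure {p | p ∈ pumps g τ.labs ∧
        ∀ i, p i ≤ 2 ^ ((Fintype.card N + 1) * (Fintype.card N + 1))} := by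
  intro m
  induction m with
  | zero =>
    intro τ hm hτ
    refine ⟨τ, 0, hτ, rfl, rfl, by simp, ?_, AddSubmonoid.zero_mem _⟩
    intro i
    have h1 : τ.height = 0 := by
      cases τ with
      | eps A => rfl
      | ter A a => rfl
      | bin A l r => simp [PT.size] at hm
    have h2 := τ.yield_length
    have h3 : vec τ.yield i ≤ τ.yield.length := List.count_le_length
    rw [h1] at h2
    have h4 : 1 ≤ 2 ^ ((Fintype.card N + 1) * (Fintype.card N + 1)) := Nat.one_le_two_pow
    simp only [pow_zero] at h2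
    omega
  | succ m ih =>
    intro τ hm hτ
    by_cases hh : (Fintype.card N + 1) * (Fintype.card N + 1) ≤ τ.height
    · obtain ⟨τ', p, k1, k2, k3, k4, k5, k6, k7⟩ := descend hτ hh
      obtain ⟨τ'', y, j1, j2, j3, j4, j5, j6⟩ := ih τ' (by omega) k1
      refine ⟨τ'', y + p, j1, j2.trans k2, j3.trans k3, by rw [k5, j4, add_assoc], j5, ?_⟩
      rw [k3] at j6
      exact AddSubmonoid.add_mem _ j6 (AddSubmonoid.subset_closure ⟨k6, k7⟩)
    · refine ⟨τ, 0, hτ, rfl, rfl, by simp, ?_, AddSubmonoid.zero_mem _⟩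
      intro i
      have h2 := τ.yield_length
      have h3 : vec τ.yield i ≤ τ.yield.length := List.count_le_length
      have h4 : 2 ^ τ.height ≤ 2 ^ ((Fintype.card N + 1) * (Fintype.card N + 1)) :=
        Nat.pow_le_pow_right (by norm_num) (by omega)
      omega

end pumps

/-! ### Two pumps -/

/-- The relative position of two labels in a tree. -/
lemma two_occ {g : BG T N} {B D : N} : ∀ {τ : PT T N}, τ.valid g → B ∈ τ.labs → D ∈ τ.labs →
    (∃ a b c d m, g.DC τ.root a b B ∧ g.DC B c d D ∧ g.Der D m) ∨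
    (∃ a b c d m, g.DC τ.root a b D ∧ g.DC D c d B ∧ g.Der B m) ∨
    (∃ a b c m m', g.Der B m ∧ g.Der D m' ∧
      ∀ u v, g.Der B u → g.Der D v → g.Der τ.root (a ++ u ++ c ++ v ++ b)) ∨
    (∃ a b c m m', g.Der B m ∧ g.Der D m' ∧
      ∀ u v, g.Der B u → g.Der D v → g.Der τ.root (a ++ v ++ c ++ u ++ b)) := by
  intro τ
  have key : ∀ {τ : PT T N}, τ.valid g → ∀ {B : N}, B ∈ τ.labs →
      ∃ a b m, g.DC τ.root a b B ∧ g.Der B m := by
    intro τ hτ B hB
    obtain ⟨l, σ, h1, h2⟩ := exists_occ hB
    have h3 := dc_of_plug (l := l) (τ := σ) (g := g) (h1 ▸ hτ)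
    have h4 : σ.valid g := valid_of_plug (l := l) (h1 ▸ hτ)
    rw [← h1, h2] at h3
    have h5 := PT.der_of_valid h4
    rw [h2] at h5
    exact ⟨_, _, _, h3, h5⟩
  induction τ with
  | eps A =>
    intro hτ hB hD
    obtain ⟨a, b, m, h1, h2⟩ := key hτ hD
    have hB' : B = A := hB
    subst hB'
    exact Or.inl ⟨[], [], a, b, m, BG.DC.refl _, h1, h2⟩
  | ter A x =>
    intro hτ hB hD
    obtain ⟨a, b, m, h1, h2⟩ := key hτ hD
    have hB' : B = A := hB
    subst hB'
    exact Or.inl ⟨[], [], a, b, m, BG.DC.refl _, h1, h2⟩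
  | bin A l r ihl ihr =>
    intro hτ hB hD
    obtain ⟨hv1, hv2, hv3⟩ := id hτ
    rcases hB with (hB | hB) | hB
    · obtain ⟨a, b, m, h1, h2⟩ := key hτ hD
      have hB' : B = A := hB
      subst hB'
      exact Or.inl ⟨[], [], a, b, m, BG.DC.refl _, h1, h2⟩
    · rcases hD with (hD | hD) | hD
      · obtain ⟨a, b, m, h1, h2⟩ := key (τ := PT.bin A l r) hτ (Or.inl (Or.inr hB))
        have hD' : D = A := hD
        subst hD'
        exact Or.inr (Or.inl ⟨[], [], a, b, m, BG.DC.refl _, h1, h2⟩)
      · rcases ihl hv2 hB hD with ⟨a, b, c, d, m, h1, h2, h3⟩ | ⟨a, b, c, d, m, h1, h2, h3⟩ |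
          ⟨a, b, c, m, m', h1, h2, h3⟩ | ⟨a, b, c, m, m', h1, h2, h3⟩
        · exact Or.inl ⟨_, _, c, d, m, BG.DC.left hv1 (PT.der_of_valid hv3) h1, h2, h3⟩
        · exact Or.inr (Or.inl ⟨_, _, c, d, m, BG.DC.left hv1 (PT.der_of_valid hv3) h1, h2, h3⟩)
        · refine Or.inr (Or.inr (Or.inl ⟨a, b ++ r.yield, c, m, m', h1, h2, fun u v hu hv => ?_⟩))
          have := BG.Der.bin hv1 (h3 u v hu hv) (PT.der_of_valid hv3)
          simpa [PT.root, List.append_assoc] using this
        · refine Or.inr (Or.inr (Or.inr ⟨a, b ++ r.yield, c, m, m', h1, h2, fun u v hu hv => ?_⟩))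
          have := BG.Der.bin hv1 (h3 u v hu hv) (PT.der_of_valid hv3)
          simpa [PT.root, List.append_assoc] using this
      · obtain ⟨a, b, m, h1, h2⟩ := key hv2 hB
        obtain ⟨a', b', m', h1', h2'⟩ := key hv3 hD
        refine Or.inr (Or.inr (Or.inl ⟨a, b', b ++ a', m, m', h2, h2', fun u v hu hv => ?_⟩))
        have := BG.Der.bin hv1 (h1.der hu) (h1'.der hv)
        simpa [PT.root, List.append_assoc] using this
    · rcases hD with (hD | hD) | hD
      · obtain ⟨a, b, m, h1, h2⟩ := key (τ := PT.bin A l r) hτ (Or.inr hB)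
        have hD' : D = A := hD
        subst hD'
        exact Or.inr (Or.inl ⟨[], [], a, b, m, BG.DC.refl _, h1, h2⟩)
      · obtain ⟨a, b, m, h1, h2⟩ := key hv3 hB
        obtain ⟨a', b', m', h1', h2'⟩ := key hv2 hD
        refine Or.inr (Or.inr (Or.inr ⟨a', b, b' ++ a, m, m', h2, h2', fun u v hu hv => ?_⟩))
        have := BG.Der.bin hv1 (h1'.der hv) (h1.der hu)
        simpa [PT.root, List.append_assoc] using this
      · rcases ihr hv3 hB hD with ⟨a, b, c, d, m, h1, h2, h3⟩ | ⟨a, b, c, d, m, h1, h2, h3⟩ |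
          ⟨a, b, c, m, m', h1, h2, h3⟩ | ⟨a, b, c, m, m', h1, h2, h3⟩
        · exact Or.inl ⟨_, _, c, d, m, BG.DC.right hv1 (PT.der_of_valid hv2) h1, h2, h3⟩
        · exact Or.inr (Or.inl ⟨_, _, c, d, m, BG.DC.right hv1 (PT.der_of_valid hv2) h1, h2, h3⟩)
        · refine Or.inr (Or.inr (Or.inl ⟨l.yield ++ a, b, c, m, m', h1, h2, fun u v hu hv => ?_⟩))
          have := BG.Der.bin hv1 (PT.der_of_valid hv2) (h3 u v hu hv)
          simpa [PT.root, List.append_assoc] using this
        · refine Or.inr (Or.inr (Or.inr ⟨l.yield ++ a, b, c, m, m', h1, h2, fun u v hu hv => ?_⟩))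
          have := BG.Der.bin hv1 (PT.der_of_valid hv2) (h3 u v hu hv)
          simpa [PT.root, List.append_assoc] using this

/-! ### Sorted words -/

lemma count_wordOf {n : ℕ} (k : Fin n → ℕ) : vec (wordOf k) = k := by
  funext i
  simp only [vec, wordOf, List.count_flatten, List.map_ofFn, List.sum_ofFn, Function.comp,
    List.count_replicate]
  simp

lemma sorted_wordOf {n : ℕ} (k : Fin n → ℕ) : (wordOf k).Pairwise (· ≤ ·) := by
  rw [wordOf, List.pairwise_flatten]
  constructor
  · intro l hl
    rw [List.mem_ofFn] at hl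
    obtain ⟨i, rfl⟩ := hl
    rw [List.pairwise_replicate]
    exact Or.inr le_rfl
  · rw [List.pairwise_ofFn]
    intro i j hij x hx y hy
    rw [List.eq_of_mem_replicate hx, List.eq_of_mem_replicate hy]
    exact hij.le

section strat

variable {n : ℕ} {g : BG (Fin n) N}

/-- In a sorted word, letters of an earlier factor are at most letters of a later factor. -/
lemma le_of_sorted {a u c v b : List (Fin n)} (h : (a ++ u ++ c ++ v ++ b).Pairwise (· ≤ ·))
    {x y : Fin n} (hx : x ∈ u) (hy : y ∈ v) : x ≤ y := by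
  rw [List.pairwise_append] at h
  have h1 := h.1
  rw [List.pairwise_append] at h1
  exact h1.2.2 x (by simp [hx]) y hy

/-- The data of a pump in a grammar all of whose words are sorted. -/
lemma pump_data {τ : PT (Fin n) N} (hτ : τ.valid g)
    (hs : ∀ w, g.Der τ.root w → w.Pairwise (· ≤ ·)) {p : Fin n → ℕ}
    (hp : p ∈ pumps g τ.labs) :
    ∃ B ∈ τ.labs, ∃ s t, g.DC B s t B ∧ (∀ i, p i ≠ 0 ↔ i ∈ s ∨ i ∈ t) ∧
      (∀ x ∈ s, ∀ y ∈ s, x = y) ∧ (∀ x ∈ t, ∀ y ∈ t, x = y) ∧ (∀ x ∈ s, ∀ y ∈ t, x ≤ y) := by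
  obtain ⟨l, B, hB, hl, hpl, rfl⟩ := hp
  obtain ⟨l0, σ, h1, h2⟩ := exists_occ hB
  have hσ : σ.valid g := valid_of_plug (l := l0) (h1 ▸ hτ)
  obtain ⟨h3, h4⟩ := hpl σ h2 hσ
  have hdc := dc_of_plug h3
  rw [h4, h2] at hdc
  have hdc0 := dc_of_plug (l := l0) (τ := σ) (g := g) (h1 ▸ hτ)
  rw [← h1, h2] at hdc0
  have hm := PT.der_of_valid hσ
  rw [h2] at hm
  have hw := hs _ (hdc0.der (hdc.der (hdc.der hm)))
  refine ⟨B, hB, lword l, rword l, hdc, ?_, ?_, ?_, ?_⟩
  · intro i
    simp only [vec, ne_eq, List.count_eq_zero, List.mem_append, not_not]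
  · have key : ∀ x ∈ lword l, ∀ y ∈ lword l, x ≤ y := fun x hx y hy =>
      le_of_sorted (a := lword l0) (u := lword l) (c := []) (v := lword l)
        (b := σ.yield ++ rword l ++ rword l ++ rword l0)
        (by simpa [List.append_assoc] using hw) hx hy
    exact fun x hx y hy => le_antisymm (key x hx y hy) (key y hy x hx)
  · have key : ∀ x ∈ rword l, ∀ y ∈ rword l, x ≤ y := fun x hx y hy =>
      le_of_sorted (a := lword l0 ++ lword l ++ lword l ++ σ.yield) (u := rword l) (c := [])
        (v := rword l) (b := rword l0)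
        (by simpa [List.append_assoc] using hw) hx hy
    exact fun x hx y hy => le_antisymm (key x hx y hy) (key y hy x hx)
  · exact fun x hx y hy =>
      le_of_sorted (a := lword l0) (u := lword l) (c := lword l ++ σ.yield ++ rword l)
        (v := rword l) (b := rword l0)
        (by simpa [List.append_assoc] using hw) hx hy

/-- The pumps of a tree are stratified. -/
lemma stratified_pumps {τ : PT (Fin n) N} (hτ : τ.valid g)
    (hs : ∀ w, g.Der τ.root w → w.Pairwise (· ≤ ·)) : Stratified (pumps g τ.labs) := by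
  constructor
  · intro p hp i j k hij hjk hi hj hk
    obtain ⟨B, hB, s, t, hdc, h1, h2, h3, h4⟩ := pump_data hτ hs hp
    rw [h1] at hi hj hk
    rcases hi with hi | hi <;> rcases hj with hj | hj <;> rcases hk with hk | hk
    · exact hij.ne (h2 _ hi _ hj)
    · exact hij.ne (h2 _ hi _ hj)
    · exact (hij.trans hjk).ne (h2 _ hi _ hk)
    · exact hjk.ne (h3 _ hj _ hk)
    · exact hjk.ne (h2 _ hj _ hk)
    · exact (hij.trans hjk).ne (h3 _ hi _ hk)
    · exact hij.ne (h3 _ hi _ hj)
    · exact hij.ne (h3 _ hi _ hj)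
  · intro p hp q hq i j k l hij hjk hkl hi hk hj hl
    obtain ⟨B, hB, s, t, hdc, h1, h2, h3, h4⟩ := pump_data hτ hs hp
    obtain ⟨D, hD, s', t', hdc', h1', h2', h3', h4'⟩ := pump_data hτ hs hq
    rw [h1] at hi hk
    rw [h1'] at hj hl
    have his : i ∈ s := by
      rcases hi with hi | hi
      · exact hi
      · rcases hk with hk | hk
        · exact absurd (h4 _ hk _ hi) (not_le.2 (hij.trans hjk))
        · exact absurd (h3 _ hi _ hk) (hij.trans hjk).ne
    have hkt : k ∈ t := by
      rcases hk with hk | hk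
      · exact absurd (h2 _ his _ hk) (hij.trans hjk).ne
      · exact hk
    have hjs : j ∈ s' := by
      rcases hj with hj | hj
      · exact hj
      · rcases hl with hl | hl
        · exact absurd (h4' _ hl _ hj) (not_le.2 (hjk.trans hkl))
        · exact absurd (h3' _ hj _ hl) (hjk.trans hkl).ne
    have hlt : l ∈ t' := by
      rcases hl with hl | hl
      · exact absurd (h2' _ hjs _ hl) (hjk.trans hkl).ne
      · exact hl
    rcases two_occ hτ hB hD with ⟨a, b, c, d, m, k1, k2, k3⟩ | ⟨a, b, c, d, m, k1, k2, k3⟩ |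
      ⟨a, b, c, m, m', k1, k2, k3⟩ | ⟨a, b, c, m, m', k1, k2, k3⟩
    · -- B above D
      have hw := hs _ (k1.der (hdc.der (k2.der (hdc'.der k3))))
      have := le_of_sorted (a := a ++ s ++ c ++ s' ++ m) (u := t') (c := d) (v := t) (b := b)
        (by simpa [List.append_assoc] using hw) hlt hkt
      exact absurd this (not_le.2 hkl)
    · -- D above B
      have hw := hs _ (k1.der (hdc'.der (k2.der (hdc.der k3))))
      have := le_of_sorted (a := a) (u := s') (c := c) (v := s) (b := m ++ t ++ d ++ t' ++ b)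
        (by simpa [List.append_assoc] using hw) hjs his
      exact absurd this (not_le.2 hij)
    · -- B left of D
      have hw := hs _ (k3 _ _ (hdc.der k1) (hdc'.der k2))
      have := le_of_sorted (a := a ++ s ++ m) (u := t) (c := c) (v := s') (b := m' ++ t' ++ b)
        (by simpa [List.append_assoc] using hw) hkt hjs
      exact absurd this (not_le.2 hjk)
    · -- D left of B
      have hw := hs _ (k3 _ _ (hdc.der k1) (hdc'.der k2))
      have := le_of_sorted (a := a ++ s' ++ m') (u := t') (c := c) (v := s) (b := m ++ t ++ b)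
        (by simpa [List.append_assoc] using hw) hlt his
      exact absurd this (not_le.2 (hij.trans (hjk.trans hkl)))

end strat

/-- Ginsburg and Spanier, necessity. -/
theorem stratUnion_of_isContextFree {n : ℕ} {X : Set (Fin n → ℕ)}
    (h : (langOf X).IsContextFree) : StratUnion X := by
  obtain ⟨N, hN, g, S, hg⟩ := exists_bg h
  have : Fintype N := Fintype.ofFinite N
  set K := 2 ^ ((Fintype.card N + 1) * (Fintype.card N + 1)) with hK
  -- words of the language
  have hX : ∀ w, g.Der S w → vec w ∈ X ∧ w.Pairwise (· ≤ ·) := by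
    intro w hw
    obtain ⟨k, hk, rfl⟩ := (hg w).2 hw
    exact ⟨by rw [count_wordOf]; exact hk, sorted_wordOf k⟩
  let P : Set N → Set (Fin n → ℕ) := fun U => {p | p ∈ pumps g U ∧ ∀ i, p i ≤ K}
  have hfinK : {x : Fin n → ℕ | ∀ i, x i ≤ K}.Finite := by
    refine (Set.finite_Iic (fun _ : Fin n => K)).subset ?_
    intro x hx i
    exact hx i
  refine ⟨{q | ∃ τ : PT (Fin n) N, τ.valid g ∧ τ.root = S ∧ q.1 = vec τ.yield ∧
    (∀ i, q.1 i ≤ K) ∧ q.2 = P τ.labs}, ?_, ?_, ?_⟩
  · have h1 : ({x : Fin n → ℕ | ∀ i, x i ≤ K} ×ˢ (Set.range P)).Finite :=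
      hfinK.prod (Set.finite_range P)
    refine h1.subset ?_
    rintro ⟨x, Q⟩ ⟨τ, -, -, -, h2, h3⟩
    exact ⟨h2, ⟨τ.labs, h3.symm⟩⟩
  · rintro ⟨x, Q⟩ ⟨τ, h1, h2, h3, h4, h5⟩
    have h6 : Q = P τ.labs := h5
    subst h6
    refine ⟨hfinK.subset fun p hp => hp.2, ?_⟩
    have hst := stratified_pumps h1 (fun w hw => (hX w (by rw [← h2]; exact hw)).2)
    exact ⟨fun p hp => hst.two p hp.1, fun p hp q hq => hst.noncross p hp.1 q hq.1⟩
  · intro x
    constructor
    · intro hx
      have h1 : g.Der S (wordOf x) := (hg _).1 ⟨x, hx, rfl⟩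
      obtain ⟨τ, v1, r1, y1⟩ := PT.exists_of_der h1
      obtain ⟨τ', y, k1, k2, k3, k4, k5, k6⟩ := decomp τ.size τ le_rfl v1
      refine ⟨(vec τ'.yield, P τ'.labs), ⟨τ', k1, k2.trans r1, rfl, k5, rfl⟩, y, ?_, ?_⟩
      · show y ∈ AddSubmonoid.closure (P τ'.labs)
        rw [k3]
        exact k6
      · rw [← count_wordOf x, ← y1]
        exact k4
    · rintro ⟨⟨c, Q⟩, ⟨τ, h1, h2, h3, h4, h5⟩, y, hy, rfl⟩
      have h6 : Q = P τ.labs := h5
      have h7 : c = vec τ.yield := h3
      subst h6 h7
      obtain ⟨τ', k1, k2, k3, k4⟩ := insert_closure h1 (P := P τ.labs) (fun p hp => hp.1) hy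
      have h8 := PT.der_of_valid k1
      rw [k2, h2] at h8
      have h9 := (hX _ h8).1
      rw [k4] at h9
      exact h9

end Pool.Agent.MP2a1ef3

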