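import Pool.Agent.Lib.MP_2a1ef3_lc.Defs

/-!
Linear sets: basic facts, direct sums over the parts of a partition of the coordinates,
templates (linear sets whose periods depend on parameters).
-/

set_option autoImplicit false

namespace Pool.Agent.MP2a1ef3

open AddSubmonoid

section basic

variable {ι κ : Type}

lemma LS_base_mem (c : ι → ℕ) (P : Set (ι → ℕ)) : c ∈ LS c P :=
  ⟨0, zero_mem _, by simp⟩

lemma LS_add_period {c : ι → ℕ} {P : Set (ι → ℕ)} {x p : ι → ℕ} (hx : x ∈ LS c P)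
    (hp : p ∈ P) : x + p ∈ LS c P := by
  obtain ⟨y, hy, rfl⟩ := hx
  exact ⟨y + p, add_mem hy (subset_closure hp), by rw [add_assoc]⟩

/-- Restriction of a vector to a part. -/
def restr [DecidableEq κ] (part : ι → κ) (a : κ) : (ι → ℕ) →+ (ι → ℕ) where
  toFun x := fun i => if part i = a then x i else 0
  map_zero' := by ext i; simp
  map_add' x y := by
    ext i
    by_cases h : part i = a <;> simp [h]

lemma restr_apply [DecidableEq κ] (part : ι → κ) (a : κ) (x : ι → ℕ) (i : ι) :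
    restr part a x i = if part i = a then x i else 0 := rfl

lemma restr_eq_self [DecidableEq κ] {part : ι → κ} {a : κ} {x : ι → ℕ}
    (h : ∀ i, x i ≠ 0 → part i = a) : restr part a x = x := by
  ext i
  rw [restr_apply]
  by_cases hi : part i = a
  · simp [hi]
  · have : x i = 0 := by
      by_contra h0
      exact hi (h i h0)
    simp [hi, this]

lemma restr_eq_zero [DecidableEq κ] {part : ι → κ} {a b : κ} {x : ι → ℕ}
    (h : ∀ i, x i ≠ 0 → part i = b) (hab : a ≠ b) : restr part a x = 0 := by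
  ext i
  rw [restr_apply]
  by_cases hi : part i = a
  · have : x i = 0 := by
      by_contra h0
      exact hab (hi ▸ h i h0)
    simp [this]
  · simp [hi]

lemma sum_restr [Fintype κ] [DecidableEq κ] (part : ι → κ) (x : ι → ℕ) :
    ∑ a, restr part a x = x := by
  ext i
  rw [Finset.sum_apply]
  simp [restr_apply]

/-- Direct sum decomposition of linear sets. -/
theorem mem_LS_sum [Fintype κ] [DecidableEq κ] (part : ι → κ) (c : κ → ι → ℕ)
    (P : κ → Set (ι → ℕ)) (hc : ∀ a i, c a i ≠ 0 → part i = a)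
    (hP : ∀ a, ∀ p ∈ P a, ∀ i, p i ≠ 0 → part i = a) (x : ι → ℕ) :
    x ∈ LS (∑ a, c a) (⋃ a, P a) ↔ ∀ a, restr part a x ∈ LS (c a) (P a) := by
  have hsum : ∀ a, restr part a (∑ b, c b) = c a := by
    intro a
    rw [map_sum, Finset.sum_eq_single a]
    · exact restr_eq_self (hc a)
    · intro b _ hb
      exact restr_eq_zero (hc b) (Ne.symm hb)
    · simp
  constructor
  · rintro ⟨y, hy, rfl⟩ a
    refine ⟨restr part a y, ?_, by rw [map_add, hsum]⟩
    induction hy using closure_induction with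
    | mem y hy =>
      obtain ⟨b, hb⟩ := Set.mem_iUnion.1 hy
      by_cases hab : a = b
      · subst hab
        rw [restr_eq_self (hP a y hb)]
        exact subset_closure hb
      · rw [restr_eq_zero (hP b y hb) hab]
        exact zero_mem _
    | zero => rw [map_zero]; exact zero_mem _
    | add y z _ _ h1 h2 => rw [map_add]; exact add_mem h1 h2
  · intro h
    choose y hy hxy using h
    refine ⟨∑ a, y a, sum_mem fun a _ => closure_mono (Set.subset_iUnion P a) (hy a), ?_⟩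
    rw [← Finset.sum_add_distrib, ← Finset.sum_congr rfl fun a _ => hxy a, sum_restr]

end basic

section template

variable {ι κ : Type} {k : ℕ}

/-- Evaluation of a coefficient. -/
def ev (θ : Fin k → ℕ) : ℕ ⊕ Fin k → ℕ := Sum.elim id θ

@[simp] lemma ev_inl (θ : Fin k → ℕ) (m : ℕ) : ev θ (Sum.inl m) = m := rfl

/-- A template: finitely many bases, each with finitely many parametrised periods. -/
abbrev Tm (ι : Type) (k : ℕ) : Type := List ((ι → ℕ) × List (ι → ℕ ⊕ Fin k))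

/-- The periods for given parameters. -/
def pers (θ : Fin k → ℕ) (l : List (ι → ℕ ⊕ Fin k)) : Set (ι → ℕ) :=
  {p | ∃ p' ∈ l, p = fun i => ev θ (p' i)}

/-- The set described by a template. -/
def tset (T : Tm ι k) (θ : Fin k → ℕ) : Set (ι → ℕ) :=
  {x | ∃ q ∈ T, x ∈ LS q.1 (pers θ q.2)}

lemma pers_finite (θ : Fin k → ℕ) (l : List (ι → ℕ ⊕ Fin k)) : (pers θ l).Finite := by
  have : pers θ l = (fun p' : ι → ℕ ⊕ Fin k => fun i => ev θ (p' i)) '' {p | p ∈ l} := by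
    ext p
    constructor
    · rintro ⟨p', h, rfl⟩
      exact ⟨p', h, rfl⟩
    · rintro ⟨p', h, rfl⟩
      exact ⟨p', h, rfl⟩
  rw [this]
  exact (List.finite_toSet l).image _

/-- Families of sets described by a template. -/
def TL (X : (Fin k → ℕ) → Set (ι → ℕ)) : Prop :=
  ∃ T : Tm ι k, ∀ θ x, x ∈ X θ ↔ x ∈ tset T θ

/-- Families of sets described by a stratified template. -/
def TU [LinearOrder ι] (X : (Fin k → ℕ) → Set (ι → ℕ)) : Prop :=
  ∃ T : Tm ι k, (∀ θ, ∀ q ∈ T, Stratified (pers θ q.2)) ∧ ∀ θ x, x ∈ X θ ↔ x ∈ tset T θ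

lemma TU.tl [LinearOrder ι] {X : (Fin k → ℕ) → Set (ι → ℕ)} (h : TU X) : TL X := by
  obtain ⟨T, -, h⟩ := h
  exact ⟨T, h⟩

lemma TU.stratUnion [LinearOrder ι] {X : (Fin k → ℕ) → Set (ι → ℕ)} (h : TU X)
    (θ : Fin k → ℕ) : StratUnion (X θ) := by
  obtain ⟨T, h1, h2⟩ := h
  refine ⟨(fun q => (q.1, pers θ q.2)) '' {q | q ∈ T}, (List.finite_toSet T).image _, ?_, ?_⟩
  · rintro p ⟨q, hq, rfl⟩
    exact ⟨pers_finite θ _, h1 θ q hq⟩
  · intro x
    rw [h2]
    constructor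
    · rintro ⟨q, hq, hx⟩
      exact ⟨_, ⟨q, hq, rfl⟩, hx⟩
    · rintro ⟨_, ⟨q, hq, rfl⟩, hx⟩
      exact ⟨q, hq, hx⟩

lemma TL.congr {X Y : (Fin k → ℕ) → Set (ι → ℕ)} (h : TL X)
    (hXY : ∀ θ x, x ∈ Y θ ↔ x ∈ X θ) : TL Y := by
  obtain ⟨T, h⟩ := h
  exact ⟨T, fun θ x => (hXY θ x).trans (h θ x)⟩

lemma TU.congr [LinearOrder ι] {X Y : (Fin k → ℕ) → Set (ι → ℕ)} (h : TU X)
    (hXY : ∀ θ x, x ∈ Y θ ↔ x ∈ X θ) : TU Y := by
  obtain ⟨T, h0, h⟩ := h
  exact ⟨T, h0, fun θ x => (hXY θ x).trans (h θ x)⟩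

lemma TL.union {X Y : (Fin k → ℕ) → Set (ι → ℕ)} (hX : TL X) (hY : TL Y) :
    TL (fun θ => X θ ∪ Y θ) := by
  obtain ⟨T, h⟩ := hX
  obtain ⟨T', h'⟩ := hY
  refine ⟨T ++ T', fun θ x => ?_⟩
  simp only [Set.mem_union, h, h', tset, Set.mem_ofPred_eq, List.mem_append]
  constructor
  · rintro (⟨q, hq, hx⟩ | ⟨q, hq, hx⟩)
    exacts [⟨q, Or.inl hq, hx⟩, ⟨q, Or.inr hq, hx⟩]
  · rintro ⟨q, hq | hq, hx⟩
    exacts [Or.inl ⟨q, hq, hx⟩, Or.inr ⟨q, hq, hx⟩]

lemma TU.union [LinearOrder ι] {X Y : (Fin k → ℕ) → Set (ι → ℕ)} (hX : TU X) (hY : TU Y) :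
    TU (fun θ => X θ ∪ Y θ) := by
  obtain ⟨T, h0, h⟩ := hX
  obtain ⟨T', h0', h'⟩ := hY
  refine ⟨T ++ T', fun θ q hq => ?_, fun θ x => ?_⟩
  · rcases List.mem_append.1 hq with hq | hq
    exacts [h0 θ q hq, h0' θ q hq]
  · simp only [Set.mem_union, h, h', tset, Set.mem_ofPred_eq, List.mem_append]
    constructor
    · rintro (⟨q, hq, hx⟩ | ⟨q, hq, hx⟩)
      exacts [⟨q, Or.inl hq, hx⟩, ⟨q, Or.inr hq, hx⟩]
    · rintro ⟨q, hq | hq, hx⟩
      exacts [Or.inl ⟨q, hq, hx⟩, Or.inr ⟨q, hq, hx⟩]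

lemma TU.empty [LinearOrder ι] : TU (fun _ : Fin k → ℕ => (∅ : Set (ι → ℕ))) :=
  ⟨[], by simp, by simp [tset]⟩

lemma TU.iUnion [LinearOrder ι] {A : Type} [Finite A] {X : A → (Fin k → ℕ) → Set (ι → ℕ)}
    (h : ∀ a, TU (X a)) : TU (fun θ => ⋃ a, X a θ) := by
  choose T h0 h1 using h
  have := Fintype.ofFinite A
  refine ⟨(Finset.univ : Finset A).toList.flatMap T, fun θ q hq => ?_, fun θ x => ?_⟩
  · obtain ⟨a, -, ha⟩ := List.mem_flatMap.1 hq
    exact h0 a θ q ha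
  · simp only [Set.mem_iUnion, h1, tset, Set.mem_ofPred_eq, List.mem_flatMap, Finset.mem_toList,
      Finset.mem_univ, true_and]
    constructor
    · rintro ⟨a, q, hq, hx⟩
      exact ⟨q, ⟨a, hq⟩, hx⟩
    · rintro ⟨q, ⟨a, hq⟩, hx⟩
      exact ⟨a, q, hq, hx⟩

lemma TU.ite [LinearOrder ι] {X : (Fin k → ℕ) → Set (ι → ℕ)} (h : TU X) (p : Prop) :
    TU (fun θ => {x | p ∧ x ∈ X θ}) := by
  by_cases hp : p
  · exact h.congr (by simp [hp])
  · exact TU.empty.congr (by simp [hp])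

/-- Local description of a family of sets on a part. -/
structure Loc (part : ι → κ) (a : κ) (S : Set (ι → ℕ) → Prop)
    (X : (Fin k → ℕ) → Set (ι → ℕ)) : Prop where
  ex : ∃ T : Tm ι k, (∀ q ∈ T, (∀ i, q.1 i ≠ 0 → part i = a) ∧
      ∀ θ : Fin k → ℕ, (∀ p ∈ pers θ q.2, ∀ i, p i ≠ 0 → part i = a) ∧ S (pers θ q.2)) ∧
    ∀ θ x, (∀ i, x i ≠ 0 → part i = a) → (x ∈ X θ ↔ x ∈ tset T θ)

lemma pers_flatMap {A : Type} [Fintype A] (θ : Fin k → ℕ) (l : A → List (ι → ℕ ⊕ Fin k)) :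
    pers θ ((Finset.univ : Finset A).toList.flatMap l) = ⋃ a, pers θ (l a) := by
  ext p
  simp only [pers, List.mem_flatMap, Finset.mem_toList, Finset.mem_univ, true_and,
    Set.mem_ofPred_eq, Set.mem_iUnion]
  constructor
  · rintro ⟨p', ⟨a, ha⟩, rfl⟩
    exact ⟨a, p', ha, rfl⟩
  · rintro ⟨a, p', ha, rfl⟩
    exact ⟨p', ⟨a, ha⟩, rfl⟩

/-- Products of local descriptions. -/
theorem exists_prod [Fintype κ] [DecidableEq κ] {part : ι → κ} {S : Set (ι → ℕ) → Prop}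
    {S' : Set (ι → ℕ) → Prop}
    (hS : ∀ P : κ → Set (ι → ℕ), (∀ a, ∀ p ∈ P a, ∀ i, p i ≠ 0 → part i = a) →
      (∀ a, S (P a)) → S' (⋃ a, P a))
    {X : κ → (Fin k → ℕ) → Set (ι → ℕ)} (h : ∀ a, Loc part a S (X a)) :
    ∃ T : Tm ι k, (∀ θ, ∀ q ∈ T, S' (pers θ q.2)) ∧
      ∀ θ x, (∀ a, restr part a x ∈ X a θ) ↔ x ∈ tset T θ := by
  choose T hT hX using fun a => (h a).ex
  let ch : Type := ∀ a, Fin (T a).length
  refine ⟨(Finset.univ : Finset ch).toList.map fun χ =>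
    (∑ a, ((T a).get (χ a)).1, (Finset.univ : Finset κ).toList.flatMap
      fun a => ((T a).get (χ a)).2), ?_, ?_⟩
  · intro θ q hq
    obtain ⟨χ, -, rfl⟩ := List.mem_map.1 hq
    simp only
    rw [pers_flatMap]
    exact hS _ (fun a => ((hT a _ (List.get_mem _ _)).2 θ).1)
      (fun a => ((hT a _ (List.get_mem _ _)).2 θ).2)
  · intro θ x
    have key : ∀ χ : ch, x ∈ LS (∑ a, ((T a).get (χ a)).1) (⋃ a, pers θ ((T a).get (χ a)).2) ↔
        ∀ a, restr part a x ∈ LS ((T a).get (χ a)).1 (pers θ ((T a).get (χ a)).2) := fun χ =>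
      mem_LS_sum part _ _ (fun a => (hT a _ (List.get_mem _ _)).1)
        (fun a => ((hT a _ (List.get_mem _ _)).2 θ).1) x
    have hr : ∀ a, ∀ i, restr part a x i ≠ 0 → part i = a := by
      intro a i h
      by_contra h0
      exact h (by simp [restr_apply, h0])
    constructor
    · intro hx
      have h1 : ∀ a, ∃ j : Fin (T a).length,
          restr part a x ∈ LS ((T a).get j).1 (pers θ ((T a).get j).2) := by
        intro a
        obtain ⟨q, hq, hxq⟩ := (hX a θ _ (hr a)).1 (hx a)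
        obtain ⟨j, rfl⟩ := List.mem_iff_get.1 hq
        exact ⟨j, hxq⟩
      choose χ hχ using h1
      refine ⟨_, List.mem_map.2 ⟨χ, by simp, rfl⟩, ?_⟩
      simp only
      rw [pers_flatMap]
      exact (key χ).2 hχ
    · rintro ⟨q, hq, hx⟩ a
      obtain ⟨χ, -, rfl⟩ := List.mem_map.1 hq
      simp only at hx
      rw [pers_flatMap] at hx
      exact (hX a θ _ (hr a)).2 ⟨_, List.get_mem _ _, (key χ).1 hx a⟩

theorem TL.prod [Fintype κ] [DecidableEq κ] {part : ι → κ}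
    {X : κ → (Fin k → ℕ) → Set (ι → ℕ)} (h : ∀ a, Loc part a (fun _ => True) (X a)) :
    TL (fun θ => {x | ∀ a, restr part a x ∈ X a θ}) := by
  obtain ⟨T, -, h⟩ := exists_prod (S' := fun _ => True) (fun _ _ _ => trivial) h
  exact ⟨T, h⟩

/-- Noncrossing partitions give stratified unions. -/
theorem TU.prod [LinearOrder ι] [Fintype κ] [DecidableEq κ] {part : ι → κ}
    (hpart : ∀ a b, a ≠ b → ∀ i j k l : ι, i < j → j < k → k < l → part i = a → part k = a →
      part j = b → part l = b → False)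
    {X : κ → (Fin k → ℕ) → Set (ι → ℕ)} (h : ∀ a, Loc part a Stratified (X a)) :
    TU (fun θ => {x | ∀ a, restr part a x ∈ X a θ}) := by
  have key : ∀ P : κ → Set (ι → ℕ), (∀ a, ∀ p ∈ P a, ∀ i, p i ≠ 0 → part i = a) →
      (∀ a, Stratified (P a)) → Stratified (⋃ a, P a) := by
    intro P h1 h2
    constructor
    · intro p hp
      obtain ⟨a, ha⟩ := Set.mem_iUnion.1 hp
      exact (h2 a).two p ha
    · intro p hp q hq i j k l hij hjk hkl hpi hpk hqj hql
      obtain ⟨a, ha⟩ := Set.mem_iUnion.1 hp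
      obtain ⟨b, hb⟩ := Set.mem_iUnion.1 hq
      by_cases hab : a = b
      · subst hab
        exact (h2 a).noncross p ha q hb i j k l hij hjk hkl hpi hpk hqj hql
      · exact hpart a b hab i j k l hij hjk hkl (h1 a p ha i hpi) (h1 a p ha k hpk)
          (h1 b q hb j hqj) (h1 b q hb l hql)
  obtain ⟨T, h0, h⟩ := exists_prod (S' := Stratified) key h
  exact ⟨T, h0, h⟩

end template

end Pool.Agent.MP2a1ef3
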