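import Pool.Agent.Lib.MP_2a1ef3_lc.LS

/-!
Explicit stratified linear sets on few coordinates.
-/

set_option autoImplicit false

namespace Pool.Agent.MP2a1ef3

open AddSubmonoid

variable {ι κ : Type} {k : ℕ}

/-- A chord: a period supported on the positions `i` and `j`. -/
structure Ch (ι : Type) (k : ℕ) where
  i : ι
  j : ι
  c : ℕ ⊕ Fin k
  d : ℕ ⊕ Fin k

/-- The period of a chord. -/
def Ch.per [DecidableEq ι] (h : Ch ι k) : ι → ℕ ⊕ Fin k :=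
  fun t => if t = h.i then h.c else if t = h.j then h.d else Sum.inl 0

/-- The numerical period of a chord. -/
def Ch.vec [DecidableEq ι] (θ : Fin k → ℕ) (h : Ch ι k) : ι → ℕ :=
  fun t => if t = h.i then ev θ h.c else if t = h.j then ev θ h.d else 0

lemma Ch.ev_per [DecidableEq ι] (θ : Fin k → ℕ) (h : Ch ι k) :
    (fun t => ev θ (h.per t)) = h.vec θ := by
  ext t
  simp only [Ch.per, Ch.vec]
  split_ifs <;> rfl

/-- Chords with both coefficients one. -/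
abbrev ch1 (i j : ι) : Ch ι k := ⟨i, j, Sum.inl 1, Sum.inl 1⟩

lemma Ch.vec_supp [DecidableEq ι] {θ : Fin k → ℕ} {h : Ch ι k} {t : ι} (ht : h.vec θ t ≠ 0) :
    t = h.i ∨ t = h.j := by
  by_contra h0
  push Not at h0
  exact ht (by simp [Ch.vec, h0.1, h0.2])

lemma mem_pers_chords [DecidableEq ι] {θ : Fin k → ℕ} {L : List (Ch ι k)} {p : ι → ℕ} :
    p ∈ pers θ (L.map Ch.per) ↔ ∃ h ∈ L, p = h.vec θ := by
  simp only [pers, List.mem_map, Set.mem_ofPred_eq]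
  constructor
  · rintro ⟨_, ⟨h, hL, rfl⟩, rfl⟩
    exact ⟨h, hL, Ch.ev_per θ h⟩
  · rintro ⟨h, hL, rfl⟩
    exact ⟨_, ⟨h, hL, rfl⟩, (Ch.ev_per θ h).symm⟩

lemma pers_nil (θ : Fin k → ℕ) : pers (ι := ι) θ [] = ∅ := by
  ext p
  simp [pers]

lemma pers_cons (θ : Fin k → ℕ) (p : ι → ℕ ⊕ Fin k) (l : List (ι → ℕ ⊕ Fin k)) :
    pers θ (p :: l) = insert (fun i => ev θ (p i)) (pers θ l) := by
  ext q
  simp [pers]

lemma mem_LS_nil {c x : ι → ℕ} {θ : Fin k → ℕ} [DecidableEq ι] :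
    x ∈ LS c (pers θ (([] : List (Ch ι k)).map Ch.per)) ↔ x = c := by
  rw [List.map_nil, pers_nil]
  constructor
  · rintro ⟨y, hy, rfl⟩
    rw [AddSubmonoid.closure_empty, mem_bot] at hy
    simp [hy]
  · rintro rfl
    exact LS_base_mem _ _

lemma mem_LS_cons [DecidableEq ι] {c x : ι → ℕ} {θ : Fin k → ℕ} {h : Ch ι k}
    {L : List (Ch ι k)} :
    x ∈ LS c (pers θ ((h :: L).map Ch.per)) ↔
      ∃ n : ℕ, x ∈ LS (c + n • h.vec θ) (pers θ (L.map Ch.per)) := by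
  rw [List.map_cons, pers_cons, Ch.ev_per, Set.insert_eq]
  constructor
  · rintro ⟨y, hy, rfl⟩
    rw [AddSubmonoid.closure_union, mem_sup] at hy
    obtain ⟨z, hz, w, hw, rfl⟩ := hy
    rw [mem_closure_singleton] at hz
    obtain ⟨n, rfl⟩ := hz
    exact ⟨n, w, hw, by rw [add_assoc]⟩
  · rintro ⟨n, w, hw, rfl⟩
    refine ⟨n • h.vec θ + w, ?_, by rw [add_assoc]⟩
    rw [AddSubmonoid.closure_union, mem_sup]
    exact ⟨_, mem_closure_singleton.2 ⟨n, rfl⟩, w, hw, rfl⟩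

lemma stratified_chords [LinearOrder ι] {θ : Fin k → ℕ} {L : List (Ch ι k)}
    (hle : ∀ h ∈ L, h.i ≤ h.j)
    (hnc : ∀ h ∈ L, ∀ h' ∈ L, ¬ (h.i < h'.i ∧ h'.i < h.j ∧ h.j < h'.j)) :
    Stratified (pers θ (L.map Ch.per)) := by
  constructor
  · intro p hp i j l hij hjl h1 h2 h3
    obtain ⟨h, hL, rfl⟩ := mem_pers_chords.1 hp
    have e1 := Ch.vec_supp h1
    have e2 := Ch.vec_supp h2
    have e3 := Ch.vec_supp h3
    rcases e1 with e1 | e1 <;> rcases e2 with e2 | e2 <;> rcases e3 with e3 | e3 <;>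
      subst e1 <;> first
        | exact absurd (e2 ▸ hij) (lt_irrefl _)
        | exact absurd (e3 ▸ e2 ▸ hjl) (lt_irrefl _)
        | exact absurd (e3 ▸ hij.trans hjl) (lt_irrefl _)
  · intro p hp q hq i j l m hij hjl hlm h1 h2 h3 h4
    obtain ⟨h, hL, rfl⟩ := mem_pers_chords.1 hp
    obtain ⟨h', hL', rfl⟩ := mem_pers_chords.1 hq
    have e1 := Ch.vec_supp h1
    have e2 := Ch.vec_supp h2
    have e3 := Ch.vec_supp h3
    have e4 := Ch.vec_supp h4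
    have g1 := hle h hL
    have g2 := hle h' hL'
    have f1 : i = h.i ∧ l = h.j := by
      rcases e1 with e1 | e1 <;> rcases e2 with e2 | e2
      · exact absurd (e1 ▸ e2 ▸ hij.trans hjl) (lt_irrefl _)
      · exact ⟨e1, e2⟩
      · exact absurd ((e1 ▸ e2 ▸ hij.trans hjl : h.j < h.i)) (not_lt.2 g1)
      · exact absurd (e1 ▸ e2 ▸ hij.trans hjl) (lt_irrefl _)
    have f2 : j = h'.i ∧ m = h'.j := by
      rcases e3 with e3 | e3 <;> rcases e4 with e4 | e4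
      · exact absurd (e3 ▸ e4 ▸ hjl.trans hlm) (lt_irrefl _)
      · exact ⟨e3, e4⟩
      · exact absurd ((e3 ▸ e4 ▸ hjl.trans hlm : h'.j < h'.i)) (not_lt.2 g2)
      · exact absurd (e3 ▸ e4 ▸ hjl.trans hlm) (lt_irrefl _)
    exact hnc h hL h' hL' ⟨f1.1 ▸ f2.1 ▸ hij, f1.2 ▸ f2.1 ▸ hjl, f1.2 ▸ f2.2 ▸ hlm⟩

section loc

variable {part : ι → κ} {a : κ} {S : Set (ι → ℕ) → Prop}

lemma Loc.congr {X Y : (Fin k → ℕ) → Set (ι → ℕ)} (h : Loc part a S X)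
    (hXY : ∀ θ x, (∀ i, x i ≠ 0 → part i = a) → (x ∈ Y θ ↔ x ∈ X θ)) : Loc part a S Y := by
  obtain ⟨T, h1, h2⟩ := h.ex
  exact ⟨T, h1, fun θ x hx => (hXY θ x hx).trans (h2 θ x hx)⟩

lemma Loc.union {X Y : (Fin k → ℕ) → Set (ι → ℕ)} (h : Loc part a S X)
    (h' : Loc part a S Y) : Loc part a S (fun θ => X θ ∪ Y θ) := by
  obtain ⟨T, h1, h2⟩ := h.ex
  obtain ⟨T', h1', h2'⟩ := h'.ex
  refine ⟨T ++ T', fun q hq => ?_, fun θ x hx => ?_⟩
  · rcases List.mem_append.1 hq with hq | hq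
    exacts [h1 q hq, h1' q hq]
  · simp only [Set.mem_union, h2 θ x hx, h2' θ x hx, tset, Set.mem_ofPred_eq, List.mem_append]
    constructor
    · rintro (⟨q, hq, hx⟩ | ⟨q, hq, hx⟩)
      exacts [⟨q, Or.inl hq, hx⟩, ⟨q, Or.inr hq, hx⟩]
    · rintro ⟨q, hq | hq, hx⟩
      exacts [Or.inl ⟨q, hq, hx⟩, Or.inr ⟨q, hq, hx⟩]

lemma Loc.iUnion {A : Type} [Finite A] {X : A → (Fin k → ℕ) → Set (ι → ℕ)}
    (h : ∀ b, Loc part a S (X b)) : Loc part a S (fun θ => ⋃ b, X b θ) := by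
  choose T h0 h1 using fun b => (h b).ex
  have := Fintype.ofFinite A
  refine ⟨(Finset.univ : Finset A).toList.flatMap T, fun q hq => ?_, fun θ x hx => ?_⟩
  · obtain ⟨b, -, hb⟩ := List.mem_flatMap.1 hq
    exact h0 b q hb
  · simp only [Set.mem_iUnion, fun b => h1 b θ x hx, tset, Set.mem_ofPred_eq, List.mem_flatMap,
      Finset.mem_toList, Finset.mem_univ, true_and]
    constructor
    · rintro ⟨a, q, hq, hx⟩
      exact ⟨q, ⟨a, hq⟩, hx⟩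
    · rintro ⟨q, ⟨a, hq⟩, hx⟩
      exact ⟨a, q, hq, hx⟩

/-- One linear set given by chords. -/
lemma Loc.single [LinearOrder ι] {X : (Fin k → ℕ) → Set (ι → ℕ)} (c : ι → ℕ)
    (L : List (Ch ι k)) (hc : ∀ i, c i ≠ 0 → part i = a)
    (hL : ∀ h ∈ L, part h.i = a ∧ part h.j = a) (hle : ∀ h ∈ L, h.i ≤ h.j)
    (hnc : ∀ h ∈ L, ∀ h' ∈ L, ¬ (h.i < h'.i ∧ h'.i < h.j ∧ h.j < h'.j))
    (hX : ∀ θ x, (∀ i, x i ≠ 0 → part i = a) →
      (x ∈ X θ ↔ x ∈ LS c (pers θ (L.map Ch.per)))) :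
    Loc part a Stratified X := by
  refine ⟨[(c, L.map Ch.per)], ?_, ?_⟩
  · intro q hq
    obtain rfl := List.mem_singleton.1 hq
    refine ⟨hc, fun θ => ⟨?_, stratified_chords hle hnc⟩⟩
    intro p hp i hi
    obtain ⟨h, hh, rfl⟩ := mem_pers_chords.1 hp
    rcases Ch.vec_supp hi with rfl | rfl
    exacts [(hL h hh).1, (hL h hh).2]
  · intro θ x hx
    rw [hX θ x hx]
    simp [tset]

lemma Loc.weaken {X : (Fin k → ℕ) → Set (ι → ℕ)} (h : Loc part a S X) :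
    Loc part a (fun _ => True) X := by
  obtain ⟨T, h1, h2⟩ := h.ex
  exact ⟨T, fun q hq => ⟨(h1 q hq).1, fun θ => ⟨((h1 q hq).2 θ).1, trivial⟩⟩, h2⟩

end loc

end Pool.Agent.MP2a1ef3
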