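import Pool.Agent.Lib.MP_2a1ef3_lc.LS

/-!
Renaming of coordinates, lists of linear sets, computability of templates.
-/

set_option autoImplicit false

namespace Pool.Agent.MP2a1ef3

section rename

variable {ι κ : Type}

/-- Renaming of coordinates. -/
def ren (e : κ ≃ ι) : (ι → ℕ) →+ (κ → ℕ) where
  toFun x := fun i => x (e i)
  map_zero' := rfl
  map_add' _ _ := rfl

lemma ren_apply (e : κ ≃ ι) (x : ι → ℕ) (i : κ) : ren e x i = x (e i) := rfl

lemma ren_symm (e : κ ≃ ι) (x : ι → ℕ) : ren e.symm (ren e x) = x := by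
  ext i
  simp [ren_apply]

lemma ren_symm' (e : κ ≃ ι) (x : κ → ℕ) : ren e (ren e.symm x) = x := by
  ext i
  simp [ren_apply]

lemma mem_LS_ren (e : κ ≃ ι) (c : ι → ℕ) (P : Set (ι → ℕ)) (y : κ → ℕ) :
    y ∈ LS (ren e c) (ren e '' P) ↔ ren e.symm y ∈ LS c P := by
  constructor
  · rintro ⟨z, hz, rfl⟩
    refine ⟨ren e.symm z, ?_, by rw [map_add, ren_symm]⟩
    have h : ren e.symm z ∈ (AddSubmonoid.closure (ren e '' P)).map (ren e.symm) :=
      AddSubmonoid.mem_map_of_mem _ hz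
    rw [AddMonoidHom.map_mclosure] at h
    convert h using 2
    ext x
    constructor
    · intro hx
      exact ⟨_, ⟨x, hx, rfl⟩, ren_symm e x⟩
    · rintro ⟨_, ⟨x, hx, rfl⟩, rfl⟩
      rwa [ren_symm]
  · rintro ⟨z, hz, hzy⟩
    refine ⟨ren e z, ?_, by rw [← map_add, ← hzy, ren_symm']⟩
    have h : ren e z ∈ (AddSubmonoid.closure P).map (ren e) :=
      AddSubmonoid.mem_map_of_mem _ hz
    rwa [AddMonoidHom.map_mclosure] at h

lemma Stratified.ren [LinearOrder ι] [LinearOrder κ] (e : κ ≃o ι) {P : Set (ι → ℕ)}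
    (h : Stratified P) : Stratified (MP2a1ef3.ren e.toEquiv '' P) := by
  constructor
  · rintro _ ⟨p, hp, rfl⟩ i j k hij hjk hi hj hk
    exact h.two p hp (e i) (e j) (e k) (e.lt_iff_lt.2 hij) (e.lt_iff_lt.2 hjk) hi hj hk
  · rintro _ ⟨p, hp, rfl⟩ _ ⟨q, hq, rfl⟩ i j k l hij hjk hkl hi hk hj hl
    exact h.noncross p hp q hq (e i) (e j) (e k) (e l) (e.lt_iff_lt.2 hij)
      (e.lt_iff_lt.2 hjk) (e.lt_iff_lt.2 hkl) hi hk hj hl

lemma StratUnion.ren [LinearOrder ι] [LinearOrder κ] (e : κ ≃o ι) {X : Set (ι → ℕ)}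
    (h : StratUnion X) : StratUnion {y : κ → ℕ | MP2a1ef3.ren e.toEquiv.symm y ∈ X} := by
  obtain ⟨F, hF, hFP, hX⟩ := h
  refine ⟨(fun q => (MP2a1ef3.ren e.toEquiv q.1, MP2a1ef3.ren e.toEquiv '' q.2)) '' F,
    hF.image _, ?_, ?_⟩
  · rintro _ ⟨q, hq, rfl⟩
    exact ⟨(hFP q hq).1.image _, (hFP q hq).2.ren e⟩
  · intro y
    rw [Set.mem_ofPred_eq, hX]
    constructor
    · rintro ⟨q, hq, hy⟩
      exact ⟨_, ⟨q, hq, rfl⟩, (mem_LS_ren _ _ _ _).2 hy⟩
    · rintro ⟨_, ⟨q, hq, rfl⟩, hy⟩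
      exact ⟨q, hq, (mem_LS_ren _ _ _ _).1 hy⟩

lemma stratUnion_ren_iff [LinearOrder ι] [LinearOrder κ] (e : κ ≃o ι) {X : Set (ι → ℕ)} :
    StratUnion {y : κ → ℕ | ren e.toEquiv.symm y ∈ X} ↔ StratUnion X := by
  constructor
  · intro h
    have h2 := h.ren e.symm
    convert h2 using 1
    ext x
    simp only [Set.mem_ofPred_eq]
    have : ren e.toEquiv.symm (ren e.symm.toEquiv.symm x) = x := by
      ext i
      simp [ren_apply]
    rw [this]
  · exact fun h => h.ren e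

/-- Renaming in a template. -/
def Tm.ren {k : ℕ} (e : κ ≃ ι) (T : Tm ι k) : Tm κ k :=
  T.map fun q => (MP2a1ef3.ren e q.1, q.2.map fun p i => p (e i))

lemma mem_tset_ren {k : ℕ} (e : κ ≃ ι) (T : Tm ι k) (θ : Fin k → ℕ) (y : κ → ℕ) :
    y ∈ tset (T.ren e) θ ↔ ren e.symm y ∈ tset T θ := by
  have key : ∀ l : List (ι → ℕ ⊕ Fin k),
      pers θ (l.map fun p i => p (e i)) = ren e '' pers θ l := by
    intro l
    ext p
    constructor
    · rintro ⟨p', hp', rfl⟩
      obtain ⟨p'', hp'', rfl⟩ := List.mem_map.1 hp'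
      exact ⟨_, ⟨p'', hp'', rfl⟩, rfl⟩
    · rintro ⟨_, ⟨p', hp', rfl⟩, rfl⟩
      exact ⟨_, List.mem_map.2 ⟨p', hp', rfl⟩, rfl⟩
  constructor
  · rintro ⟨q, hq, hy⟩
    obtain ⟨q', hq', rfl⟩ := List.mem_map.1 hq
    dsimp only at hy
    rw [key, mem_LS_ren] at hy
    exact ⟨q', hq', hy⟩
  · rintro ⟨q, hq, hy⟩
    refine ⟨_, List.mem_map.2 ⟨q, hq, rfl⟩, ?_⟩
    dsimp only
    rw [key, mem_LS_ren]
    exact hy

end rename

section lists

variable {ι : Type}

/-- The linear set of a list of periods. -/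
lemma mem_list_iff (l : List (ι → ℕ)) (c x : ι → ℕ) :
    (∃ t : Fin l.length → ℕ, x = c + ∑ i, t i • l.get i) ↔ x ∈ LS c {p | p ∈ l} := by
  constructor
  · rintro ⟨t, rfl⟩
    refine ⟨_, sum_mem fun i _ => nsmul_mem ?_ _, rfl⟩
    exact AddSubmonoid.subset_closure (show l.get i ∈ {p | p ∈ l} from List.get_mem l i)
  · rintro ⟨y, hy, rfl⟩
    have h : ∃ t : Fin l.length → ℕ, y = ∑ i, t i • l.get i := by
      induction hy using AddSubmonoid.closure_induction with
      | mem y hy =>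
        obtain ⟨i, hi⟩ := List.mem_iff_get.1 hy
        refine ⟨Pi.single i 1, ?_⟩
        rw [Finset.sum_eq_single i]
        · rw [Pi.single_eq_same, one_smul, hi]
        · intro j _ hj
          rw [Pi.single_eq_of_ne hj, zero_smul]
        · simp
      | zero => exact ⟨0, by simp⟩
      | add y z _ _ h1 h2 =>
        obtain ⟨t, rfl⟩ := h1
        obtain ⟨t', rfl⟩ := h2
        exact ⟨t + t', by rw [← Finset.sum_add_distrib]; simp only [Pi.add_apply, add_smul]⟩
    obtain ⟨t, rfl⟩ := h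
    exact ⟨t, rfl⟩

/-- The list of linear sets of a template. -/
def inst {k : ℕ} (T : Tm ι k) (θ : Fin k → ℕ) : List ((ι → ℕ) × List (ι → ℕ)) :=
  T.map fun q => (q.1, q.2.map fun p i => ev θ (p i))

lemma mem_inst_iff {k : ℕ} (T : Tm ι k) (θ : Fin k → ℕ) (x : ι → ℕ) :
    (∃ q ∈ inst T θ, ∃ t : Fin q.2.length → ℕ, x = q.1 + ∑ i, t i • q.2.get i) ↔
      x ∈ tset T θ := by
  have key : ∀ l : List (ι → ℕ ⊕ Fin k),
      {p | p ∈ l.map fun p i => ev θ (p i)} = pers θ l := by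
    intro l
    ext p
    simp only [Set.mem_ofPred_eq, List.mem_map, pers]
    constructor
    · rintro ⟨p', h, rfl⟩
      exact ⟨p', h, rfl⟩
    · rintro ⟨p', h, rfl⟩
      exact ⟨p', h, rfl⟩
  constructor
  · rintro ⟨q, hq, hx⟩
    rw [mem_list_iff] at hx
    obtain ⟨q', hq', rfl⟩ := List.mem_map.1 hq
    dsimp only at hx
    rw [key] at hx
    exact ⟨q', hq', hx⟩
  · rintro ⟨q, hq, hx⟩
    refine ⟨_, List.mem_map.2 ⟨q, hq, rfl⟩, ?_⟩
    rw [mem_list_iff]
    dsimp only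
    rw [key]
    exact hx

end lists

section comp

variable {n k : ℕ}

lemma primrec_vec (p : Fin n → ℕ ⊕ Fin k) :
    Primrec (fun θ : Fin k → ℕ => fun i : Fin n => ev θ (p i)) := by
  rw [Primrec.fin_curry]
  have h : Primrec₂ (fun (i : Fin n) (θ : Fin k → ℕ) => ev θ (p i)) := by
    rw [Primrec.fin_curry₁]
    intro i
    cases p i with
    | inl m => exact Primrec.const m
    | inr j =>
      exact (Primrec.fin_app (σ := ℕ) (n := k)).comp Primrec.id (Primrec.const j)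
  exact h.swap

lemma primrec_vecs (l : List (Fin n → ℕ ⊕ Fin k)) :
    Primrec (fun θ : Fin k → ℕ => l.map fun p i => ev θ (p i)) := by
  induction l with
  | nil => exact Primrec.const []
  | cons p l ih => exact Primrec.list_cons.comp (primrec_vec p) ih

/-- The instance of a template is computed from the parameters. -/
theorem primrec_inst (T : Tm (Fin n) k) : Primrec (fun θ : Fin k → ℕ => inst T θ) := by
  induction T with
  | nil => exact Primrec.const []
  | cons q T ih =>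
    exact Primrec.list_cons.comp ((Primrec.const q.1).pair (primrec_vecs q.2)) ih

end comp

end Pool.Agent.MP2a1ef3
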