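import Pool.Agent.Lib.MP_2a1ef3_lc.Fwd2
import Pool.Agent.Lib.MP_2a1ef3_lc.Transport
import Pool.Agent.Lib.MP_2a1ef3_lc.GS1
import Pool.Agent.Lib.MP_2a1ef3_lc.GS2
import Pool.Agent.Lib.MP_2a1ef3_lc.Compile

/-!
Rational solvability reduces to context-freeness of bounded semilinear languages.
-/

set_option autoImplicit false

namespace Pool.Agent.MP2a1ef3

/-- Witness blocks first, then the variable blocks. -/
def place (s v : ℕ) (hv : 1 ≤ v) : Place (Fin (s + v)) s v where
  wit g := Fin.castAdd v g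
  var i := if h : i < v then Fin.natAdd s ⟨i, h⟩ else ⟨s + v - 1, by omega⟩
  wit_inj := Fin.castAdd_injective s v
  var_lt i j hij hj := by
    rw [dif_pos hj, dif_pos (hij.trans hj), Fin.lt_def]
    simp only [Fin.natAdd_mk]
    omega
  wit_ne g i hi := by
    rw [dif_pos hi]
    intro h
    have := congrArg Fin.val h
    simp only [Fin.val_castAdd, Fin.natAdd_mk] at this
    have := g.2
    omega

/-- The reduction. -/
theorem reduction (k m : ℕ) (P : MvPolynomial (Fin k ⊕ Fin m) ℤ) :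
    ∃ (n : ℕ) (F : (Fin k → ℕ) → List ((Fin n → ℕ) × List (Fin n → ℕ))), 1 ≤ n ∧
      Primrec F ∧ ∀ a : Fin k → ℕ,
        ((∃ y : Fin m → ℚ, MvPolynomial.aeval (Sum.elim (fun i => (a i : ℚ)) y) P = 0) ↔
          (langOf {x | ∃ q ∈ F a, ∃ t : Fin q.2.length → ℕ,
            x = q.1 + ∑ i, t i • q.2.get i}).IsContextFree) := by
  obtain ⟨v, G, hv, hG, hsol⟩ := compile k m P
  set s := G.length
  let Gf : Fin s → Gate (ℕ ⊕ Fin k) := fun g => G.get g
  have hGf : ∀ g, (Gf g).WF v := fun g => hG _ (List.get_mem G g)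
  let π := place s v hv
  obtain ⟨T, hT⟩ := tl_MM π hGf
  let e : Fin (Fintype.card (Pos (Fin (s + v)))) ≃o Pos (Fin (s + v)) :=
    Fintype.orderIsoFinOfCardEq _ rfl
  refine ⟨_, fun θ => inst (T.ren e.toEquiv) θ, ?_, primrec_inst _, fun a => ?_⟩
  · have : Nonempty (Pos (Fin (s + v))) := ⟨at' ⟨0, by omega⟩ 0⟩
    exact Fintype.card_pos
  · have h1 : {x | ∃ q ∈ inst (T.ren e.toEquiv) a, ∃ t : Fin q.2.length → ℕ,
        x = q.1 + ∑ i, t i • q.2.get i} =
        {y | ren e.toEquiv.symm y ∈ MM π (fun g => (Gf g).map (ev a))} := by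
      ext x
      rw [Set.mem_ofPred_eq, Set.mem_ofPred_eq, mem_inst_iff, mem_tset_ren, ← hT]
    rw [h1, hsol]
    have h2 : (∃ r : ℕ → ℚ, ∀ g ∈ G, Gate.Sat r (g.map (Sum.elim id a))) ↔
        StratUnion (MM π (fun g => (Gf g).map (ev a))) := by
      constructor
      · rintro ⟨r, hr⟩
        exact strat_of_solution π hGf a r (fun g => hr _ (List.get_mem G g))
      · intro h
        obtain ⟨r, hr⟩ := solution_of_strat π (fun g => wf_map _ (hGf g)) h
        refine ⟨r, fun g hg => ?_⟩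
        obtain ⟨i, rfl⟩ := List.mem_iff_get.1 hg
        exact hr i
    rw [h2, ← stratUnion_ren_iff e]
    exact ⟨fun h => h.isContextFree, fun h => stratUnion_of_isContextFree h⟩

end Pool.Agent.MP2a1ef3
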