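import Pool.Agent.Lib.MP_2a1ef3_lc.Loc

/-!
The explicit stratified pieces.
-/

set_option autoImplicit false

namespace Pool.Agent.MP2a1ef3

variable {ι κ : Type} {k : ℕ} [LinearOrder ι] {part : ι → κ} {a : κ}

/-- Unit vector. -/
def un (u : ι) : ι → ℕ := fun t => if t = u then 1 else 0

lemma un_supp {u : ι} {i : ι} (h : un u i ≠ 0) : i = u := by
  by_contra h0
  exact h (by simp [un, h0])

/-- A single free coordinate. -/
lemma loc_free {u : ι} (hp : ∀ i, part i = a ↔ i = u) :
    Loc part a Stratified (fun _ : Fin k → ℕ => (Set.univ : Set (ι → ℕ))) := by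
  refine Loc.single 0 [ch1 u u] (by simp) (by simp [hp]) (by simp) (by simp) ?_
  intro θ x hx
  simp only [mem_LS_cons, mem_LS_nil, Set.mem_univ, true_iff]
  refine ⟨x u, ?_⟩
  funext i
  by_cases hi : i = u
  · subst hi; simp [Ch.vec]
  · have : x i = 0 := by
      by_contra h0
      exact hi ((hp i).1 (hx i h0))
    simp [Ch.vec, hi, this]

/-- The empty part. -/
lemma loc_empty (hp : ∀ i, part i ≠ a) :
    Loc part a Stratified (fun _ : Fin k → ℕ => (Set.univ : Set (ι → ℕ))) := by
  refine Loc.single 0 [] (by simp) (by simp) (by simp) (by simp) ?_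
  intro θ x hx
  simp only [mem_LS_nil, Set.mem_univ, true_iff]
  funext i
  by_contra h0
  exact hp i (hx i h0)

section pair

variable {u v : ι}

lemma loc_eq (huv : u < v) (hp : ∀ i, part i = a ↔ i = u ∨ i = v) :
    Loc part a Stratified (fun _ : Fin k → ℕ => {x : ι → ℕ | x u = x v}) := by
  have h1 := huv.ne
  have h2 := huv.ne'
  refine Loc.single 0 [ch1 u v] (by simp) (by simp [hp]) (by simp [huv.le])
    (by simp) ?_
  intro θ x hx
  simp only [mem_LS_cons, mem_LS_nil, Set.mem_ofPred_eq]
  constructor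
  · intro h
    refine ⟨x u, ?_⟩
    funext i
    by_cases hi : part i = a
    · rcases (hp i).1 hi with rfl | rfl
      · simp [Ch.vec]
      · simp [Ch.vec, h2, h]
    · have e : x i = 0 := by
        by_contra h0
        exact hi (hx i h0)
      rw [hp] at hi
      push Not at hi
      simp [Ch.vec, hi.1, hi.2, e]
  · rintro ⟨n, rfl⟩
    simp [Ch.vec]

lemma loc_gt (huv : u < v) (hp : ∀ i, part i = a ↔ i = u ∨ i = v) :
    Loc part a Stratified (fun _ : Fin k → ℕ => {x : ι → ℕ | x v < x u}) := by
  have h1 := huv.ne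
  have h2 := huv.ne'
  refine Loc.single (un u) [ch1 u v, ch1 u u] (fun i hi => (hp i).2 (Or.inl (un_supp hi)))
    (by simp [hp]) (by simp [huv.le]) (by simp) ?_
  intro θ x hx
  simp only [mem_LS_cons, mem_LS_nil, Set.mem_ofPred_eq]
  constructor
  · intro h
    refine ⟨x v, x u - x v - 1, ?_⟩
    funext i
    by_cases hi : part i = a
    · rcases (hp i).1 hi with rfl | rfl
      · simp [Ch.vec, un]; omega
      · simp [Ch.vec, h2, un]
    · have e : x i = 0 := by
        by_contra h0
        exact hi (hx i h0)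
      rw [hp] at hi
      push Not at hi
      simp [Ch.vec, hi.1, hi.2, e, un]
  · rintro ⟨n, m, rfl⟩
    simp [Ch.vec, un, h2]; omega

lemma loc_lt (huv : u < v) (hp : ∀ i, part i = a ↔ i = u ∨ i = v) :
    Loc part a Stratified (fun _ : Fin k → ℕ => {x : ι → ℕ | x u < x v}) := by
  have h1 := huv.ne
  have h2 := huv.ne'
  refine Loc.single (un v) [ch1 u v, ch1 v v] (fun i hi => (hp i).2 (Or.inr (un_supp hi)))
    (by simp [hp]) (by simp [huv.le]) (by simp) ?_
  intro θ x hx
  simp only [mem_LS_cons, mem_LS_nil, Set.mem_ofPred_eq]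
  constructor
  · intro h
    refine ⟨x u, x v - x u - 1, ?_⟩
    funext i
    by_cases hi : part i = a
    · rcases (hp i).1 hi with rfl | rfl
      · simp [Ch.vec, un, h1]
      · simp [Ch.vec, h2, un]; omega
    · have e : x i = 0 := by
        by_contra h0
        exact hi (hx i h0)
      rw [hp] at hi
      push Not at hi
      simp [Ch.vec, hi.1, hi.2, e, un]
  · rintro ⟨n, m, rfl⟩
    simp [Ch.vec, un, h1, h2]; omega

end pair

end Pool.Agent.MP2a1ef3
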