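import Pool.Agent.Lib.MP_2a1ef3_lc.Pieces

/-!
The explicit stratified pieces on four and six coordinates.
-/

set_option autoImplicit false
set_option linter.unusedSimpArgs false

namespace Pool.Agent.MP2a1ef3

variable {ι κ : Type} {k : ℕ} [LinearOrder ι] {part : ι → κ} {a : κ}

section four

variable {s t v w : ι}

lemma loc_ne1 (h0 : s < t) (h1 : t < v) (h2 : v < w)
    (hp : ∀ i, part i = a ↔ i = s ∨ i = t ∨ i = v ∨ i = w) :
    Loc part a Stratified (fun θ : Fin k → ℕ => {x : ι → ℕ | x w ≤ x v ∧ x t + x v < x s + x w}) := by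
  have e01 := h0.ne
  have f01 := h0.ne'
  have l01 := h0.le
  have m01 := h0.not_gt
  have e02 := (h0.trans h1).ne
  have f02 := (h0.trans h1).ne'
  have l02 := (h0.trans h1).le
  have m02 := (h0.trans h1).not_gt
  have e03 := ((h0.trans h1).trans h2).ne
  have f03 := ((h0.trans h1).trans h2).ne'
  have l03 := ((h0.trans h1).trans h2).le
  have m03 := ((h0.trans h1).trans h2).not_gt
  have e12 := h1.ne
  have f12 := h1.ne'
  have l12 := h1.le
  have m12 := h1.not_gt
  have e13 := (h1.trans h2).ne
  have f13 := (h1.trans h2).ne'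
  have l13 := (h1.trans h2).le
  have m13 := (h1.trans h2).not_gt
  have e23 := h2.ne
  have f23 := h2.ne'
  have l23 := h2.le
  have m23 := h2.not_gt
  refine Loc.single (un s) [ch1 s t, ch1 s v, ch1 v w, ch1 s s] (fun i hi => (hp i).2 (Or.inl (un_supp hi)))
    (by simp [hp]) (by simp [l01, l02, l03, l12, l13, l23]) (by simp [m01, m02, m03, m12, m13, m23, l01, l02, l03, l12, l13, l23]) ?_
  intro θ x hx
  simp only [mem_LS_cons, mem_LS_nil, Set.mem_ofPred_eq]
  constructor
  · intro h
    refine ⟨x t, x v - x w, x w, x s - x t - (x v - x w) - 1, ?_⟩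
    funext i
    by_cases hi : part i = a
    · rcases (hp i).1 hi with rfl | rfl | rfl | rfl
      · simp [Ch.vec, un, e01, f01, e02, f02, e03, f03, e12, f12, e13, f13, e23, f23] <;> omega
      · simp [Ch.vec, un, e01, f01, e02, f02, e03, f03, e12, f12, e13, f13, e23, f23] <;> omega
      · simp [Ch.vec, un, e01, f01, e02, f02, e03, f03, e12, f12, e13, f13, e23, f23] <;> omega
      · simp [Ch.vec, un, e01, f01, e02, f02, e03, f03, e12, f12, e13, f13, e23, f23] <;> omega
    · have e : x i = 0 := by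
        by_contra h0
        exact hi (hx i h0)
      rw [hp] at hi
      push Not at hi
      simp [Ch.vec, un, e, hi.1, hi.2.1, hi.2.2.1, hi.2.2.2]
  · rintro ⟨n0, n1, n2, n3, rfl⟩
    simp [Ch.vec, un, e01, f01, e02, f02, e03, f03, e12, f12, e13, f13, e23, f23] <;> omega

lemma loc_ne2 (h0 : s < t) (h1 : t < v) (h2 : v < w)
    (hp : ∀ i, part i = a ↔ i = s ∨ i = t ∨ i = v ∨ i = w) :
    Loc part a Stratified (fun θ : Fin k → ℕ => {x : ι → ℕ | x w < x v ∧ x s + x w < x t + x v}) := by
  have e01 := h0.ne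
  have f01 := h0.ne'
  have l01 := h0.le
  have m01 := h0.not_gt
  have e02 := (h0.trans h1).ne
  have f02 := (h0.trans h1).ne'
  have l02 := (h0.trans h1).le
  have m02 := (h0.trans h1).not_gt
  have e03 := ((h0.trans h1).trans h2).ne
  have f03 := ((h0.trans h1).trans h2).ne'
  have l03 := ((h0.trans h1).trans h2).le
  have m03 := ((h0.trans h1).trans h2).not_gt
  have e12 := h1.ne
  have f12 := h1.ne'
  have l12 := h1.le
  have m12 := h1.not_gt
  have e13 := (h1.trans h2).ne
  have f13 := (h1.trans h2).ne'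
  have l13 := (h1.trans h2).le
  have m13 := (h1.trans h2).not_gt
  have e23 := h2.ne
  have f23 := h2.ne'
  have l23 := h2.le
  have m23 := h2.not_gt
  refine Loc.single (un v) [ch1 s t, ch1 s v, ch1 v w, ch1 t t, ch1 v v] (fun i hi => (hp i).2 (Or.inr (Or.inr (Or.inl (un_supp hi)))))
    (by simp [hp]) (by simp [l01, l02, l03, l12, l13, l23]) (by simp [m01, m02, m03, m12, m13, m23, l01, l02, l03, l12, l13, l23]) ?_
  intro θ x hx
  simp only [mem_LS_cons, mem_LS_nil, Set.mem_ofPred_eq]
  constructor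
  · intro h
    refine ⟨min (x s) (x t), x s - x t, x w, x t - x s, x v - x w - 1 - (x s - x t), ?_⟩
    funext i
    by_cases hi : part i = a
    · rcases (hp i).1 hi with rfl | rfl | rfl | rfl
      · simp [Ch.vec, un, e01, f01, e02, f02, e03, f03, e12, f12, e13, f13, e23, f23] <;> omega
      · simp [Ch.vec, un, e01, f01, e02, f02, e03, f03, e12, f12, e13, f13, e23, f23] <;> omega
      · simp [Ch.vec, un, e01, f01, e02, f02, e03, f03, e12, f12, e13, f13, e23, f23] <;> omega
      · simp [Ch.vec, un, e01, f01, e02, f02, e03, f03, e12, f12, e13, f13, e23, f23] <;> omega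
    · have e : x i = 0 := by
        by_contra h0
        exact hi (hx i h0)
      rw [hp] at hi
      push Not at hi
      simp [Ch.vec, un, e, hi.1, hi.2.1, hi.2.2.1, hi.2.2.2]
  · rintro ⟨n0, n1, n2, n3, n4, rfl⟩
    simp [Ch.vec, un, e01, f01, e02, f02, e03, f03, e12, f12, e13, f13, e23, f23] <;> omega

lemma loc_ne3 (h0 : s < t) (h1 : t < v) (h2 : v < w)
    (hp : ∀ i, part i = a ↔ i = s ∨ i = t ∨ i = v ∨ i = w) :
    Loc part a Stratified (fun θ : Fin k → ℕ => {x : ι → ℕ | x v ≤ x w ∧ x s + x w < x t + x v}) := by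
  have e01 := h0.ne
  have f01 := h0.ne'
  have l01 := h0.le
  have m01 := h0.not_gt
  have e02 := (h0.trans h1).ne
  have f02 := (h0.trans h1).ne'
  have l02 := (h0.trans h1).le
  have m02 := (h0.trans h1).not_gt
  have e03 := ((h0.trans h1).trans h2).ne
  have f03 := ((h0.trans h1).trans h2).ne'
  have l03 := ((h0.trans h1).trans h2).le
  have m03 := ((h0.trans h1).trans h2).not_gt
  have e12 := h1.ne
  have f12 := h1.ne'
  have l12 := h1.le
  have m12 := h1.not_gt
  have e13 := (h1.trans h2).ne
  have f13 := (h1.trans h2).ne'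
  have l13 := (h1.trans h2).le
  have m13 := (h1.trans h2).not_gt
  have e23 := h2.ne
  have f23 := h2.ne'
  have l23 := h2.le
  have m23 := h2.not_gt
  refine Loc.single (un t) [ch1 s t, ch1 t w, ch1 v w, ch1 t t] (fun i hi => (hp i).2 (Or.inr (Or.inl (un_supp hi))))
    (by simp [hp]) (by simp [l01, l02, l03, l12, l13, l23]) (by simp [m01, m02, m03, m12, m13, m23, l01, l02, l03, l12, l13, l23]) ?_
  intro θ x hx
  simp only [mem_LS_cons, mem_LS_nil, Set.mem_ofPred_eq]
  constructor
  · intro h
    refine ⟨x s, x w - x v, x v, x t - x s - (x w - x v) - 1, ?_⟩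
    funext i
    by_cases hi : part i = a
    · rcases (hp i).1 hi with rfl | rfl | rfl | rfl
      · simp [Ch.vec, un, e01, f01, e02, f02, e03, f03, e12, f12, e13, f13, e23, f23] <;> omega
      · simp [Ch.vec, un, e01, f01, e02, f02, e03, f03, e12, f12, e13, f13, e23, f23] <;> omega
      · simp [Ch.vec, un, e01, f01, e02, f02, e03, f03, e12, f12, e13, f13, e23, f23] <;> omega
      · simp [Ch.vec, un, e01, f01, e02, f02, e03, f03, e12, f12, e13, f13, e23, f23] <;> omega
    · have e : x i = 0 := by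
        by_contra h0
        exact hi (hx i h0)
      rw [hp] at hi
      push Not at hi
      simp [Ch.vec, un, e, hi.1, hi.2.1, hi.2.2.1, hi.2.2.2]
  · rintro ⟨n0, n1, n2, n3, rfl⟩
    simp [Ch.vec, un, e01, f01, e02, f02, e03, f03, e12, f12, e13, f13, e23, f23] <;> omega

lemma loc_ne4 (h0 : s < t) (h1 : t < v) (h2 : v < w)
    (hp : ∀ i, part i = a ↔ i = s ∨ i = t ∨ i = v ∨ i = w) :
    Loc part a Stratified (fun θ : Fin k → ℕ => {x : ι → ℕ | x v < x w ∧ x t + x v < x s + x w}) := by
  have e01 := h0.ne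
  have f01 := h0.ne'
  have l01 := h0.le
  have m01 := h0.not_gt
  have e02 := (h0.trans h1).ne
  have f02 := (h0.trans h1).ne'
  have l02 := (h0.trans h1).le
  have m02 := (h0.trans h1).not_gt
  have e03 := ((h0.trans h1).trans h2).ne
  have f03 := ((h0.trans h1).trans h2).ne'
  have l03 := ((h0.trans h1).trans h2).le
  have m03 := ((h0.trans h1).trans h2).not_gt
  have e12 := h1.ne
  have f12 := h1.ne'
  have l12 := h1.le
  have m12 := h1.not_gt
  have e13 := (h1.trans h2).ne
  have f13 := (h1.trans h2).ne'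
  have l13 := (h1.trans h2).le
  have m13 := (h1.trans h2).not_gt
  have e23 := h2.ne
  have f23 := h2.ne'
  have l23 := h2.le
  have m23 := h2.not_gt
  refine Loc.single (un w) [ch1 s t, ch1 t w, ch1 v w, ch1 s s, ch1 w w] (fun i hi => (hp i).2 (Or.inr (Or.inr (Or.inr (un_supp hi)))))
    (by simp [hp]) (by simp [l01, l02, l03, l12, l13, l23]) (by simp [m01, m02, m03, m12, m13, m23, l01, l02, l03, l12, l13, l23]) ?_
  intro θ x hx
  simp only [mem_LS_cons, mem_LS_nil, Set.mem_ofPred_eq]
  constructor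
  · intro h
    refine ⟨min (x s) (x t), x t - x s, x v, x s - x t, x w - x v - 1 - (x t - x s), ?_⟩
    funext i
    by_cases hi : part i = a
    · rcases (hp i).1 hi with rfl | rfl | rfl | rfl
      · simp [Ch.vec, un, e01, f01, e02, f02, e03, f03, e12, f12, e13, f13, e23, f23] <;> omega
      · simp [Ch.vec, un, e01, f01, e02, f02, e03, f03, e12, f12, e13, f13, e23, f23] <;> omega
      · simp [Ch.vec, un, e01, f01, e02, f02, e03, f03, e12, f12, e13, f13, e23, f23] <;> omega
      · simp [Ch.vec, un, e01, f01, e02, f02, e03, f03, e12, f12, e13, f13, e23, f23] <;> omega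
    · have e : x i = 0 := by
        by_contra h0
        exact hi (hx i h0)
      rw [hp] at hi
      push Not at hi
      simp [Ch.vec, un, e, hi.1, hi.2.1, hi.2.2.1, hi.2.2.2]
  · rintro ⟨n0, n1, n2, n3, n4, rfl⟩
    simp [Ch.vec, un, e01, f01, e02, f02, e03, f03, e12, f12, e13, f13, e23, f23] <;> omega

lemma loc_one1 (h0 : s < t) (h1 : t < v) (h2 : v < w)
    (hp : ∀ i, part i = a ↔ i = s ∨ i = t ∨ i = v ∨ i = w) :
    Loc part a Stratified (fun θ : Fin k → ℕ => {x : ι → ℕ | x t ≤ x s ∧ x s + x w = x t + x v}) := by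
  have e01 := h0.ne
  have f01 := h0.ne'
  have l01 := h0.le
  have m01 := h0.not_gt
  have e02 := (h0.trans h1).ne
  have f02 := (h0.trans h1).ne'
  have l02 := (h0.trans h1).le
  have m02 := (h0.trans h1).not_gt
  have e03 := ((h0.trans h1).trans h2).ne
  have f03 := ((h0.trans h1).trans h2).ne'
  have l03 := ((h0.trans h1).trans h2).le
  have m03 := ((h0.trans h1).trans h2).not_gt
  have e12 := h1.ne
  have f12 := h1.ne'
  have l12 := h1.le
  have m12 := h1.not_gt
  have e13 := (h1.trans h2).ne
  have f13 := (h1.trans h2).ne'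
  have l13 := (h1.trans h2).le
  have m13 := (h1.trans h2).not_gt
  have e23 := h2.ne
  have f23 := h2.ne'
  have l23 := h2.le
  have m23 := h2.not_gt
  refine Loc.single 0 [ch1 s t, ch1 s v, ch1 v w] (by simp)
    (by simp [hp]) (by simp [l01, l02, l03, l12, l13, l23]) (by simp [m01, m02, m03, m12, m13, m23, l01, l02, l03, l12, l13, l23]) ?_
  intro θ x hx
  simp only [mem_LS_cons, mem_LS_nil, Set.mem_ofPred_eq]
  constructor
  · intro h
    refine ⟨x t, x s - x t, x w, ?_⟩
    funext i
    by_cases hi : part i = a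
    · rcases (hp i).1 hi with rfl | rfl | rfl | rfl
      · simp [Ch.vec, e01, f01, e02, f02, e03, f03, e12, f12, e13, f13, e23, f23] <;> omega
      · simp [Ch.vec, e01, f01, e02, f02, e03, f03, e12, f12, e13, f13, e23, f23] <;> omega
      · simp [Ch.vec, e01, f01, e02, f02, e03, f03, e12, f12, e13, f13, e23, f23] <;> omega
      · simp [Ch.vec, e01, f01, e02, f02, e03, f03, e12, f12, e13, f13, e23, f23] <;> omega
    · have e : x i = 0 := by
        by_contra h0
        exact hi (hx i h0)
      rw [hp] at hi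
      push Not at hi
      simp [Ch.vec, e, hi.1, hi.2.1, hi.2.2.1, hi.2.2.2]
  · rintro ⟨n0, n1, n2, rfl⟩
    simp [Ch.vec, e01, f01, e02, f02, e03, f03, e12, f12, e13, f13, e23, f23] <;> omega

lemma loc_one2 (h0 : s < t) (h1 : t < v) (h2 : v < w)
    (hp : ∀ i, part i = a ↔ i = s ∨ i = t ∨ i = v ∨ i = w) :
    Loc part a Stratified (fun θ : Fin k → ℕ => {x : ι → ℕ | x s ≤ x t ∧ x s + x w = x t + x v}) := by
  have e01 := h0.ne
  have f01 := h0.ne'
  have l01 := h0.le
  have m01 := h0.not_gt
  have e02 := (h0.trans h1).ne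
  have f02 := (h0.trans h1).ne'
  have l02 := (h0.trans h1).le
  have m02 := (h0.trans h1).not_gt
  have e03 := ((h0.trans h1).trans h2).ne
  have f03 := ((h0.trans h1).trans h2).ne'
  have l03 := ((h0.trans h1).trans h2).le
  have m03 := ((h0.trans h1).trans h2).not_gt
  have e12 := h1.ne
  have f12 := h1.ne'
  have l12 := h1.le
  have m12 := h1.not_gt
  have e13 := (h1.trans h2).ne
  have f13 := (h1.trans h2).ne'
  have l13 := (h1.trans h2).le
  have m13 := (h1.trans h2).not_gt
  have e23 := h2.ne
  have f23 := h2.ne'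
  have l23 := h2.le
  have m23 := h2.not_gt
  refine Loc.single 0 [ch1 s t, ch1 t w, ch1 v w] (by simp)
    (by simp [hp]) (by simp [l01, l02, l03, l12, l13, l23]) (by simp [m01, m02, m03, m12, m13, m23, l01, l02, l03, l12, l13, l23]) ?_
  intro θ x hx
  simp only [mem_LS_cons, mem_LS_nil, Set.mem_ofPred_eq]
  constructor
  · intro h
    refine ⟨x s, x t - x s, x v, ?_⟩
    funext i
    by_cases hi : part i = a
    · rcases (hp i).1 hi with rfl | rfl | rfl | rfl
      · simp [Ch.vec, e01, f01, e02, f02, e03, f03, e12, f12, e13, f13, e23, f23] <;> omega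
      · simp [Ch.vec, e01, f01, e02, f02, e03, f03, e12, f12, e13, f13, e23, f23] <;> omega
      · simp [Ch.vec, e01, f01, e02, f02, e03, f03, e12, f12, e13, f13, e23, f23] <;> omega
      · simp [Ch.vec, e01, f01, e02, f02, e03, f03, e12, f12, e13, f13, e23, f23] <;> omega
    · have e : x i = 0 := by
        by_contra h0
        exact hi (hx i h0)
      rw [hp] at hi
      push Not at hi
      simp [Ch.vec, e, hi.1, hi.2.1, hi.2.2.1, hi.2.2.2]
  · rintro ⟨n0, n1, n2, rfl⟩
    simp [Ch.vec, e01, f01, e02, f02, e03, f03, e12, f12, e13, f13, e23, f23] <;> omega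

end four

section six

variable {s t v w y z : ι}

lemma loc_add1 (h0 : s < t) (h1 : t < v) (h2 : v < w) (h3 : w < y) (h4 : y < z)
    (hp : ∀ i, part i = a ↔ i = s ∨ i = t ∨ i = v ∨ i = w ∨ i = y ∨ i = z) :
    Loc part a Stratified (fun θ : Fin k → ℕ => {x : ι → ℕ | x t ≤ x s ∧ x w ≤ x v ∧ x s + x v + x z = x t + x w + x y}) := by
  have e01 := h0.ne
  have f01 := h0.ne'
  have l01 := h0.le
  have m01 := h0.not_gt
  have e02 := (h0.trans h1).ne
  have f02 := (h0.trans h1).ne'
  have l02 := (h0.trans h1).le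
  have m02 := (h0.trans h1).not_gt
  have e03 := ((h0.trans h1).trans h2).ne
  have f03 := ((h0.trans h1).trans h2).ne'
  have l03 := ((h0.trans h1).trans h2).le
  have m03 := ((h0.trans h1).trans h2).not_gt
  have e04 := (((h0.trans h1).trans h2).trans h3).ne
  have f04 := (((h0.trans h1).trans h2).trans h3).ne'
  have l04 := (((h0.trans h1).trans h2).trans h3).le
  have m04 := (((h0.trans h1).trans h2).trans h3).not_gt
  have e05 := ((((h0.trans h1).trans h2).trans h3).trans h4).ne
  have f05 := ((((h0.trans h1).trans h2).trans h3).trans h4).ne'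
  have l05 := ((((h0.trans h1).trans h2).trans h3).trans h4).le
  have m05 := ((((h0.trans h1).trans h2).trans h3).trans h4).not_gt
  have e12 := h1.ne
  have f12 := h1.ne'
  have l12 := h1.le
  have m12 := h1.not_gt
  have e13 := (h1.trans h2).ne
  have f13 := (h1.trans h2).ne'
  have l13 := (h1.trans h2).le
  have m13 := (h1.trans h2).not_gt
  have e14 := ((h1.trans h2).trans h3).ne
  have f14 := ((h1.trans h2).trans h3).ne'
  have l14 := ((h1.trans h2).trans h3).le
  have m14 := ((h1.trans h2).trans h3).not_gt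
  have e15 := (((h1.trans h2).trans h3).trans h4).ne
  have f15 := (((h1.trans h2).trans h3).trans h4).ne'
  have l15 := (((h1.trans h2).trans h3).trans h4).le
  have m15 := (((h1.trans h2).trans h3).trans h4).not_gt
  have e23 := h2.ne
  have f23 := h2.ne'
  have l23 := h2.le
  have m23 := h2.not_gt
  have e24 := (h2.trans h3).ne
  have f24 := (h2.trans h3).ne'
  have l24 := (h2.trans h3).le
  have m24 := (h2.trans h3).not_gt
  have e25 := ((h2.trans h3).trans h4).ne
  have f25 := ((h2.trans h3).trans h4).ne'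
  have l25 := ((h2.trans h3).trans h4).le
  have m25 := ((h2.trans h3).trans h4).not_gt
  have e34 := h3.ne
  have f34 := h3.ne'
  have l34 := h3.le
  have m34 := h3.not_gt
  have e35 := (h3.trans h4).ne
  have f35 := (h3.trans h4).ne'
  have l35 := (h3.trans h4).le
  have m35 := (h3.trans h4).not_gt
  have e45 := h4.ne
  have f45 := h4.ne'
  have l45 := h4.le
  have m45 := h4.not_gt
  refine Loc.single 0 [ch1 s t, ch1 v w, ch1 y z, ch1 s y, ch1 v y] (by simp)
    (by simp [hp]) (by simp [l01, l02, l03, l04, l05, l12, l13, l14, l15, l23, l24, l25, l34, l35, l45]) (by simp [m01, m02, m03, m04, m05, m12, m13, m14, m15, m23, m24, m25, m34, m35, m45, l01, l02, l03, l04, l05, l12, l13, l14, l15, l23, l24, l25, l34, l35, l45]) ?_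
  intro θ x hx
  simp only [mem_LS_cons, mem_LS_nil, Set.mem_ofPred_eq]
  constructor
  · intro h
    refine ⟨x t, x w, x z, x s - x t, x v - x w, ?_⟩
    funext i
    by_cases hi : part i = a
    · rcases (hp i).1 hi with rfl | rfl | rfl | rfl | rfl | rfl
      · simp [Ch.vec, e01, f01, e02, f02, e03, f03, e04, f04, e05, f05, e12, f12, e13, f13, e14, f14, e15, f15, e23, f23, e24, f24, e25, f25, e34, f34, e35, f35, e45, f45] <;> omega
      · simp [Ch.vec, e01, f01, e02, f02, e03, f03, e04, f04, e05, f05, e12, f12, e13, f13, e14, f14, e15, f15, e23, f23, e24, f24, e25, f25, e34, f34, e35, f35, e45, f45] <;> omega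
      · simp [Ch.vec, e01, f01, e02, f02, e03, f03, e04, f04, e05, f05, e12, f12, e13, f13, e14, f14, e15, f15, e23, f23, e24, f24, e25, f25, e34, f34, e35, f35, e45, f45] <;> omega
      · simp [Ch.vec, e01, f01, e02, f02, e03, f03, e04, f04, e05, f05, e12, f12, e13, f13, e14, f14, e15, f15, e23, f23, e24, f24, e25, f25, e34, f34, e35, f35, e45, f45] <;> omega
      · simp [Ch.vec, e01, f01, e02, f02, e03, f03, e04, f04, e05, f05, e12, f12, e13, f13, e14, f14, e15, f15, e23, f23, e24, f24, e25, f25, e34, f34, e35, f35, e45, f45] <;> omega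
      · simp [Ch.vec, e01, f01, e02, f02, e03, f03, e04, f04, e05, f05, e12, f12, e13, f13, e14, f14, e15, f15, e23, f23, e24, f24, e25, f25, e34, f34, e35, f35, e45, f45] <;> omega
    · have e : x i = 0 := by
        by_contra h0
        exact hi (hx i h0)
      rw [hp] at hi
      push Not at hi
      simp [Ch.vec, e, hi.1, hi.2.1, hi.2.2.1, hi.2.2.2.1, hi.2.2.2.2.1, hi.2.2.2.2.2]
  · rintro ⟨n0, n1, n2, n3, n4, rfl⟩
    simp [Ch.vec, e01, f01, e02, f02, e03, f03, e04, f04, e05, f05, e12, f12, e13, f13, e14, f14, e15, f15, e23, f23, e24, f24, e25, f25, e34, f34, e35, f35, e45, f45] <;> omega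

lemma loc_add2 (h0 : s < t) (h1 : t < v) (h2 : v < w) (h3 : w < y) (h4 : y < z)
    (hp : ∀ i, part i = a ↔ i = s ∨ i = t ∨ i = v ∨ i = w ∨ i = y ∨ i = z) :
    Loc part a Stratified (fun θ : Fin k → ℕ => {x : ι → ℕ | x s ≤ x t ∧ x v ≤ x w ∧ x s + x v + x z = x t + x w + x y}) := by
  have e01 := h0.ne
  have f01 := h0.ne'
  have l01 := h0.le
  have m01 := h0.not_gt
  have e02 := (h0.trans h1).ne
  have f02 := (h0.trans h1).ne'
  have l02 := (h0.trans h1).le
  have m02 := (h0.trans h1).not_gt
  have e03 := ((h0.trans h1).trans h2).ne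
  have f03 := ((h0.trans h1).trans h2).ne'
  have l03 := ((h0.trans h1).trans h2).le
  have m03 := ((h0.trans h1).trans h2).not_gt
  have e04 := (((h0.trans h1).trans h2).trans h3).ne
  have f04 := (((h0.trans h1).trans h2).trans h3).ne'
  have l04 := (((h0.trans h1).trans h2).trans h3).le
  have m04 := (((h0.trans h1).trans h2).trans h3).not_gt
  have e05 := ((((h0.trans h1).trans h2).trans h3).trans h4).ne
  have f05 := ((((h0.trans h1).trans h2).trans h3).trans h4).ne'
  have l05 := ((((h0.trans h1).trans h2).trans h3).trans h4).le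
  have m05 := ((((h0.trans h1).trans h2).trans h3).trans h4).not_gt
  have e12 := h1.ne
  have f12 := h1.ne'
  have l12 := h1.le
  have m12 := h1.not_gt
  have e13 := (h1.trans h2).ne
  have f13 := (h1.trans h2).ne'
  have l13 := (h1.trans h2).le
  have m13 := (h1.trans h2).not_gt
  have e14 := ((h1.trans h2).trans h3).ne
  have f14 := ((h1.trans h2).trans h3).ne'
  have l14 := ((h1.trans h2).trans h3).le
  have m14 := ((h1.trans h2).trans h3).not_gt
  have e15 := (((h1.trans h2).trans h3).trans h4).ne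
  have f15 := (((h1.trans h2).trans h3).trans h4).ne'
  have l15 := (((h1.trans h2).trans h3).trans h4).le
  have m15 := (((h1.trans h2).trans h3).trans h4).not_gt
  have e23 := h2.ne
  have f23 := h2.ne'
  have l23 := h2.le
  have m23 := h2.not_gt
  have e24 := (h2.trans h3).ne
  have f24 := (h2.trans h3).ne'
  have l24 := (h2.trans h3).le
  have m24 := (h2.trans h3).not_gt
  have e25 := ((h2.trans h3).trans h4).ne
  have f25 := ((h2.trans h3).trans h4).ne'
  have l25 := ((h2.trans h3).trans h4).le
  have m25 := ((h2.trans h3).trans h4).not_gt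
  have e34 := h3.ne
  have f34 := h3.ne'
  have l34 := h3.le
  have m34 := h3.not_gt
  have e35 := (h3.trans h4).ne
  have f35 := (h3.trans h4).ne'
  have l35 := (h3.trans h4).le
  have m35 := (h3.trans h4).not_gt
  have e45 := h4.ne
  have f45 := h4.ne'
  have l45 := h4.le
  have m45 := h4.not_gt
  refine Loc.single 0 [ch1 s t, ch1 v w, ch1 y z, ch1 t z, ch1 w z] (by simp)
    (by simp [hp]) (by simp [l01, l02, l03, l04, l05, l12, l13, l14, l15, l23, l24, l25, l34, l35, l45]) (by simp [m01, m02, m03, m04, m05, m12, m13, m14, m15, m23, m24, m25, m34, m35, m45, l01, l02, l03, l04, l05, l12, l13, l14, l15, l23, l24, l25, l34, l35, l45]) ?_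
  intro θ x hx
  simp only [mem_LS_cons, mem_LS_nil, Set.mem_ofPred_eq]
  constructor
  · intro h
    refine ⟨x s, x v, x y, x t - x s, x w - x v, ?_⟩
    funext i
    by_cases hi : part i = a
    · rcases (hp i).1 hi with rfl | rfl | rfl | rfl | rfl | rfl
      · simp [Ch.vec, e01, f01, e02, f02, e03, f03, e04, f04, e05, f05, e12, f12, e13, f13, e14, f14, e15, f15, e23, f23, e24, f24, e25, f25, e34, f34, e35, f35, e45, f45] <;> omega
      · simp [Ch.vec, e01, f01, e02, f02, e03, f03, e04, f04, e05, f05, e12, f12, e13, f13, e14, f14, e15, f15, e23, f23, e24, f24, e25, f25, e34, f34, e35, f35, e45, f45] <;> omega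
      · simp [Ch.vec, e01, f01, e02, f02, e03, f03, e04, f04, e05, f05, e12, f12, e13, f13, e14, f14, e15, f15, e23, f23, e24, f24, e25, f25, e34, f34, e35, f35, e45, f45] <;> omega
      · simp [Ch.vec, e01, f01, e02, f02, e03, f03, e04, f04, e05, f05, e12, f12, e13, f13, e14, f14, e15, f15, e23, f23, e24, f24, e25, f25, e34, f34, e35, f35, e45, f45] <;> omega
      · simp [Ch.vec, e01, f01, e02, f02, e03, f03, e04, f04, e05, f05, e12, f12, e13, f13, e14, f14, e15, f15, e23, f23, e24, f24, e25, f25, e34, f34, e35, f35, e45, f45] <;> omega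
      · simp [Ch.vec, e01, f01, e02, f02, e03, f03, e04, f04, e05, f05, e12, f12, e13, f13, e14, f14, e15, f15, e23, f23, e24, f24, e25, f25, e34, f34, e35, f35, e45, f45] <;> omega
    · have e : x i = 0 := by
        by_contra h0
        exact hi (hx i h0)
      rw [hp] at hi
      push Not at hi
      simp [Ch.vec, e, hi.1, hi.2.1, hi.2.2.1, hi.2.2.2.1, hi.2.2.2.2.1, hi.2.2.2.2.2]
  · rintro ⟨n0, n1, n2, n3, n4, rfl⟩
    simp [Ch.vec, e01, f01, e02, f02, e03, f03, e04, f04, e05, f05, e12, f12, e13, f13, e14, f14, e15, f15, e23, f23, e24, f24, e25, f25, e34, f34, e35, f35, e45, f45] <;> omega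

lemma loc_add3 (h0 : s < t) (h1 : t < v) (h2 : v < w) (h3 : w < y) (h4 : y < z)
    (hp : ∀ i, part i = a ↔ i = s ∨ i = t ∨ i = v ∨ i = w ∨ i = y ∨ i = z) :
    Loc part a Stratified (fun θ : Fin k → ℕ => {x : ι → ℕ | x t ≤ x s ∧ x v ≤ x w ∧ x z ≤ x y ∧ x s + x v + x z = x t + x w + x y}) := by
  have e01 := h0.ne
  have f01 := h0.ne'
  have l01 := h0.le
  have m01 := h0.not_gt
  have e02 := (h0.trans h1).ne
  have f02 := (h0.trans h1).ne'
  have l02 := (h0.trans h1).le
  have m02 := (h0.trans h1).not_gt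
  have e03 := ((h0.trans h1).trans h2).ne
  have f03 := ((h0.trans h1).trans h2).ne'
  have l03 := ((h0.trans h1).trans h2).le
  have m03 := ((h0.trans h1).trans h2).not_gt
  have e04 := (((h0.trans h1).trans h2).trans h3).ne
  have f04 := (((h0.trans h1).trans h2).trans h3).ne'
  have l04 := (((h0.trans h1).trans h2).trans h3).le
  have m04 := (((h0.trans h1).trans h2).trans h3).not_gt
  have e05 := ((((h0.trans h1).trans h2).trans h3).trans h4).ne
  have f05 := ((((h0.trans h1).trans h2).trans h3).trans h4).ne'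
  have l05 := ((((h0.trans h1).trans h2).trans h3).trans h4).le
  have m05 := ((((h0.trans h1).trans h2).trans h3).trans h4).not_gt
  have e12 := h1.ne
  have f12 := h1.ne'
  have l12 := h1.le
  have m12 := h1.not_gt
  have e13 := (h1.trans h2).ne
  have f13 := (h1.trans h2).ne'
  have l13 := (h1.trans h2).le
  have m13 := (h1.trans h2).not_gt
  have e14 := ((h1.trans h2).trans h3).ne
  have f14 := ((h1.trans h2).trans h3).ne'
  have l14 := ((h1.trans h2).trans h3).le
  have m14 := ((h1.trans h2).trans h3).not_gt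
  have e15 := (((h1.trans h2).trans h3).trans h4).ne
  have f15 := (((h1.trans h2).trans h3).trans h4).ne'
  have l15 := (((h1.trans h2).trans h3).trans h4).le
  have m15 := (((h1.trans h2).trans h3).trans h4).not_gt
  have e23 := h2.ne
  have f23 := h2.ne'
  have l23 := h2.le
  have m23 := h2.not_gt
  have e24 := (h2.trans h3).ne
  have f24 := (h2.trans h3).ne'
  have l24 := (h2.trans h3).le
  have m24 := (h2.trans h3).not_gt
  have e25 := ((h2.trans h3).trans h4).ne
  have f25 := ((h2.trans h3).trans h4).ne'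
  have l25 := ((h2.trans h3).trans h4).le
  have m25 := ((h2.trans h3).trans h4).not_gt
  have e34 := h3.ne
  have f34 := h3.ne'
  have l34 := h3.le
  have m34 := h3.not_gt
  have e35 := (h3.trans h4).ne
  have f35 := (h3.trans h4).ne'
  have l35 := (h3.trans h4).le
  have m35 := (h3.trans h4).not_gt
  have e45 := h4.ne
  have f45 := h4.ne'
  have l45 := h4.le
  have m45 := h4.not_gt
  refine Loc.single 0 [ch1 s t, ch1 v w, ch1 y z, ch1 s w, ch1 s y] (by simp)
    (by simp [hp]) (by simp [l01, l02, l03, l04, l05, l12, l13, l14, l15, l23, l24, l25, l34, l35, l45]) (by simp [m01, m02, m03, m04, m05, m12, m13, m14, m15, m23, m24, m25, m34, m35, m45, l01, l02, l03, l04, l05, l12, l13, l14, l15, l23, l24, l25, l34, l35, l45]) ?_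
  intro θ x hx
  simp only [mem_LS_cons, mem_LS_nil, Set.mem_ofPred_eq]
  constructor
  · intro h
    refine ⟨x t, x v, x z, x w - x v, x y - x z, ?_⟩
    funext i
    by_cases hi : part i = a
    · rcases (hp i).1 hi with rfl | rfl | rfl | rfl | rfl | rfl
      · simp [Ch.vec, e01, f01, e02, f02, e03, f03, e04, f04, e05, f05, e12, f12, e13, f13, e14, f14, e15, f15, e23, f23, e24, f24, e25, f25, e34, f34, e35, f35, e45, f45] <;> omega
      · simp [Ch.vec, e01, f01, e02, f02, e03, f03, e04, f04, e05, f05, e12, f12, e13, f13, e14, f14, e15, f15, e23, f23, e24, f24, e25, f25, e34, f34, e35, f35, e45, f45] <;> omega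
      · simp [Ch.vec, e01, f01, e02, f02, e03, f03, e04, f04, e05, f05, e12, f12, e13, f13, e14, f14, e15, f15, e23, f23, e24, f24, e25, f25, e34, f34, e35, f35, e45, f45] <;> omega
      · simp [Ch.vec, e01, f01, e02, f02, e03, f03, e04, f04, e05, f05, e12, f12, e13, f13, e14, f14, e15, f15, e23, f23, e24, f24, e25, f25, e34, f34, e35, f35, e45, f45] <;> omega
      · simp [Ch.vec, e01, f01, e02, f02, e03, f03, e04, f04, e05, f05, e12, f12, e13, f13, e14, f14, e15, f15, e23, f23, e24, f24, e25, f25, e34, f34, e35, f35, e45, f45] <;> omega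
      · simp [Ch.vec, e01, f01, e02, f02, e03, f03, e04, f04, e05, f05, e12, f12, e13, f13, e14, f14, e15, f15, e23, f23, e24, f24, e25, f25, e34, f34, e35, f35, e45, f45] <;> omega
    · have e : x i = 0 := by
        by_contra h0
        exact hi (hx i h0)
      rw [hp] at hi
      push Not at hi
      simp [Ch.vec, e, hi.1, hi.2.1, hi.2.2.1, hi.2.2.2.1, hi.2.2.2.2.1, hi.2.2.2.2.2]
  · rintro ⟨n0, n1, n2, n3, n4, rfl⟩
    simp [Ch.vec, e01, f01, e02, f02, e03, f03, e04, f04, e05, f05, e12, f12, e13, f13, e14, f14, e15, f15, e23, f23, e24, f24, e25, f25, e34, f34, e35, f35, e45, f45] <;> omega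

lemma loc_add4 (h0 : s < t) (h1 : t < v) (h2 : v < w) (h3 : w < y) (h4 : y < z)
    (hp : ∀ i, part i = a ↔ i = s ∨ i = t ∨ i = v ∨ i = w ∨ i = y ∨ i = z) :
    Loc part a Stratified (fun θ : Fin k → ℕ => {x : ι → ℕ | x t ≤ x s ∧ x v ≤ x w ∧ x y ≤ x z ∧ x s + x v + x z = x t + x w + x y}) := by
  have e01 := h0.ne
  have f01 := h0.ne'
  have l01 := h0.le
  have m01 := h0.not_gt
  have e02 := (h0.trans h1).ne
  have f02 := (h0.trans h1).ne'
  have l02 := (h0.trans h1).le
  have m02 := (h0.trans h1).not_gt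
  have e03 := ((h0.trans h1).trans h2).ne
  have f03 := ((h0.trans h1).trans h2).ne'
  have l03 := ((h0.trans h1).trans h2).le
  have m03 := ((h0.trans h1).trans h2).not_gt
  have e04 := (((h0.trans h1).trans h2).trans h3).ne
  have f04 := (((h0.trans h1).trans h2).trans h3).ne'
  have l04 := (((h0.trans h1).trans h2).trans h3).le
  have m04 := (((h0.trans h1).trans h2).trans h3).not_gt
  have e05 := ((((h0.trans h1).trans h2).trans h3).trans h4).ne
  have f05 := ((((h0.trans h1).trans h2).trans h3).trans h4).ne'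
  have l05 := ((((h0.trans h1).trans h2).trans h3).trans h4).le
  have m05 := ((((h0.trans h1).trans h2).trans h3).trans h4).not_gt
  have e12 := h1.ne
  have f12 := h1.ne'
  have l12 := h1.le
  have m12 := h1.not_gt
  have e13 := (h1.trans h2).ne
  have f13 := (h1.trans h2).ne'
  have l13 := (h1.trans h2).le
  have m13 := (h1.trans h2).not_gt
  have e14 := ((h1.trans h2).trans h3).ne
  have f14 := ((h1.trans h2).trans h3).ne'
  have l14 := ((h1.trans h2).trans h3).le
  have m14 := ((h1.trans h2).trans h3).not_gt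
  have e15 := (((h1.trans h2).trans h3).trans h4).ne
  have f15 := (((h1.trans h2).trans h3).trans h4).ne'
  have l15 := (((h1.trans h2).trans h3).trans h4).le
  have m15 := (((h1.trans h2).trans h3).trans h4).not_gt
  have e23 := h2.ne
  have f23 := h2.ne'
  have l23 := h2.le
  have m23 := h2.not_gt
  have e24 := (h2.trans h3).ne
  have f24 := (h2.trans h3).ne'
  have l24 := (h2.trans h3).le
  have m24 := (h2.trans h3).not_gt
  have e25 := ((h2.trans h3).trans h4).ne
  have f25 := ((h2.trans h3).trans h4).ne'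
  have l25 := ((h2.trans h3).trans h4).le
  have m25 := ((h2.trans h3).trans h4).not_gt
  have e34 := h3.ne
  have f34 := h3.ne'
  have l34 := h3.le
  have m34 := h3.not_gt
  have e35 := (h3.trans h4).ne
  have f35 := (h3.trans h4).ne'
  have l35 := (h3.trans h4).le
  have m35 := (h3.trans h4).not_gt
  have e45 := h4.ne
  have f45 := h4.ne'
  have l45 := h4.le
  have m45 := h4.not_gt
  refine Loc.single 0 [ch1 s t, ch1 v w, ch1 y z, ch1 s w, ch1 w z] (by simp)
    (by simp [hp]) (by simp [l01, l02, l03, l04, l05, l12, l13, l14, l15, l23, l24, l25, l34, l35, l45]) (by simp [m01, m02, m03, m04, m05, m12, m13, m14, m15, m23, m24, m25, m34, m35, m45, l01, l02, l03, l04, l05, l12, l13, l14, l15, l23, l24, l25, l34, l35, l45]) ?_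
  intro θ x hx
  simp only [mem_LS_cons, mem_LS_nil, Set.mem_ofPred_eq]
  constructor
  · intro h
    refine ⟨x t, x v, x y, x s - x t, x z - x y, ?_⟩
    funext i
    by_cases hi : part i = a
    · rcases (hp i).1 hi with rfl | rfl | rfl | rfl | rfl | rfl
      · simp [Ch.vec, e01, f01, e02, f02, e03, f03, e04, f04, e05, f05, e12, f12, e13, f13, e14, f14, e15, f15, e23, f23, e24, f24, e25, f25, e34, f34, e35, f35, e45, f45] <;> omega
      · simp [Ch.vec, e01, f01, e02, f02, e03, f03, e04, f04, e05, f05, e12, f12, e13, f13, e14, f14, e15, f15, e23, f23, e24, f24, e25, f25, e34, f34, e35, f35, e45, f45] <;> omega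
      · simp [Ch.vec, e01, f01, e02, f02, e03, f03, e04, f04, e05, f05, e12, f12, e13, f13, e14, f14, e15, f15, e23, f23, e24, f24, e25, f25, e34, f34, e35, f35, e45, f45] <;> omega
      · simp [Ch.vec, e01, f01, e02, f02, e03, f03, e04, f04, e05, f05, e12, f12, e13, f13, e14, f14, e15, f15, e23, f23, e24, f24, e25, f25, e34, f34, e35, f35, e45, f45] <;> omega
      · simp [Ch.vec, e01, f01, e02, f02, e03, f03, e04, f04, e05, f05, e12, f12, e13, f13, e14, f14, e15, f15, e23, f23, e24, f24, e25, f25, e34, f34, e35, f35, e45, f45] <;> omega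
      · simp [Ch.vec, e01, f01, e02, f02, e03, f03, e04, f04, e05, f05, e12, f12, e13, f13, e14, f14, e15, f15, e23, f23, e24, f24, e25, f25, e34, f34, e35, f35, e45, f45] <;> omega
    · have e : x i = 0 := by
        by_contra h0
        exact hi (hx i h0)
      rw [hp] at hi
      push Not at hi
      simp [Ch.vec, e, hi.1, hi.2.1, hi.2.2.1, hi.2.2.2.1, hi.2.2.2.2.1, hi.2.2.2.2.2]
  · rintro ⟨n0, n1, n2, n3, n4, rfl⟩
    simp [Ch.vec, e01, f01, e02, f02, e03, f03, e04, f04, e05, f05, e12, f12, e13, f13, e14, f14, e15, f15, e23, f23, e24, f24, e25, f25, e34, f34, e35, f35, e45, f45] <;> omega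

lemma loc_add5 (h0 : s < t) (h1 : t < v) (h2 : v < w) (h3 : w < y) (h4 : y < z)
    (hp : ∀ i, part i = a ↔ i = s ∨ i = t ∨ i = v ∨ i = w ∨ i = y ∨ i = z) :
    Loc part a Stratified (fun θ : Fin k → ℕ => {x : ι → ℕ | x s ≤ x t ∧ x w ≤ x v ∧ x z ≤ x y ∧ x s + x v + x z = x t + x w + x y}) := by
  have e01 := h0.ne
  have f01 := h0.ne'
  have l01 := h0.le
  have m01 := h0.not_gt
  have e02 := (h0.trans h1).ne
  have f02 := (h0.trans h1).ne'
  have l02 := (h0.trans h1).le
  have m02 := (h0.trans h1).not_gt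
  have e03 := ((h0.trans h1).trans h2).ne
  have f03 := ((h0.trans h1).trans h2).ne'
  have l03 := ((h0.trans h1).trans h2).le
  have m03 := ((h0.trans h1).trans h2).not_gt
  have e04 := (((h0.trans h1).trans h2).trans h3).ne
  have f04 := (((h0.trans h1).trans h2).trans h3).ne'
  have l04 := (((h0.trans h1).trans h2).trans h3).le
  have m04 := (((h0.trans h1).trans h2).trans h3).not_gt
  have e05 := ((((h0.trans h1).trans h2).trans h3).trans h4).ne
  have f05 := ((((h0.trans h1).trans h2).trans h3).trans h4).ne'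
  have l05 := ((((h0.trans h1).trans h2).trans h3).trans h4).le
  have m05 := ((((h0.trans h1).trans h2).trans h3).trans h4).not_gt
  have e12 := h1.ne
  have f12 := h1.ne'
  have l12 := h1.le
  have m12 := h1.not_gt
  have e13 := (h1.trans h2).ne
  have f13 := (h1.trans h2).ne'
  have l13 := (h1.trans h2).le
  have m13 := (h1.trans h2).not_gt
  have e14 := ((h1.trans h2).trans h3).ne
  have f14 := ((h1.trans h2).trans h3).ne'
  have l14 := ((h1.trans h2).trans h3).le
  have m14 := ((h1.trans h2).trans h3).not_gt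
  have e15 := (((h1.trans h2).trans h3).trans h4).ne
  have f15 := (((h1.trans h2).trans h3).trans h4).ne'
  have l15 := (((h1.trans h2).trans h3).trans h4).le
  have m15 := (((h1.trans h2).trans h3).trans h4).not_gt
  have e23 := h2.ne
  have f23 := h2.ne'
  have l23 := h2.le
  have m23 := h2.not_gt
  have e24 := (h2.trans h3).ne
  have f24 := (h2.trans h3).ne'
  have l24 := (h2.trans h3).le
  have m24 := (h2.trans h3).not_gt
  have e25 := ((h2.trans h3).trans h4).ne
  have f25 := ((h2.trans h3).trans h4).ne'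
  have l25 := ((h2.trans h3).trans h4).le
  have m25 := ((h2.trans h3).trans h4).not_gt
  have e34 := h3.ne
  have f34 := h3.ne'
  have l34 := h3.le
  have m34 := h3.not_gt
  have e35 := (h3.trans h4).ne
  have f35 := (h3.trans h4).ne'
  have l35 := (h3.trans h4).le
  have m35 := (h3.trans h4).not_gt
  have e45 := h4.ne
  have f45 := h4.ne'
  have l45 := h4.le
  have m45 := h4.not_gt
  refine Loc.single 0 [ch1 s t, ch1 v w, ch1 y z, ch1 t v, ch1 v y] (by simp)
    (by simp [hp]) (by simp [l01, l02, l03, l04, l05, l12, l13, l14, l15, l23, l24, l25, l34, l35, l45]) (by simp [m01, m02, m03, m04, m05, m12, m13, m14, m15, m23, m24, m25, m34, m35, m45, l01, l02, l03, l04, l05, l12, l13, l14, l15, l23, l24, l25, l34, l35, l45]) ?_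
  intro θ x hx
  simp only [mem_LS_cons, mem_LS_nil, Set.mem_ofPred_eq]
  constructor
  · intro h
    refine ⟨x s, x w, x z, x t - x s, x y - x z, ?_⟩
    funext i
    by_cases hi : part i = a
    · rcases (hp i).1 hi with rfl | rfl | rfl | rfl | rfl | rfl
      · simp [Ch.vec, e01, f01, e02, f02, e03, f03, e04, f04, e05, f05, e12, f12, e13, f13, e14, f14, e15, f15, e23, f23, e24, f24, e25, f25, e34, f34, e35, f35, e45, f45] <;> omega
      · simp [Ch.vec, e01, f01, e02, f02, e03, f03, e04, f04, e05, f05, e12, f12, e13, f13, e14, f14, e15, f15, e23, f23, e24, f24, e25, f25, e34, f34, e35, f35, e45, f45] <;> omega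
      · simp [Ch.vec, e01, f01, e02, f02, e03, f03, e04, f04, e05, f05, e12, f12, e13, f13, e14, f14, e15, f15, e23, f23, e24, f24, e25, f25, e34, f34, e35, f35, e45, f45] <;> omega
      · simp [Ch.vec, e01, f01, e02, f02, e03, f03, e04, f04, e05, f05, e12, f12, e13, f13, e14, f14, e15, f15, e23, f23, e24, f24, e25, f25, e34, f34, e35, f35, e45, f45] <;> omega
      · simp [Ch.vec, e01, f01, e02, f02, e03, f03, e04, f04, e05, f05, e12, f12, e13, f13, e14, f14, e15, f15, e23, f23, e24, f24, e25, f25, e34, f34, e35, f35, e45, f45] <;> omega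
      · simp [Ch.vec, e01, f01, e02, f02, e03, f03, e04, f04, e05, f05, e12, f12, e13, f13, e14, f14, e15, f15, e23, f23, e24, f24, e25, f25, e34, f34, e35, f35, e45, f45] <;> omega
    · have e : x i = 0 := by
        by_contra h0
        exact hi (hx i h0)
      rw [hp] at hi
      push Not at hi
      simp [Ch.vec, e, hi.1, hi.2.1, hi.2.2.1, hi.2.2.2.1, hi.2.2.2.2.1, hi.2.2.2.2.2]
  · rintro ⟨n0, n1, n2, n3, n4, rfl⟩
    simp [Ch.vec, e01, f01, e02, f02, e03, f03, e04, f04, e05, f05, e12, f12, e13, f13, e14, f14, e15, f15, e23, f23, e24, f24, e25, f25, e34, f34, e35, f35, e45, f45] <;> omega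

lemma loc_add6 (h0 : s < t) (h1 : t < v) (h2 : v < w) (h3 : w < y) (h4 : y < z)
    (hp : ∀ i, part i = a ↔ i = s ∨ i = t ∨ i = v ∨ i = w ∨ i = y ∨ i = z) :
    Loc part a Stratified (fun θ : Fin k → ℕ => {x : ι → ℕ | x s ≤ x t ∧ x w ≤ x v ∧ x y ≤ x z ∧ x s + x v + x z = x t + x w + x y}) := by
  have e01 := h0.ne
  have f01 := h0.ne'
  have l01 := h0.le
  have m01 := h0.not_gt
  have e02 := (h0.trans h1).ne
  have f02 := (h0.trans h1).ne'
  have l02 := (h0.trans h1).le
  have m02 := (h0.trans h1).not_gt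
  have e03 := ((h0.trans h1).trans h2).ne
  have f03 := ((h0.trans h1).trans h2).ne'
  have l03 := ((h0.trans h1).trans h2).le
  have m03 := ((h0.trans h1).trans h2).not_gt
  have e04 := (((h0.trans h1).trans h2).trans h3).ne
  have f04 := (((h0.trans h1).trans h2).trans h3).ne'
  have l04 := (((h0.trans h1).trans h2).trans h3).le
  have m04 := (((h0.trans h1).trans h2).trans h3).not_gt
  have e05 := ((((h0.trans h1).trans h2).trans h3).trans h4).ne
  have f05 := ((((h0.trans h1).trans h2).trans h3).trans h4).ne'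
  have l05 := ((((h0.trans h1).trans h2).trans h3).trans h4).le
  have m05 := ((((h0.trans h1).trans h2).trans h3).trans h4).not_gt
  have e12 := h1.ne
  have f12 := h1.ne'
  have l12 := h1.le
  have m12 := h1.not_gt
  have e13 := (h1.trans h2).ne
  have f13 := (h1.trans h2).ne'
  have l13 := (h1.trans h2).le
  have m13 := (h1.trans h2).not_gt
  have e14 := ((h1.trans h2).trans h3).ne
  have f14 := ((h1.trans h2).trans h3).ne'
  have l14 := ((h1.trans h2).trans h3).le
  have m14 := ((h1.trans h2).trans h3).not_gt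
  have e15 := (((h1.trans h2).trans h3).trans h4).ne
  have f15 := (((h1.trans h2).trans h3).trans h4).ne'
  have l15 := (((h1.trans h2).trans h3).trans h4).le
  have m15 := (((h1.trans h2).trans h3).trans h4).not_gt
  have e23 := h2.ne
  have f23 := h2.ne'
  have l23 := h2.le
  have m23 := h2.not_gt
  have e24 := (h2.trans h3).ne
  have f24 := (h2.trans h3).ne'
  have l24 := (h2.trans h3).le
  have m24 := (h2.trans h3).not_gt
  have e25 := ((h2.trans h3).trans h4).ne
  have f25 := ((h2.trans h3).trans h4).ne'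
  have l25 := ((h2.trans h3).trans h4).le
  have m25 := ((h2.trans h3).trans h4).not_gt
  have e34 := h3.ne
  have f34 := h3.ne'
  have l34 := h3.le
  have m34 := h3.not_gt
  have e35 := (h3.trans h4).ne
  have f35 := (h3.trans h4).ne'
  have l35 := (h3.trans h4).le
  have m35 := (h3.trans h4).not_gt
  have e45 := h4.ne
  have f45 := h4.ne'
  have l45 := h4.le
  have m45 := h4.not_gt
  refine Loc.single 0 [ch1 s t, ch1 v w, ch1 y z, ch1 t v, ch1 t z] (by simp)
    (by simp [hp]) (by simp [l01, l02, l03, l04, l05, l12, l13, l14, l15, l23, l24, l25, l34, l35, l45]) (by simp [m01, m02, m03, m04, m05, m12, m13, m14, m15, m23, m24, m25, m34, m35, m45, l01, l02, l03, l04, l05, l12, l13, l14, l15, l23, l24, l25, l34, l35, l45]) ?_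
  intro θ x hx
  simp only [mem_LS_cons, mem_LS_nil, Set.mem_ofPred_eq]
  constructor
  · intro h
    refine ⟨x s, x w, x y, x v - x w, x z - x y, ?_⟩
    funext i
    by_cases hi : part i = a
    · rcases (hp i).1 hi with rfl | rfl | rfl | rfl | rfl | rfl
      · simp [Ch.vec, e01, f01, e02, f02, e03, f03, e04, f04, e05, f05, e12, f12, e13, f13, e14, f14, e15, f15, e23, f23, e24, f24, e25, f25, e34, f34, e35, f35, e45, f45] <;> omega
      · simp [Ch.vec, e01, f01, e02, f02, e03, f03, e04, f04, e05, f05, e12, f12, e13, f13, e14, f14, e15, f15, e23, f23, e24, f24, e25, f25, e34, f34, e35, f35, e45, f45] <;> omega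
      · simp [Ch.vec, e01, f01, e02, f02, e03, f03, e04, f04, e05, f05, e12, f12, e13, f13, e14, f14, e15, f15, e23, f23, e24, f24, e25, f25, e34, f34, e35, f35, e45, f45] <;> omega
      · simp [Ch.vec, e01, f01, e02, f02, e03, f03, e04, f04, e05, f05, e12, f12, e13, f13, e14, f14, e15, f15, e23, f23, e24, f24, e25, f25, e34, f34, e35, f35, e45, f45] <;> omega
      · simp [Ch.vec, e01, f01, e02, f02, e03, f03, e04, f04, e05, f05, e12, f12, e13, f13, e14, f14, e15, f15, e23, f23, e24, f24, e25, f25, e34, f34, e35, f35, e45, f45] <;> omega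
      · simp [Ch.vec, e01, f01, e02, f02, e03, f03, e04, f04, e05, f05, e12, f12, e13, f13, e14, f14, e15, f15, e23, f23, e24, f24, e25, f25, e34, f34, e35, f35, e45, f45] <;> omega
    · have e : x i = 0 := by
        by_contra h0
        exact hi (hx i h0)
      rw [hp] at hi
      push Not at hi
      simp [Ch.vec, e, hi.1, hi.2.1, hi.2.2.1, hi.2.2.2.1, hi.2.2.2.2.1, hi.2.2.2.2.2]
  · rintro ⟨n0, n1, n2, n3, n4, rfl⟩
    simp [Ch.vec, e01, f01, e02, f02, e03, f03, e04, f04, e05, f05, e12, f12, e13, f13, e14, f14, e15, f15, e23, f23, e24, f24, e25, f25, e34, f34, e35, f35, e45, f45] <;> omega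

end six

end Pool.Agent.MP2a1ef3
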