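import Pool.Agent.Lib.MP_2a1ef3_lc.Pieces2

/-!
Pieces with coefficients: linear gates and coverage of the balanced vectors.
-/

set_option autoImplicit false
set_option linter.unusedSimpArgs false

namespace Pool.Agent.MP2a1ef3

variable {ι κ : Type} {k : ℕ} [LinearOrder ι] {part : ι → κ} {a : κ} {s t v w : ι}

lemma loc_lin1 (c : ℕ ⊕ Fin k) (h0 : s < t) (h1 : t < v) (h2 : v < w)
    (hp : ∀ i, part i = a ↔ i = s ∨ i = t ∨ i = v ∨ i = w) :
    Loc part a Stratified (fun θ : Fin k → ℕ =>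
      {x : ι → ℕ | x t ≤ x s ∧ x v = x w + ev θ c * (x s - x t)}) := by
  have e01 := h0.ne
  have e12 := h1.ne
  have e23 := h2.ne
  have e02 := (h0.trans h1).ne
  have e13 := (h1.trans h2).ne
  have e03 := ((h0.trans h1).trans h2).ne
  refine Loc.single 0 [ch1 s t, ch1 v w, ⟨s, v, Sum.inl 1, c⟩] (by simp)
    (by simp [hp]) (by simp [h0.le, h2.le, (h0.trans h1).le])
    (by simp [h0.not_gt, h1.not_gt, h2.not_gt, (h0.trans h1).not_gt, (h1.trans h2).not_gt,
      h0.le, h1.le, h2.le]) ?_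
  intro θ x hx
  simp only [mem_LS_cons, mem_LS_nil, Set.mem_ofPred_eq]
  constructor
  · intro h
    refine ⟨x t, x w, x s - x t, ?_⟩
    funext i
    by_cases hi : part i = a
    · rcases (hp i).1 hi with rfl | rfl | rfl | rfl
      · simp [Ch.vec, e01, e01.symm, e02, e02.symm, e03, e03.symm, e12, e12.symm, e13,
          e13.symm, e23, e23.symm]; omega
      · simp [Ch.vec, e01, e01.symm, e02, e02.symm, e03, e03.symm, e12, e12.symm, e13,
          e13.symm, e23, e23.symm]
      · simp [Ch.vec, e01, e01.symm, e02, e02.symm, e03, e03.symm, e12, e12.symm, e13,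
          e13.symm, e23, e23.symm]
        rw [h.2, Nat.mul_comm]
      · simp [Ch.vec, e01, e01.symm, e02, e02.symm, e03, e03.symm, e12, e12.symm, e13,
          e13.symm, e23, e23.symm]
    · have e : x i = 0 := by
        by_contra h0
        exact hi (hx i h0)
      rw [hp] at hi
      push Not at hi
      simp [Ch.vec, e, hi.1, hi.2.1, hi.2.2.1, hi.2.2.2]
  · rintro ⟨n0, n1, n2, rfl⟩
    simp [Ch.vec, e01, e01.symm, e02, e02.symm, e03, e03.symm, e12, e12.symm, e13,
          e13.symm, e23, e23.symm]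
    ring

lemma loc_lin2 (c : ℕ ⊕ Fin k) (h0 : s < t) (h1 : t < v) (h2 : v < w)
    (hp : ∀ i, part i = a ↔ i = s ∨ i = t ∨ i = v ∨ i = w) :
    Loc part a Stratified (fun θ : Fin k → ℕ =>
      {x : ι → ℕ | x s ≤ x t ∧ x w = x v + ev θ c * (x t - x s)}) := by
  have e01 := h0.ne
  have e12 := h1.ne
  have e23 := h2.ne
  have e02 := (h0.trans h1).ne
  have e13 := (h1.trans h2).ne
  have e03 := ((h0.trans h1).trans h2).ne
  refine Loc.single 0 [ch1 s t, ch1 v w, ⟨t, w, Sum.inl 1, c⟩] (by simp)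
    (by simp [hp]) (by simp [h0.le, h2.le, (h1.trans h2).le])
    (by simp [h0.not_gt, h1.not_gt, h2.not_gt, (h0.trans h1).not_gt, (h1.trans h2).not_gt,
      h0.le, h1.le, h2.le]) ?_
  intro θ x hx
  simp only [mem_LS_cons, mem_LS_nil, Set.mem_ofPred_eq]
  constructor
  · intro h
    refine ⟨x s, x v, x t - x s, ?_⟩
    funext i
    by_cases hi : part i = a
    · rcases (hp i).1 hi with rfl | rfl | rfl | rfl
      · simp [Ch.vec, e01, e01.symm, e02, e02.symm, e03, e03.symm, e12, e12.symm, e13,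
          e13.symm, e23, e23.symm]
      · simp [Ch.vec, e01, e01.symm, e02, e02.symm, e03, e03.symm, e12, e12.symm, e13,
          e13.symm, e23, e23.symm]; omega
      · simp [Ch.vec, e01, e01.symm, e02, e02.symm, e03, e03.symm, e12, e12.symm, e13,
          e13.symm, e23, e23.symm]
      · simp [Ch.vec, e01, e01.symm, e02, e02.symm, e03, e03.symm, e12, e12.symm, e13,
          e13.symm, e23, e23.symm]
        rw [h.2, Nat.mul_comm]
    · have e : x i = 0 := by
        by_contra h0
        exact hi (hx i h0)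
      rw [hp] at hi
      push Not at hi
      simp [Ch.vec, e, hi.1, hi.2.1, hi.2.2.1, hi.2.2.2]
  · rintro ⟨n0, n1, n2, rfl⟩
    simp [Ch.vec, e01, e01.symm, e02, e02.symm, e03, e03.symm, e12, e12.symm, e13,
          e13.symm, e23, e23.symm]
    ring

/-- Combined: the linear gate condition. -/
lemma loc_lin (c : ℕ ⊕ Fin k) (h0 : s < t) (h1 : t < v) (h2 : v < w)
    (hp : ∀ i, part i = a ↔ i = s ∨ i = t ∨ i = v ∨ i = w) :
    Loc part a Stratified (fun θ : Fin k → ℕ =>
      {x : ι → ℕ | x v + ev θ c * x t = x w + ev θ c * x s}) := by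
  refine ((loc_lin1 c h0 h1 h2 hp).union (loc_lin2 c h0 h1 h2 hp)).congr ?_
  intro θ x _
  simp only [Set.mem_ofPred_eq, Set.mem_union]
  rcases le_total (x t) (x s) with h | h
  · obtain ⟨d, hd⟩ := Nat.exists_eq_add_of_le h
    rw [hd]
    constructor
    · intro h'
      left
      refine ⟨by omega, ?_⟩
      rw [Nat.add_sub_cancel_left]
      rw [Nat.mul_add] at h'
      omega
    · rintro (⟨-, h'⟩ | ⟨h1, h'⟩)
      · rw [Nat.add_sub_cancel_left] at h'
        rw [Nat.mul_add]
        omega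
      · have : d = 0 := by omega
        subst this
        simp at h' ⊢
        omega
  · obtain ⟨d, hd⟩ := Nat.exists_eq_add_of_le h
    rw [hd]
    constructor
    · intro h'
      right
      refine ⟨by omega, ?_⟩
      rw [Nat.add_sub_cancel_left]
      rw [Nat.mul_add] at h'
      omega
    · rintro (⟨h1, h'⟩ | ⟨-, h'⟩)
      · have : d = 0 := by omega
        subst this
        simp at h' ⊢
        omega
      · rw [Nat.add_sub_cancel_left] at h'
        rw [Nat.mul_add]
        omega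

/-- The condition `x s - x t ≠ x v - x w`. -/
lemma loc_ne (h0 : s < t) (h1 : t < v) (h2 : v < w)
    (hp : ∀ i, part i = a ↔ i = s ∨ i = t ∨ i = v ∨ i = w) :
    Loc part a Stratified (fun _ : Fin k → ℕ =>
      {x : ι → ℕ | x s + x w ≠ x t + x v}) := by
  refine ((((loc_ne1 h0 h1 h2 hp).union (loc_ne2 h0 h1 h2 hp)).union
    (loc_ne3 h0 h1 h2 hp)).union (loc_ne4 h0 h1 h2 hp)).congr ?_
  intro θ x _
  simp only [Set.mem_ofPred_eq, Set.mem_union]
  omega

/-- The condition `x s - x v = x t - x w`. -/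
lemma loc_one (h0 : s < t) (h1 : t < v) (h2 : v < w)
    (hp : ∀ i, part i = a ↔ i = s ∨ i = t ∨ i = v ∨ i = w) :
    Loc part a Stratified (fun _ : Fin k → ℕ =>
      {x : ι → ℕ | x s + x w = x t + x v}) := by
  refine ((loc_one1 h0 h1 h2 hp).union (loc_one2 h0 h1 h2 hp)).congr ?_
  intro θ x _
  simp only [Set.mem_ofPred_eq, Set.mem_union]
  omega

lemma loc_add {y z : ι} (h0 : s < t) (h1 : t < v) (h2 : v < w) (h3 : w < y) (h4 : y < z)
    (hp : ∀ i, part i = a ↔ i = s ∨ i = t ∨ i = v ∨ i = w ∨ i = y ∨ i = z) :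
    Loc part a Stratified (fun _ : Fin k → ℕ =>
      {x : ι → ℕ | x s + x v + x z = x t + x w + x y}) := by
  refine ((((((loc_add1 h0 h1 h2 h3 h4 hp).union (loc_add2 h0 h1 h2 h3 h4 hp)).union
    (loc_add3 h0 h1 h2 h3 h4 hp)).union (loc_add4 h0 h1 h2 h3 h4 hp)).union
    (loc_add5 h0 h1 h2 h3 h4 hp)).union (loc_add6 h0 h1 h2 h3 h4 hp)).congr ?_
  intro θ x _
  simp only [Set.mem_ofPred_eq, Set.mem_union]
  omega

end Pool.Agent.MP2a1ef3
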