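import Pool.Agent.Lib.MP_2a1ef3_lc.Cover

/-!
The semilinear set of a system of gates and its two descriptions.
-/

set_option autoImplicit false
set_option linter.unusedSimpArgs false

namespace Pool.Agent.MP2a1ef3

/-- Positions: four letters in every block. -/
abbrev Pos (Bl : Type) : Type := Bl ×ₗ Fin 4

section pos

variable {Bl : Type}

/-- The position of letter `t` of block `b`. -/
def at' (b : Bl) (t : Fin 4) : Pos Bl := toLex (b, t)

/-- The block of a position. -/
def blk (i : Pos Bl) : Bl := (ofLex i).1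

/-- The letter of a position. -/
def lt4 (i : Pos Bl) : Fin 4 := (ofLex i).2

@[simp] lemma blk_at (b : Bl) (t : Fin 4) : blk (at' b t) = b := rfl
@[simp] lemma lt4_at (b : Bl) (t : Fin 4) : lt4 (at' b t) = t := rfl

lemma at_blk (i : Pos Bl) : at' (blk i) (lt4 i) = i := rfl

lemma at_inj {b b' : Bl} {t t' : Fin 4} : at' b t = at' b' t' ↔ b = b' ∧ t = t' := by
  constructor
  · intro h
    exact ⟨by simpa using congrArg blk h, by simpa using congrArg lt4 h⟩
  · rintro ⟨rfl, rfl⟩
    rfl

variable [LinearOrder Bl]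

lemma at_lt {b b' : Bl} {t t' : Fin 4} : at' b t < at' b' t' ↔ b < b' ∨ b = b' ∧ t < t' :=
  Prod.Lex.toLex_lt_toLex

lemma pos_lt {i j : Pos Bl} : i < j ↔ blk i < blk j ∨ blk i = blk j ∧ lt4 i < lt4 j := by
  rw [← at_blk i, ← at_blk j, at_lt]
  rfl

lemma blk_le {i j : Pos Bl} (h : i < j) : blk i ≤ blk j := by
  rcases pos_lt.1 h with h | h
  exacts [h.le, h.1.le]

end pos

section piece

variable {Bl : Type} [LinearOrder Bl] [Fintype Bl] {k : ℕ}

/-- The `p`-difference of a block. -/
def al (x : Pos Bl → ℕ) (b : Bl) : ℤ := (x (at' b 0) : ℤ) - x (at' b 2)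

/-- The `q`-difference of a block. -/
def be (x : Pos Bl → ℕ) (b : Bl) : ℤ := (x (at' b 1) : ℤ) - x (at' b 3)

/-- The partition used for the pieces. -/
def prt (V : Finset Bl) (C : Finset (Pos Bl)) (i : Pos Bl) : Option (Bl ⊕ Pos Bl) :=
  if i ∈ C then none
  else if (lt4 i = 0 ∨ lt4 i = 2) ∧ blk i ∉ V then some (Sum.inl (blk i))
  else some (Sum.inr i)

variable {V : Finset Bl} {C : Finset (Pos Bl)}

lemma prt_none {i : Pos Bl} : prt V C i = none ↔ i ∈ C := by
  unfold prt
  split_ifs with h1 h2 <;> simp [h1]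

lemma prt_inl (hC : ∀ i ∈ C, blk i ∈ V) {i : Pos Bl} {b : Bl} :
    prt V C i = some (Sum.inl b) ↔ b ∉ V ∧ (i = at' b 0 ∨ i = at' b 2) := by
  unfold prt
  constructor
  · intro h
    split_ifs at h with h1 h2
    · simp only [Option.some.injEq, Sum.inl.injEq] at h
      subst h
      refine ⟨h2.2, ?_⟩
      rcases h2.1 with h | h
      · left; rw [← h]; exact (at_blk i).symm
      · right; rw [← h]; exact (at_blk i).symm
    · simp at h
  · rintro ⟨hb, h⟩
    have h1 : blk i = b := by rcases h with rfl | rfl <;> simp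
    have h2 : i ∉ C := fun hi => hb (h1 ▸ hC i hi)
    have h3 : lt4 i = 0 ∨ lt4 i = 2 := by rcases h with rfl | rfl <;> simp
    rw [if_neg h2, if_pos ⟨h3, h1 ▸ hb⟩, h1]

lemma prt_inr {i j : Pos Bl} (h : prt V C i = some (Sum.inr j)) : i = j := by
  unfold prt at h
  split_ifs at h with h1 h2
  · simp at h
  · simpa using h

lemma prt_cross (hC : ∀ i ∈ C, blk i ∈ V) (a b : Option (Bl ⊕ Pos Bl)) (hab : a ≠ b)
    (i j l m : Pos Bl) (hij : i < j) (hjl : j < l) (hlm : l < m) (hi : prt V C i = a)
    (hl : prt V C l = a) (hj : prt V C j = b) (hm : prt V C m = b) : False := by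
  -- an inner point of a pair part is a singleton part
  have key : ∀ (x y z : Pos Bl) (c : Bl), x < y → y < z → prt V C x = some (Sum.inl c) →
      prt V C z = some (Sum.inl c) → blk y = c ∧ lt4 y = 1 := by
    intro x y z c hxy hyz hx hz
    rw [prt_inl hC] at hx hz
    have h1 : blk x = c := by rcases hx.2 with rfl | rfl <;> simp
    have h2 : blk z = c := by rcases hz.2 with rfl | rfl <;> simp
    have h3 : blk y = c := le_antisymm (h2 ▸ blk_le hyz) (h1 ▸ blk_le hxy)
    refine ⟨h3, ?_⟩
    have h4 : lt4 x < lt4 y := by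
      rcases pos_lt.1 hxy with h | h
      · rw [h1, h3] at h; exact absurd h (lt_irrefl _)
      · exact h.2
    have h5 : lt4 y < lt4 z := by
      rcases pos_lt.1 hyz with h | h
      · rw [h2, h3] at h; exact absurd h (lt_irrefl _)
      · exact h.2
    have h6 : lt4 z ≤ 2 := by
      rcases hz.2 with rfl | rfl
      · exact Fin.zero_le _
      · exact le_rfl
    generalize lt4 y = t at h4 h5 ⊢
    generalize lt4 x = t1 at h4
    generalize lt4 z = t2 at h5 h6
    omega
  have sing : ∀ y : Pos Bl, blk y ∉ V → lt4 y = 1 → prt V C y = some (Sum.inr y) := by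
    intro y h1 h2
    unfold prt
    have h3 : y ∉ C := fun h => h1 (hC y h)
    rw [if_neg h3, if_neg]
    rw [h2]
    simp
  rcases a with _ | (a | a)
  · rcases b with _ | (b | b)
    · exact hab rfl
    · obtain ⟨h1, h2⟩ := key j l m b hjl hlm hj hm
      have h3 := ((prt_inl hC).1 hj).1
      rw [sing l (h1 ▸ h3) h2] at hl
      simp at hl
    · have h1 := prt_inr hj
      have h2 := prt_inr hm
      rw [h1, ← h2] at hjl
      exact absurd (hjl.trans hlm) (lt_irrefl _)
  · obtain ⟨h1, h2⟩ := key i j l a hij hjl hi hl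
    have h3 := ((prt_inl hC).1 hi).1
    rw [sing j (h1 ▸ h3) h2] at hj
    subst hj
    have h4 := prt_inr hm
    rw [h4] at hlm
    exact absurd (hjl.trans hlm) (lt_irrefl _)
  · have h1 := prt_inr hi
    have h2 := prt_inr hl
    rw [h1, ← h2] at hij
    exact absurd (hij.trans hjl) (lt_irrefl _)

/-- The basic pieces are stratified. -/
theorem piece (V : Finset Bl) (C : Finset (Pos Bl)) (hC : ∀ i ∈ C, blk i ∈ V)
    (τ : Bl → SignType) (Xc : (Fin k → ℕ) → Set (Pos Bl → ℕ))
    (hXc : Loc (prt V C) none Stratified Xc)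
    (hloc : ∀ θ (x y : Pos Bl → ℕ), (∀ i ∈ C, x i = y i) → x ∈ Xc θ → y ∈ Xc θ) :
    TU (fun θ => {x | (∀ b, b ∉ V → SignType.sign (al x b) = τ b) ∧ x ∈ Xc θ}) := by
  classical
  let X : Option (Bl ⊕ Pos Bl) → (Fin k → ℕ) → Set (Pos Bl → ℕ) := fun a θ =>
    match a with
    | none => Xc θ
    | some (Sum.inl b) => if b ∈ V then Set.univ else {x | SignType.sign (al x b) = τ b}
    | some (Sum.inr _) => Set.univ
  have hX : ∀ a, Loc (prt V C) a Stratified (X a) := by
    intro a
    rcases a with _ | (b | j)
    · exact hXc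
    · by_cases hb : b ∈ V
      · refine (loc_empty (fun i hi => ?_)).congr ?_
        · exact ((prt_inl hC).1 hi).1 hb
        · intro θ x _
          simp [X, hb]
      · have hp : ∀ i, prt V C i = some (Sum.inl b) ↔ i = at' b 0 ∨ i = at' b 2 := by
          intro i
          rw [prt_inl hC]
          simp [hb]
        have h02 : at' b 0 < at' b 2 := at_lt.2 (Or.inr ⟨rfl, by decide⟩)
        rcases h : τ b with _ | _ | _
        · refine (loc_eq h02 hp).congr ?_
          intro θ x _
          simp only [X, hb, if_false, Set.mem_ofPred_eq, h]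
          rw [show SignType.zero = (0 : SignType) from rfl, sign_eq_zero_iff, al]
          omega
        · refine (loc_lt h02 hp).congr ?_
          intro θ x _
          simp only [X, hb, if_false, Set.mem_ofPred_eq, h]
          rw [show SignType.neg = (-1 : SignType) from rfl, sign_eq_neg_one_iff, al]
          omega
        · refine (loc_gt h02 hp).congr ?_
          intro θ x _
          simp only [X, hb, if_false, Set.mem_ofPred_eq, h]
          rw [show SignType.pos = (1 : SignType) from rfl, sign_eq_one_iff, al]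
          omega
    · by_cases hj : prt V C j = some (Sum.inr j)
      · refine (loc_free (u := j) (fun i => ⟨fun h => prt_inr h, ?_⟩)).congr ?_
        · rintro rfl
          exact hj
        · intro θ x _
          simp [X]
      · refine (loc_empty (fun i hi => ?_)).congr ?_
        · have := prt_inr hi
          subst this
          exact hj hi
        · intro θ x _
          simp [X]
  refine (TU.prod (prt_cross hC) hX).congr ?_
  intro θ x
  simp only [Set.mem_ofPred_eq]
  have hr : ∀ i ∈ C, restr (prt V C) none x i = x i := by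
    intro i hi
    rw [restr_apply, if_pos (prt_none.2 hi)]
  constructor
  · rintro ⟨h1, h2⟩ a
    rcases a with _ | (b | j)
    · exact hloc θ x _ (fun i hi => (hr i hi).symm) h2
    · by_cases hb : b ∈ V
      · simp [X, hb]
      · simp only [X, hb, if_false, Set.mem_ofPred_eq]
        rw [← h1 b hb]
        congr 1
        simp only [al, restr_apply]
        rw [if_pos ((prt_inl hC).2 ⟨hb, Or.inl rfl⟩), if_pos ((prt_inl hC).2 ⟨hb, Or.inr rfl⟩)]
    · simp [X]
  · intro h
    refine ⟨fun b hb => ?_, hloc θ _ x hr (h none)⟩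
    have := h (some (Sum.inl b))
    simp only [X, hb, if_false, Set.mem_ofPred_eq] at this
    rw [← this]
    congr 1
    simp only [al, restr_apply]
    rw [if_pos ((prt_inl hC).2 ⟨hb, Or.inl rfl⟩), if_pos ((prt_inl hC).2 ⟨hb, Or.inr rfl⟩)]

end piece

end Pool.Agent.MP2a1ef3
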