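import Pool.Agent.Lib.MP_2a1ef3_lc.Sem

/-!
The set of a system of gates: template description.
-/

set_option autoImplicit false
set_option linter.unusedSimpArgs false

namespace Pool.Agent.MP2a1ef3

/-- Placement of the witness blocks and the variable blocks. -/
structure Place (Bl : Type) [LinearOrder Bl] (s v : ℕ) where
  wit : Fin s → Bl
  var : ℕ → Bl
  wit_inj : Function.Injective wit
  var_lt : ∀ i j, i < j → j < v → var i < var j
  wit_ne : ∀ g, ∀ i < v, wit g ≠ var i

section defs

variable {Bl : Type} [LinearOrder Bl] {s v k : ℕ}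

/-- The variable blocks of a gate. -/
def gblk {K : Type} (π : Place Bl s v) : Gate K → Finset Bl
  | Gate.one i => {π.var i}
  | Gate.lin _ i l => {π.var i, π.var l}
  | Gate.add i j l => {π.var i, π.var j, π.var l}
  | Gate.mul i j l => {π.var i, π.var j, π.var l}

/-- The condition imposed by a gate. -/
def cond (π : Place Bl s v) (x : Pos Bl → ℕ) : Gate ℕ → Prop
  | Gate.one i => be x (π.var i) = al x (π.var i)
  | Gate.lin c i l => al x (π.var i) ≠ al x (π.var l) ∨
      be x (π.var l) = (c : ℤ) * be x (π.var i)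
  | Gate.add i j l => al x (π.var i) ≠ al x (π.var j) ∨ al x (π.var j) ≠ al x (π.var l) ∨
      be x (π.var i) + be x (π.var j) = be x (π.var l)
  | Gate.mul i j l => al x (π.var i) ≠ al x (π.var l) ∨ be x (π.var i) ≠ al x (π.var j) ∨
      be x (π.var j) = be x (π.var l)

/-- The mode of a gate. -/
def mode {K : Type} (π : Place Bl s v) (G : Fin s → Gate K) (g : Fin s) (x : Pos Bl → ℕ) :
    Prop :=
  al x (π.wit g) ≠ 0 ∧ ∀ b, b ≠ π.wit g → b ∉ gblk π (G g) → al x b = 0

/-- The main part. -/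
def V0 (π : Place Bl s v) (G : Fin s → Gate ℕ) (x : Pos Bl → ℕ) : Prop :=
  (∃ b, al x b ≠ 0) ∧ ∀ g, mode π G g x → cond π x (G g)

/-- The semilinear set of the reduction. -/
def MM (π : Place Bl s v) (G : Fin s → Gate ℕ) : Set (Pos Bl → ℕ) :=
  {x | (∀ b, al x b = 0 ∧ be x b = 0) ∨ V0 π G x}

lemma gblk_map {K K' : Type} (f : K → K') (π : Place Bl s v) (g : Gate K) :
    gblk π (g.map f) = gblk π g := by
  cases g <;> rfl

lemma mode_map {K K' : Type} (f : K → K') (π : Place Bl s v) (G : Fin s → Gate K) (g : Fin s)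
    (x : Pos Bl → ℕ) : mode π (fun g => (G g).map f) g x ↔ mode π G g x := by
  unfold mode
  simp only [gblk_map]

lemma wit_not_mem {K : Type} (π : Place Bl s v) {G : Fin s → Gate K}
    (hG : ∀ g, (G g).WF v) (g g' : Fin s) : π.wit g' ∉ gblk π (G g) := by
  have h := hG g
  cases hg : G g <;> rw [hg] at h <;> simp only [Gate.WF] at h <;>
    simp only [gblk, Finset.mem_insert, Finset.mem_singleton, not_or]
  · exact π.wit_ne _ _ h
  · exact ⟨π.wit_ne _ _ (by omega), π.wit_ne _ _ (by omega)⟩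
  · exact ⟨π.wit_ne _ _ (by omega), π.wit_ne _ _ (by omega), π.wit_ne _ _ (by omega)⟩
  · exact ⟨π.wit_ne _ _ (by omega), π.wit_ne _ _ (by omega), π.wit_ne _ _ (by omega)⟩

lemma mode_unique {K : Type} (π : Place Bl s v) {G : Fin s → Gate K}
    (hG : ∀ g, (G g).WF v) {g g' : Fin s} {x : Pos Bl → ℕ} (h : mode π G g x)
    (h' : mode π G g' x) : g' = g := by
  by_contra hne
  exact h'.1 (h.2 _ (fun h0 => hne (π.wit_inj h0)) (wit_not_mem π hG g g'))

end defs

section tu

variable {Bl : Type} [LinearOrder Bl] [Fintype Bl] {s v k : ℕ} (π : Place Bl s v)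
  {G : Fin s → Gate (ℕ ⊕ Fin k)} (hG : ∀ g, (G g).WF v)

include hG

/-- Pieces inside a mode. -/
lemma tu_mode (g : Fin s) (C : Finset (Pos Bl)) (hC : ∀ i ∈ C, blk i ∈ gblk π (G g))
    (Xc : (Fin k → ℕ) → Set (Pos Bl → ℕ))
    (hXc : Loc (prt (gblk π (G g)) C) none Stratified Xc)
    (hloc : ∀ θ (x y : Pos Bl → ℕ), (∀ i ∈ C, x i = y i) → x ∈ Xc θ → y ∈ Xc θ) :
    TU (fun θ => {x | mode π G g x ∧ x ∈ Xc θ}) := by
  have h1 := piece (gblk π (G g)) C hC (fun b => if b = π.wit g then 1 else 0) Xc hXc hloc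
  have h2 := piece (gblk π (G g)) C hC (fun b => if b = π.wit g then -1 else 0) Xc hXc hloc
  refine (h1.union h2).congr ?_
  intro θ x
  have hw := wit_not_mem π hG g g
  simp only [Set.mem_ofPred_eq, Set.mem_union, mode]
  constructor
  · rintro ⟨⟨h3, h4⟩, h5⟩
    rcases lt_or_gt_of_ne h3 with h6 | h6
    · right
      refine ⟨fun b hb => ?_, h5⟩
      split_ifs with h7
      · rw [h7, sign_eq_neg_one_iff]; exact h6
      · rw [h4 b h7 hb, sign_zero]
    · left
      refine ⟨fun b hb => ?_, h5⟩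
      split_ifs with h7
      · rw [h7, sign_eq_one_iff]; exact h6
      · rw [h4 b h7 hb, sign_zero]
  · rintro (⟨h3, h5⟩ | ⟨h3, h5⟩)
    · refine ⟨⟨?_, fun b hb1 hb2 => ?_⟩, h5⟩
      · have := h3 _ hw
        rw [if_pos rfl, sign_eq_one_iff] at this
        exact this.ne'
      · have := h3 b hb2
        rw [if_neg hb1, sign_eq_zero_iff] at this
        exact this
    · refine ⟨⟨?_, fun b hb1 hb2 => ?_⟩, h5⟩
      · have := h3 _ hw
        rw [if_pos rfl, sign_eq_neg_one_iff] at this
        exact this.ne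
      · have := h3 b hb2
        rw [if_neg hb1, sign_eq_zero_iff] at this
        exact this

/-- Four positions in two blocks. -/
lemma tu_four (g : Fin s) {b b' : Bl} (hbb : b < b') (hb : b ∈ gblk π (G g))
    (hb' : b' ∈ gblk π (G g)) {t u t' u' : Fin 4} (htu : t < u) (htu' : t' < u')
    (Xc : (Fin k → ℕ) → Set (Pos Bl → ℕ))
    (hXc : ∀ {part : Pos Bl → Option (Bl ⊕ Pos Bl)}, at' b t < at' b u → at' b u < at' b' t' →
      at' b' t' < at' b' u' → (∀ i, part i = none ↔ i = at' b t ∨ i = at' b u ∨ i = at' b' t' ∨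
      i = at' b' u') → Loc part none Stratified Xc)
    (hloc : ∀ θ (x y : Pos Bl → ℕ), (∀ i, (i = at' b t ∨ i = at' b u ∨ i = at' b' t' ∨
      i = at' b' u') → x i = y i) → x ∈ Xc θ → y ∈ Xc θ) :
    TU (fun θ => {x | mode π G g x ∧ x ∈ Xc θ}) := by
  refine tu_mode π hG g {at' b t, at' b u, at' b' t', at' b' u'} ?_ Xc ?_ ?_
  · intro i hi
    simp only [Finset.mem_insert, Finset.mem_singleton] at hi
    rcases hi with rfl | rfl | rfl | rfl <;> simpa
  · refine hXc (at_lt.2 (Or.inr ⟨rfl, htu⟩)) (at_lt.2 (Or.inl hbb))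
      (at_lt.2 (Or.inr ⟨rfl, htu'⟩)) ?_
    intro i
    rw [prt_none]
    simp only [Finset.mem_insert, Finset.mem_singleton]
  · intro θ x y h
    refine hloc θ x y (fun i hi => h i ?_)
    simpa only [Finset.mem_insert, Finset.mem_singleton] using hi

/-- Alternatives: the differences of two letters in two blocks are different. -/
lemma tu_ne (g : Fin s) {b b' : Bl} (hbb : b < b') (hb : b ∈ gblk π (G g))
    (hb' : b' ∈ gblk π (G g)) {t u t' u' : Fin 4} (htu : t < u) (htu' : t' < u') :
    TU (fun _ : Fin k → ℕ => {x | mode π G g x ∧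
      x (at' b t) + x (at' b' u') ≠ x (at' b u) + x (at' b' t')}) := by
  refine tu_four π hG g hbb hb hb' htu htu'
    (fun _ => {x | x (at' b t) + x (at' b' u') ≠ x (at' b u) + x (at' b' t')}) ?_ ?_
  · intro part h0 h1 h2 hp
    exact loc_ne h0 h1 h2 hp
  · intro θ x y h hx
    simp only [Set.mem_ofPred_eq] at hx ⊢
    rw [← h _ (Or.inl rfl), ← h _ (Or.inr (Or.inl rfl)), ← h _ (Or.inr (Or.inr (Or.inl rfl))),
      ← h _ (Or.inr (Or.inr (Or.inr rfl)))]
    exact hx

lemma tu_lin (g : Fin s) {b b' : Bl} (hbb : b < b') (hb : b ∈ gblk π (G g))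
    (hb' : b' ∈ gblk π (G g)) {t u t' u' : Fin 4} (htu : t < u) (htu' : t' < u')
    (c : ℕ ⊕ Fin k) :
    TU (fun θ : Fin k → ℕ => {x | mode π G g x ∧
      x (at' b' t') + ev θ c * x (at' b u) = x (at' b' u') + ev θ c * x (at' b t)}) := by
  refine tu_four π hG g hbb hb hb' htu htu'
    (fun θ => {x | x (at' b' t') + ev θ c * x (at' b u) =
      x (at' b' u') + ev θ c * x (at' b t)}) ?_ ?_
  · intro part h0 h1 h2 hp
    exact loc_lin c h0 h1 h2 hp
  · intro θ x y h hx
    simp only [Set.mem_ofPred_eq] at hx ⊢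
    rw [← h _ (Or.inl rfl), ← h _ (Or.inr (Or.inl rfl)), ← h _ (Or.inr (Or.inr (Or.inl rfl))),
      ← h _ (Or.inr (Or.inr (Or.inr rfl)))]
    exact hx

/-- One gate. -/
lemma tu_gate (g : Fin s) :
    TU (fun θ => {x | mode π G g x ∧ cond π x ((G g).map (ev θ))}) := by
  have hW := hG g
  cases hg : G g with
  | one i =>
    rw [hg] at hW
    simp only [Gate.WF] at hW
    have hb : π.var i ∈ gblk π (G g) := by rw [hg]; simp [gblk]
    set b := π.var i with hbd
    have h := tu_mode π hG g {at' b 0, at' b 1, at' b 2, at' b 3} ?_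
      (fun _ => {x | x (at' b 0) + x (at' b 3) = x (at' b 1) + x (at' b 2)}) ?_ ?_
    · refine h.congr ?_
      intro θ x
      simp only [Set.mem_ofPred_eq, Gate.map, cond, ← hbd, al, be]
      refine and_congr_right fun _ => ?_
      omega
    · intro j hj
      simp only [Finset.mem_insert, Finset.mem_singleton] at hj
      rcases hj with rfl | rfl | rfl | rfl <;> simpa
    · refine loc_one (at_lt.2 (Or.inr ⟨rfl, by decide⟩)) (at_lt.2 (Or.inr ⟨rfl, by decide⟩))
        (at_lt.2 (Or.inr ⟨rfl, by decide⟩)) ?_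
      intro j
      rw [prt_none]
      simp only [Finset.mem_insert, Finset.mem_singleton]
    · intro θ x y h hx
      simp only [Set.mem_ofPred_eq] at hx ⊢
      rw [← h _ (by simp), ← h _ (by simp), ← h _ (by simp), ← h _ (by simp)]
      exact hx
  | lin c i l =>
    rw [hg] at hW
    simp only [Gate.WF] at hW
    have hb : π.var i ∈ gblk π (G g) := by rw [hg]; simp [gblk]
    have hb' : π.var l ∈ gblk π (G g) := by rw [hg]; simp [gblk]
    have hlt := π.var_lt i l hW.1 hW.2
    have h1 := tu_ne π hG g hlt hb hb' (t := 0) (u := 2) (t' := 0) (u' := 2) (by decide)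
      (by decide)
    have h2 := tu_lin π hG g hlt hb hb' (t := 1) (u := 3) (t' := 1) (u' := 3) (by decide)
      (by decide) c
    refine (h1.union h2).congr ?_
    intro θ x
    simp only [Set.mem_ofPred_eq, Set.mem_union, Gate.map, cond, al, be, ← and_or_left]
    refine and_congr_right fun _ => ?_
    refine or_congr (by omega) ?_
    constructor
    · intro h
      zify
      linarith
    · intro h
      zify at h
      linarith
  | add i j l =>
    rw [hg] at hW
    simp only [Gate.WF] at hW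
    have hb : π.var i ∈ gblk π (G g) := by rw [hg]; simp [gblk]
    have hc : π.var j ∈ gblk π (G g) := by rw [hg]; simp [gblk]
    have hd : π.var l ∈ gblk π (G g) := by rw [hg]; simp [gblk]
    have hlt := π.var_lt i j hW.1 (by omega)
    have hlt' := π.var_lt j l hW.2.1 hW.2.2
    have h1 := tu_ne π hG g hlt hb hc (t := 0) (u := 2) (t' := 0) (u' := 2) (by decide)
      (by decide)
    have h2 := tu_ne π hG g hlt' hc hd (t := 0) (u := 2) (t' := 0) (u' := 2) (by decide)
      (by decide)
    set b := π.var i with hbd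
    set c := π.var j with hcd
    set d := π.var l with hdd
    have h3 := tu_mode π hG g {at' b 1, at' b 3, at' c 1, at' c 3, at' d 1, at' d 3} ?_
      (fun _ => {x | x (at' b 1) + x (at' c 1) + x (at' d 3) =
        x (at' b 3) + x (at' c 3) + x (at' d 1)}) ?_ ?_
    · refine ((h1.union h2).union h3).congr ?_
      intro θ x
      simp only [Set.mem_ofPred_eq, Set.mem_union, Gate.map, cond, ← hbd, ← hcd, ← hdd, al, be,
        ← and_or_left]
      refine and_congr_right fun _ => ?_
      omega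
    · intro j hj
      simp only [Finset.mem_insert, Finset.mem_singleton] at hj
      rcases hj with rfl | rfl | rfl | rfl | rfl | rfl <;> simpa
    · refine loc_add (at_lt.2 (Or.inr ⟨rfl, by decide⟩)) (at_lt.2 (Or.inl hlt))
        (at_lt.2 (Or.inr ⟨rfl, by decide⟩)) (at_lt.2 (Or.inl hlt'))
        (at_lt.2 (Or.inr ⟨rfl, by decide⟩)) ?_
      intro j
      rw [prt_none]
      simp only [Finset.mem_insert, Finset.mem_singleton]
    · intro θ x y h hx
      simp only [Set.mem_ofPred_eq] at hx ⊢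
      rw [← h _ (by simp), ← h _ (by simp), ← h _ (by simp), ← h _ (by simp), ← h _ (by simp),
        ← h _ (by simp)]
      exact hx
  | mul i j l =>
    rw [hg] at hW
    simp only [Gate.WF] at hW
    have hb : π.var i ∈ gblk π (G g) := by rw [hg]; simp [gblk]
    have hc : π.var j ∈ gblk π (G g) := by rw [hg]; simp [gblk]
    have hd : π.var l ∈ gblk π (G g) := by rw [hg]; simp [gblk]
    have hlt := π.var_lt i j hW.1 (by omega)
    have hlt' := π.var_lt j l hW.2.1 hW.2.2
    have h1 := tu_ne π hG g (hlt.trans hlt') hb hd (t := 0) (u := 2) (t' := 0) (u' := 2)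
      (by decide) (by decide)
    have h2 := tu_ne π hG g hlt hb hc (t := 1) (u := 3) (t' := 0) (u' := 2) (by decide)
      (by decide)
    have h3 := tu_lin π hG g hlt' hc hd (t := 1) (u := 3) (t' := 1) (u' := 3) (by decide)
      (by decide) (Sum.inl 1)
    refine ((h1.union h2).union h3).congr ?_
    intro θ x
    simp only [Set.mem_ofPred_eq, Set.mem_union, Gate.map, cond, al, be, ← and_or_left, ev_inl,
      one_mul]
    refine and_congr_right fun _ => ?_
    omega

/-- The part outside all modes. -/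
lemma tu_nomode : TU (fun _ : Fin k → ℕ =>
    {x : Pos Bl → ℕ | (∃ b, al x b ≠ 0) ∧ ∀ g, ¬ mode π G g x}) := by
  have h : ∀ τ : Bl → SignType, TU (fun _ : Fin k → ℕ => {x : Pos Bl → ℕ |
      (((∃ b, τ b ≠ 0) ∧ ∀ g, ¬ (τ (π.wit g) ≠ 0 ∧ ∀ b, b ≠ π.wit g → b ∉ gblk π (G g) →
        τ b = 0)) ∧ x ∈ {x : Pos Bl → ℕ | (∀ b, b ∉ (∅ : Finset Bl) →
          SignType.sign (al x b) = τ b) ∧ x ∈ (Set.univ : Set (Pos Bl → ℕ))})}) := by
    intro τ
    refine TU.ite ?_ _
    refine piece ∅ ∅ (by simp) τ (fun _ => Set.univ) ?_ (by simp)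
    refine loc_empty ?_
    intro i hi
    rw [prt_none] at hi
    simp at hi
  refine (TU.iUnion h).congr ?_
  intro θ x
  simp only [Set.mem_ofPred_eq, Set.mem_iUnion, Finset.notMem_empty, not_false_eq_true,
    forall_true_left, Set.mem_univ, and_true]
  have hs : ∀ b, SignType.sign (al x b) = 0 ↔ al x b = 0 := fun b => sign_eq_zero_iff
  constructor
  · rintro ⟨⟨b, hb⟩, h2⟩
    refine ⟨fun b => SignType.sign (al x b), ⟨⟨b, fun h0 => hb ((hs b).1 h0)⟩, ?_⟩,
      fun b => rfl⟩
    intro g hg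
    refine h2 g ⟨fun h0 => hg.1 ((hs _).2 h0), fun b h3 h4 => (hs b).1 (hg.2 b h3 h4)⟩
  · rintro ⟨τ, ⟨⟨b, hb⟩, h2⟩, h3⟩
    refine ⟨⟨b, fun h0 => hb ?_⟩, ?_⟩
    · rw [← h3 b, h0, sign_zero]
    · intro g hg
      refine h2 g ⟨?_, ?_⟩
      · rw [← h3]
        exact fun h0 => hg.1 ((hs _).1 h0)
      · intro b h4 h5
        rw [← h3]
        exact (hs b).2 (hg.2 b h4 h5)

/-- `V0` is described by a stratified template. -/
theorem tu_V0 : TU (fun θ => {x | V0 π (fun g => (G g).map (ev θ)) x}) := by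
  refine ((tu_nomode π hG).union (TU.iUnion (tu_gate π hG))).congr ?_
  intro θ x
  simp only [Set.mem_ofPred_eq, Set.mem_union, Set.mem_iUnion, V0, mode_map]
  constructor
  · rintro ⟨h1, h2⟩
    by_cases h : ∀ g, ¬ mode π G g x
    · exact Or.inl ⟨h1, h⟩
    · push Not at h
      obtain ⟨g, hg⟩ := h
      exact Or.inr ⟨g, hg, h2 g hg⟩
  · rintro (⟨h1, h2⟩ | ⟨g, hg, hc⟩)
    · exact ⟨h1, fun g hg => absurd hg (h2 g)⟩
    · refine ⟨⟨_, hg.1⟩, fun g' hg' => ?_⟩
      rw [mode_unique π hG hg hg']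
      exact hc

omit hG in
/-- The balanced vectors are described by a template. -/
theorem tl_zero : TL (fun _ : Fin k → ℕ =>
    {x : Pos Bl → ℕ | ∀ b, al x b = 0 ∧ be x b = 0}) := by
  let part : Pos Bl → Bl × Bool := fun i => (blk i, decide (lt4 i = 1 ∨ lt4 i = 3))
  have hp : ∀ (b : Bl) (c : Bool) (i : Pos Bl), part i = (b, c) ↔
      i = at' b (if c then 1 else 0) ∨ i = at' b (if c then 3 else 2) := by
    intro b c i
    rw [← at_blk i]
    generalize blk i = b1
    generalize lt4 i = t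
    simp only [part, blk_at, lt4_at, Prod.mk.injEq, at_inj]
    cases c <;> simp only [Bool.false_eq_true, if_true, if_false] <;> fin_cases t <;> simp
  have hX : ∀ a : Bl × Bool, Loc part a (fun _ => True) (fun _ : Fin k → ℕ =>
      {x : Pos Bl → ℕ | x (at' a.1 (if a.2 then 1 else 0)) =
        x (at' a.1 (if a.2 then 3 else 2))}) := by
    rintro ⟨b, c⟩
    refine (loc_eq ?_ (hp b c)).weaken
    refine at_lt.2 (Or.inr ⟨rfl, ?_⟩)
    cases c <;> simp
  refine (TL.prod hX).congr ?_
  intro θ x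
  simp only [Set.mem_ofPred_eq, al, be, restr_apply]
  constructor
  · rintro h ⟨b, c⟩
    obtain ⟨h1, h2⟩ := h b
    rw [if_pos ((hp b c _).2 (Or.inl rfl)), if_pos ((hp b c _).2 (Or.inr rfl))]
    cases c
    · simp only [Bool.false_eq_true, if_false]; omega
    · simp only [if_true]; omega
  · intro h b
    have h1 : (if part (at' b 0) = (b, false) then x (at' b 0) else 0) =
        (if part (at' b 2) = (b, false) then x (at' b 2) else 0) := h (b, false)
    have h2 : (if part (at' b 1) = (b, true) then x (at' b 1) else 0) =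
        (if part (at' b 3) = (b, true) then x (at' b 3) else 0) := h (b, true)
    have p0 : part (at' b 0) = (b, false) := (hp b false _).2 (Or.inl rfl)
    have p2 : part (at' b 2) = (b, false) := (hp b false _).2 (Or.inr rfl)
    have p1 : part (at' b 1) = (b, true) := (hp b true _).2 (Or.inl rfl)
    have p3 : part (at' b 3) = (b, true) := (hp b true _).2 (Or.inr rfl)
    rw [if_pos p0, if_pos p2] at h1
    rw [if_pos p1, if_pos p3] at h2
    omega

/-- The set of the reduction is described by a template. -/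
theorem tl_MM : TL (fun θ => MM π (fun g => (G g).map (ev θ))) := by
  refine (tl_zero.union (tu_V0 π hG).tl).congr ?_
  intro θ x
  rfl

end tu

end Pool.Agent.MP2a1ef3
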